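import Mathlib

/-!
`X.Modules` is a Grothendieck abelian category; in particular it has enough injectives.
Also: the objects `LU X U` representing sections over `U`.
-/

universe u v

open CategoryTheory Limits

namespace Pool.Agent.W506

section General

variable {C : Type u} [SmallCategory.{u} C] {J : GrothendieckTopology C} (R₀ : Cᵒᵖ ⥤ RingCat.{u})
  (R : Sheaf J RingCat.{u})

instance exactColimitsPresheaf (K : Type u) [SmallCategory K] [IsFiltered K] :
    HasExactColimitsOfShape K (PresheafOfModules.{u} R₀) :=
  HasExactColimitsOfShape.domain_of_functor K (PresheafOfModules.toPresheaf R₀)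

instance exactColimitsSheaf (K : Type u) [SmallCategory K] [IsFiltered K] :
    HasExactColimitsOfShape K (SheafOfModules.{u} R) :=
  (PresheafOfModules.sheafificationAdjunction (𝟙 R.obj)).hasExactColimitsOfShape K

instance ab5Sheaf : AB5OfSize.{u, u} (SheafOfModules.{u} R) where
  ofShape _ _ _ := inferInstance

/-- the sheaf of modules representing the sections over `U` -/
noncomputable def freeOn (U : C) : SheafOfModules.{u} R :=
  (PresheafOfModules.sheafification (𝟙 R.obj)).obj
    ((PresheafOfModules.free R.obj).obj (yoneda.obj U))

/-- functoriality -/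
noncomputable def freeOnFunctor : C ⥤ SheafOfModules.{u} R :=
  yoneda ⋙ PresheafOfModules.free R.obj ⋙ PresheafOfModules.sheafification (𝟙 R.obj)

set_option backward.isDefEq.respectTransparency.types false in
/-- sections over `U` are morphisms from `freeOn R U` -/
noncomputable def freeOnEquiv (U : C) (M : SheafOfModules.{u} R) :
    (freeOn R U ⟶ M) ≃ M.val.obj (Opposite.op U) :=
  ((PresheafOfModules.sheafificationAdjunction (𝟙 R.obj)).homEquiv _ _).trans
    PresheafOfModules.freeYonedaEquiv

set_option backward.isDefEq.respectTransparency.types false in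
lemma freeOnEquiv_comp (U : C) {M N : SheafOfModules.{u} R} (f : freeOn R U ⟶ M) (g : M ⟶ N) :
    freeOnEquiv R U N (f ≫ g) = g.val.app _ (freeOnEquiv R U M f) := by
  have h := (PresheafOfModules.sheafificationAdjunction (𝟙 R.obj)).homEquiv_naturality_right f g
  have h2 := congrArg PresheafOfModules.freeYonedaEquiv h
  exact h2

set_option backward.isDefEq.respectTransparency.types false in
lemma freeOn_isSeparating :
    ObjectProperty.IsSeparating (.ofObj (fun U : C => freeOn R U)) := by
  intro M N f g hfg
  ext U x
  have h1 := hfg _ (ObjectProperty.ofObj_apply _ U.unop) ((freeOnEquiv R U.unop M).symm x)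
  have h2 := congrArg (freeOnEquiv R U.unop N) h1
  rw [freeOnEquiv_comp, freeOnEquiv_comp, Equiv.apply_symm_apply] at h2
  exact h2

instance hasSeparatorSheaf : HasSeparator (SheafOfModules.{u} R) where
  hasSeparator := ⟨_, (freeOn_isSeparating R).isSeparator_coproduct⟩

instance isGrothendieckSheaf : IsGrothendieckAbelian.{u} (SheafOfModules.{u} R) where

end General

open AlgebraicGeometry

instance (X : Scheme.{u}) : IsGrothendieckAbelian.{u} X.Modules :=
  inferInstanceAs (IsGrothendieckAbelian.{u} (SheafOfModules X.ringCatSheaf))

instance (X : Scheme.{u}) : EnoughInjectives X.Modules := inferInstance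

end Pool.Agent.W506
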