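import Mathlib

/-!
Quasi-isomorphisms and acyclic mapping cones; functors exact on acyclic complexes of adapted objects.
-/

universe v u v' u'

open CategoryTheory Limits Pretriangulated ZeroObject

namespace Pool.Agent.W506

variable {A : Type u} [Category.{v} A] [Abelian A]

lemma quasiIso_to_zero_iff (K : CochainComplex A ℤ) :
    QuasiIso (0 : K ⟶ (0 : CochainComplex A ℤ)) ↔ K.Acyclic := by
  rw [quasiIso_iff]
  have hz : ∀ i, (0 : CochainComplex A ℤ).ExactAt i := fun i =>
    HomologicalComplex.acyclic_of_isZero _ (isZero_zero _) i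
  constructor
  · intro h i
    have := h i
    rw [HomologicalComplex.exactAt_iff_isZero_homology]
    have h2 : IsIso (HomologicalComplex.homologyMap (0 : K ⟶ (0 : CochainComplex A ℤ)) i) := by
      rwa [← quasiIsoAt_iff_isIso_homologyMap]
    exact ((hz i).isZero_homology).of_iso (@asIso _ _ _ _ _ h2)
  · intro h i
    rw [quasiIsoAt_iff_isIso_homologyMap]
    exact isIso_of_source_target_iso_zero _ ((h i).isZero_homology.isoZero)
      ((hz i).isZero_homology.isoZero)

attribute [local instance] HasDerivedCategory.standard in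
lemma quasiIso_iff_acyclic_mappingCone {K L : CochainComplex A ℤ} (φ : K ⟶ L) :
    QuasiIso φ ↔ (CochainComplex.mappingCone φ).Acyclic := by
  have hT := DerivedCategory.mappingCone_triangle_distinguished φ
  rw [← quasiIso_to_zero_iff, ← DerivedCategory.isIso_Q_map_iff_quasiIso,
    ← DerivedCategory.isIso_Q_map_iff_quasiIso]
  have h1 := Triangle.isZero₃_iff_isIso₁ _ hT
  have h2 : IsZero (DerivedCategory.Q.mapTriangle.obj
      (CochainComplex.mappingCone.triangle φ)).obj₃ ↔
      IsIso (DerivedCategory.Q.map (0 : CochainComplex.mappingCone φ ⟶ 0)) := by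
    have hz : IsZero (DerivedCategory.Q.obj (0 : CochainComplex A ℤ)) :=
      Functor.map_isZero _ (isZero_zero _)
    constructor
    · intro h
      exact isIso_of_source_target_iso_zero _ (IsZero.isoZero h) hz.isoZero
    · intro h
      exact hz.of_iso (@asIso _ _ _ _ _ h)
  rw [← h2, h1]
  rfl

end Pool.Agent.W506
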