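import Pool.Agent.W506.D1

/-!
Functors exact on acyclic complexes of adapted objects.
-/

universe v u v' u'

open CategoryTheory Limits Pretriangulated ZeroObject

namespace Pool.Agent.W506

set_option linter.unusedSectionVars false
set_option backward.isDefEq.respectTransparency false

variable {A : Type u} [Category.{v} A] [Abelian A]

/-- the short complex `Z^i → K^i → Z^j` -/
noncomputable abbrev cyclesSC (K : CochainComplex A ℤ) (i j : ℤ) : ShortComplex A :=
  ShortComplex.mk (K.iCycles i) (K.toCycles i j)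
    (by rw [← cancel_mono (K.iCycles j)]; simp)

lemma epi_toCycles_of_exactAt (K : CochainComplex A ℤ) (i j : ℤ) (hij : i + 1 = j)
    (h : K.ExactAt j) : Epi (K.toCycles i j) := by
  have hz := h.isZero_homology
  exact Preadditive.epi_of_isZero_cokernel' _ (K.homologyIsCokernel i j
    (by simp only [CochainComplex.prev]; omega)) hz

lemma cyclesSC_shortExact (K : CochainComplex A ℤ) (i j : ℤ) (hij : i + 1 = j)
    (h : K.ExactAt j) : (cyclesSC K i j).ShortExact := by
  have : Epi (cyclesSC K i j).g := epi_toCycles_of_exactAt K i j hij h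
  have : Mono (cyclesSC K i j).f := inferInstanceAs (Mono (K.iCycles i))
  refine ShortComplex.ShortExact.mk' ?_ inferInstance inferInstance
  apply ShortComplex.exact_of_f_is_kernel
  refine KernelFork.IsLimit.ofι' _ _ (fun {W} k hk => ?_)
  have hk' : k ≫ K.d i j = 0 := by
    rw [← K.toCycles_i i j, ← Category.assoc]
    erw [hk]
    rw [zero_comp]
  exact ⟨K.liftCycles k j (by simp [hij]) hk', K.liftCycles_i _ _ _ _⟩

variable {B : Type u'} [Category.{v'} B] [Abelian B] (F : A ⥤ B) [F.Additive]

/-- A class of objects adapted to a functor. -/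
structure Adapted (P : ObjectProperty A) : Prop where
  inj : ∀ (I : A) [Injective I], P I
  coker : ∀ (S : ShortComplex A), S.ShortExact → P S.X₁ → P S.X₂ → P S.X₃
  epi : ∀ (S : ShortComplex A), S.ShortExact → P S.X₁ → Epi (F.map S.g)
  sum : ∀ X Y, P X → P Y → P (X ⊞ Y)

variable {F}

lemma Adapted.zero {P : ObjectProperty A} (hP : Adapted F P) {X : A} (h : IsZero X) : P X :=
  have : Injective X := by
    constructor
    intros
    exact ⟨0, h.eq_of_tgt _ _⟩
  hP.inj X

lemma Adapted.iso {P : ObjectProperty A} (hP : Adapted F P) {X Y : A} (e : X ≅ Y) (h : P X) :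
    P Y := by
  let S : ShortComplex A := ShortComplex.mk (0 : (0 : A) ⟶ X) e.hom (by simp)
  have : Mono S.f := inferInstanceAs (Mono (0 : (0 : A) ⟶ X))
  have : Epi S.g := inferInstanceAs (Epi e.hom)
  have hS : S.ShortExact := by
    refine ShortComplex.ShortExact.mk' ?_ inferInstance inferInstance
    rw [ShortComplex.exact_iff_mono _ rfl]
    exact inferInstanceAs (Mono e.hom)
  exact hP.coker S hS (hP.zero (isZero_zero _)) h

lemma adapted_cycles {P : ObjectProperty A} (hP : Adapted F P) (K : CochainComplex A ℤ) (n : ℤ)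
    [K.IsStrictlyGE n] (hK : ∀ i, P (K.X i)) (ha : K.Acyclic) (k : ℕ) :
    P (K.cycles (n - 1 + k)) := by
  induction k with
  | zero =>
    apply hP.zero
    have h1 : IsZero (K.X (n - 1 + (0 : ℕ))) := K.isZero_of_isStrictlyGE n _ (by simp)
    exact IsZero.of_mono (K.iCycles _) h1
  | succ k ih =>
    have h := cyclesSC_shortExact K (n - 1 + k) (n - 1 + (k + 1 : ℕ)) (by push_cast; ring) (ha _)
    exact hP.coker _ h ih (hK _)

lemma adapted_cycles' {P : ObjectProperty A} (hP : Adapted F P) (K : CochainComplex A ℤ) (n : ℤ)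
    [K.IsStrictlyGE n] (hK : ∀ i, P (K.X i)) (ha : K.Acyclic) (i : ℤ) :
    P (K.cycles i) := by
  by_cases h : n - 1 ≤ i
  · obtain ⟨k, hk⟩ := Int.eq_ofNat_of_zero_le (sub_nonneg.2 h)
    have : i = n - 1 + k := by omega
    rw [this]
    exact adapted_cycles hP K n hK ha k
  · apply hP.zero
    have h1 : IsZero (K.X i) := K.isZero_of_isStrictlyGE n _ (by omega)
    exact IsZero.of_mono (K.iCycles _) h1

lemma adapted_map_acyclic [PreservesFiniteLimits F] {P : ObjectProperty A} (hP : Adapted F P)
    (K : CochainComplex A ℤ) (n : ℤ)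
    [K.IsStrictlyGE n] (hK : ∀ i, P (K.X i)) (ha : K.Acyclic) :
    ((F.mapHomologicalComplex (ComplexShape.up ℤ)).obj K).Acyclic := by
  intro j
  rw [HomologicalComplex.exactAt_iff' _ (j - 1) j (j + 1) (by simp) (by simp)]
  have h1 : Epi (F.map (K.toCycles (j - 1) j)) :=
    hP.epi _ (cyclesSC_shortExact K (j - 1) j (by ring) (ha j)) (adapted_cycles' hP K n hK ha _)
  -- `F Z^j` is the kernel of `F K^j → F K^{j+1}`
  let S₂ : ShortComplex B := (ShortComplex.mk (K.iCycles j) (K.d j (j + 1))
    (K.iCycles_d j (j + 1))).map F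
  have h2 : S₂.Exact := ShortComplex.exact_of_f_is_kernel _
    (KernelFork.mapIsLimit _ (K.cyclesIsKernel j (j + 1) (by simp)) F)
  let φ : ((F.mapHomologicalComplex (ComplexShape.up ℤ)).obj K).sc' (j - 1) j (j + 1) ⟶ S₂ :=
    { τ₁ := F.map (K.toCycles (j - 1) j)
      τ₂ := 𝟙 _
      τ₃ := 𝟙 _
      comm₁₂ := (F.map_comp _ _).symm.trans
        ((congrArg F.map (K.toCycles_i _ _)).trans (Category.comp_id _).symm)
      comm₂₃ := (Category.id_comp _).trans (Category.comp_id _).symm }
  have : Epi φ.τ₁ := h1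
  have : IsIso φ.τ₂ := inferInstanceAs (IsIso (𝟙 _))
  have : Mono φ.τ₃ := inferInstanceAs (Mono (𝟙 _))
  exact (ShortComplex.exact_iff_of_epi_of_isIso_of_mono φ).2 h2

end Pool.Agent.W506
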