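import Pool.Agent.W506.D2

/-!
The total right derived functor is computed by complexes of adapted objects.
-/

universe v u v' u'

open CategoryTheory Limits Pretriangulated ZeroObject

namespace Pool.Agent.W506

set_option linter.unusedSectionVars false
set_option backward.isDefEq.respectTransparency false

variable {A : Type u} [Category.{v} A] [Abelian A]
variable {B : Type u'} [Category.{v'} B] [Abelian B] {F : A ⥤ B} [F.Additive]

lemma adapted_map_quasiIso [PreservesFiniteLimits F] {P : ObjectProperty A} (hP : Adapted F P)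
    {K L : CochainComplex A ℤ} (n : ℤ)
    [K.IsStrictlyGE n] [L.IsStrictlyGE n] (hK : ∀ i, P (K.X i)) (hL : ∀ i, P (L.X i))
    (φ : K ⟶ L) (hφ : QuasiIso φ) :
    QuasiIso ((F.mapHomologicalComplex (ComplexShape.up ℤ)).map φ) := by
  rw [quasiIso_iff_acyclic_mappingCone] at hφ ⊢
  have hge : (CochainComplex.mappingCone φ).IsStrictlyGE (n - 1) :=
    CochainComplex.isStrictlyGE_mappingCone φ n n _
  have h1 : ∀ i, P ((CochainComplex.mappingCone φ).X i) := by
    intro i
    refine hP.iso ?_ (hP.sum _ _ (hK (i + 1)) (hL i))
    exact (HomologicalComplex.homotopyCofiber.XIsoBiprod φ i (i + 1) rfl).symm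
  have h2 := adapted_map_acyclic hP (CochainComplex.mappingCone φ) (n - 1) h1 hφ
  intro i
  exact (h2 i).of_iso (CochainComplex.mappingCone.mapHomologicalComplexIso φ F)

section RF

variable [HasDerivedCategory A] [HasDerivedCategory B] [EnoughInjectives A]

instance injI (L : CochainComplex.Plus (InjectiveObject A)) (i : ℤ) :
    Injective (((InjectiveObject.ι A).mapCochainComplexPlus.obj L).obj.X i) :=
  (L.obj.X i).property

lemma isIso_unit_of_adapted [PreservesFiniteLimits F] {P : ObjectProperty A} (hP : Adapted F P)
    (K : CochainComplex.Plus A) (hK : ∀ i, P (K.obj.X i)) :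
    IsIso (F.rightDerivedFunctorPlusUnit.app ((HomotopyCategory.Plus.quotient A).obj K)) := by
  obtain ⟨n, hn⟩ := K.property
  obtain ⟨L, hL, i, hi⟩ := CochainComplex.Plus.exists_quasiIso_injective K n
  have hL' : ((InjectiveObject.ι A).mapCochainComplexPlus.obj L).obj.IsStrictlyGE n :=
    inferInstanceAs (CochainComplex.IsStrictlyGE
      (((InjectiveObject.ι A).mapHomologicalComplex _).obj L.obj) n)
  have hq : QuasiIso i.hom := hi
  have nat := F.rightDerivedFunctorPlusUnit.naturality ((HomotopyCategory.Plus.quotient A).map i)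
  have h1 : IsIso ((F.mapHomotopyCategoryPlus ⋙ DerivedCategory.Plus.Qh).map
      ((HomotopyCategory.Plus.quotient A).map i)) := by
    have h2 := adapted_map_quasiIso hP n hK (fun j => hP.inj _) i.hom hq
    refine Localization.inverts DerivedCategory.Plus.Qh (HomotopyCategory.Plus.quasiIso B) _ ?_
    rw [HomotopyCategory.Plus.quasiIso_iff]
    exact (HomotopyCategory.quotient_map_mem_quasiIso_iff _).2 h2
  have h2 : IsIso ((DerivedCategory.Plus.Qh ⋙ F.rightDerivedFunctorPlus).map
      ((HomotopyCategory.Plus.quotient A).map i)) := by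
    have h5 : IsIso (DerivedCategory.Plus.Qh.map ((HomotopyCategory.Plus.quotient A).map i)) := by
      refine Localization.inverts DerivedCategory.Plus.Qh (HomotopyCategory.Plus.quasiIso A) _ ?_
      rw [HomotopyCategory.Plus.quasiIso_iff]
      exact (HomotopyCategory.quotient_map_mem_quasiIso_iff _).2 hq
    exact @Functor.map_isIso _ _ _ _ _ _ F.rightDerivedFunctorPlus _ h5
  have h3 : IsIso (F.rightDerivedFunctorPlusUnit.app ((HomotopyCategory.Plus.quotient A).obj
      ((InjectiveObject.ι A).mapCochainComplexPlus.obj L))) := by infer_instance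
  have h4 : IsIso (F.rightDerivedFunctorPlusUnit.app ((HomotopyCategory.Plus.quotient A).obj K) ≫
      (DerivedCategory.Plus.Qh ⋙ F.rightDerivedFunctorPlus).map
        ((HomotopyCategory.Plus.quotient A).map i)) := by
    rw [← nat]
    exact @IsIso.comp_isIso _ _ _ _ _ _ _ h1 h3
  exact @IsIso.of_isIso_comp_right _ _ _ _ _ _ _ h2 h4

/-- the right derived functor is computed by adapted complexes -/
noncomputable def rightDerivedIso [PreservesFiniteLimits F] {P : ObjectProperty A}
    (hP : Adapted F P) (K : CochainComplex.Plus A) (hK : ∀ i, P (K.obj.X i)) :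
    F.rightDerivedFunctorPlus.obj (DerivedCategory.Plus.Q.obj K) ≅
      DerivedCategory.Plus.Q.obj (F.mapCochainComplexPlus.obj K) :=
  haveI := isIso_unit_of_adapted hP K hK
  (asIso (F.rightDerivedFunctorPlusUnit.app ((HomotopyCategory.Plus.quotient A).obj K))).symm

end RF

end Pool.Agent.W506
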