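import Pool.Agent.W506.D3

/-!
Composition of total right derived functors, on objects.
-/

universe v u v' u' v'' u''

open CategoryTheory Limits Pretriangulated ZeroObject

namespace Pool.Agent.W506

set_option linter.unusedSectionVars false
set_option backward.isDefEq.respectTransparency false

variable {A : Type u} [Category.{v} A] [Abelian A] [HasDerivedCategory A] [EnoughInjectives A]
variable {B : Type u'} [Category.{v'} B] [Abelian B] [HasDerivedCategory B] [EnoughInjectives B]
variable {C : Type u''} [Category.{v''} C] [Abelian C] [HasDerivedCategory C]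

/-- the right derived functor on complexes of injectives -/
noncomputable def rightDerivedIsoInj (F : A ⥤ B) [F.Additive]
    (L : CochainComplex.Plus (InjectiveObject A)) :
    F.rightDerivedFunctorPlus.obj (DerivedCategory.Plus.Q.obj
      ((InjectiveObject.ι A).mapCochainComplexPlus.obj L)) ≅
      DerivedCategory.Plus.Q.obj (F.mapCochainComplexPlus.obj
        ((InjectiveObject.ι A).mapCochainComplexPlus.obj L)) :=
  (asIso (F.rightDerivedFunctorPlusUnit.app ((HomotopyCategory.Plus.quotient A).obj
    ((InjectiveObject.ι A).mapCochainComplexPlus.obj L)))).symm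

/-- natural isomorphisms induce isomorphisms on complexes -/
noncomputable def mapPlusIso {F G : A ⥤ B} [F.Additive] [G.Additive] (e : F ≅ G)
    (K : CochainComplex.Plus A) :
    F.mapCochainComplexPlus.obj K ≅ G.mapCochainComplexPlus.obj K :=
  (CochainComplex.plus B).isoMk ((NatIso.mapHomologicalComplex e (ComplexShape.up ℤ)).app K.obj)

lemma rightDerived_comp_iso (F : A ⥤ B) [F.Additive] (G : B ⥤ C) [G.Additive]
    [PreservesFiniteLimits G] (H : A ⥤ C) [H.Additive] (e : F ⋙ G ≅ H)
    {P : ObjectProperty B} (hP : Adapted G P) (hF : ∀ (I : A) [Injective I], P (F.obj I))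
    (X : DerivedCategory.Plus A) :
    Nonempty (H.rightDerivedFunctorPlus.obj X ≅
      G.rightDerivedFunctorPlus.obj (F.rightDerivedFunctorPlus.obj X)) := by
  obtain ⟨n, hn⟩ := X.property
  have : X.IsGE n := (DerivedCategory.Plus.isGE_ι_obj_iff X n).1 hn
  obtain ⟨L, _, ⟨f⟩⟩ := DerivedCategory.Plus.exists_injective_nonempty_iso X n
  let K := (InjectiveObject.ι A).mapCochainComplexPlus.obj L
  have e1 : H.rightDerivedFunctorPlus.obj X ≅ DerivedCategory.Plus.Q.obj
      (H.mapCochainComplexPlus.obj K) :=
    H.rightDerivedFunctorPlus.mapIso f.symm ≪≫ rightDerivedIsoInj H L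
  have e2 : F.rightDerivedFunctorPlus.obj X ≅ DerivedCategory.Plus.Q.obj
      (F.mapCochainComplexPlus.obj K) :=
    F.rightDerivedFunctorPlus.mapIso f.symm ≪≫ rightDerivedIsoInj F L
  have e3 := rightDerivedIso hP (F.mapCochainComplexPlus.obj K) (fun i => hF (K.obj.X i))
  have e4 : G.mapCochainComplexPlus.obj (F.mapCochainComplexPlus.obj K) ≅
      H.mapCochainComplexPlus.obj K := mapPlusIso e K
  exact ⟨e1 ≪≫ DerivedCategory.Plus.Q.mapIso e4.symm ≪≫ e3.symm ≪≫
    G.rightDerivedFunctorPlus.mapIso e2.symm⟩

end Pool.Agent.W506
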