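import Pool.Agent.W506.D4

/-!
The cone of a morphism from an object in the top degree.
-/

universe v u v' u'

open CategoryTheory Limits Pretriangulated ZeroObject

namespace Pool.Agent.W506

set_option linter.unusedSectionVars false
set_option backward.isDefEq.respectTransparency false

variable {A : Type u} [Category.{v} A] [Abelian A]

open CochainComplex

section

variable (M : CochainComplex A ℤ) (r : ℤ) (P : A) (ε : P ⟶ M.X r)
  (hε : ε ≫ M.d r (r + 1) = 0)

/-- the morphism from the single complex -/
noncomputable def fromTop : (HomologicalComplex.single A (ComplexShape.up ℤ) r).obj P ⟶ M :=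
  HomologicalComplex.mkHomFromSingle ε (fun k hk => by
    obtain rfl : r + 1 = k := hk
    exact hε)

/-- the cone -/
noncomputable abbrev coneTop : CochainComplex A ℤ := mappingCone (fromTop M r P ε hε)

lemma isStrictlyGE_coneTop (a : ℤ) (har : a < r) [M.IsStrictlyGE a] :
    (coneTop M r P ε hε).IsStrictlyGE a :=
  isStrictlyGE_mappingCone (fromTop M r P ε hε) r a a

/-- terms of a cone -/
noncomputable def coneXIso {K L : CochainComplex A ℤ} (φ : K ⟶ L) (i : ℤ) :
    (mappingCone φ).X i ≅ K.X (i + 1) ⊞ L.X i :=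
  HomologicalComplex.homotopyCofiber.XIsoBiprod φ i (i + 1) rfl

lemma isStrictlyLE_coneTop [M.IsStrictlyLE r] :
    (coneTop M r P ε hε).IsStrictlyLE r := by
  rw [isStrictlyLE_iff]
  intro i hi
  rw [mappingCone.isZero_X_iff]
  exact ⟨isZero_of_isStrictlyLE _ r _, isZero_of_isStrictlyLE _ r _⟩

lemma epi_d_coneTop [Epi ε] : Epi ((coneTop M r P ε hε).d (r - 1) r) := by
  have hS : IsZero (((HomologicalComplex.single A (ComplexShape.up ℤ) r).obj P).X (r + 1)) :=
    isZero_of_isStrictlyLE _ r _
  apply Preadditive.epi_of_cancel_zero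
  intro Z g hg
  apply mappingCone.ext_from _ (r + 1) r rfl
  · exact hS.eq_of_src _ _
  · rw [comp_zero]
    have h1 := mappingCone.inl_v_d (fromTop M r P ε hε) r (r - 1) (r + 1) (by ring) (by ring)
    have h2 : (fromTop M r P ε hε).f r ≫ (mappingCone.inr (fromTop M r P ε hε)).f r ≫ g = 0 := by
      have h3 := congrArg (fun x => x ≫ g) h1
      simp only [Category.assoc, hg, comp_zero, Preadditive.sub_comp] at h3
      have h4 : ((HomologicalComplex.single A (ComplexShape.up ℤ) r).obj P).d r (r + 1) = 0 :=
        hS.eq_of_tgt _ _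
      rw [h4, zero_comp, sub_zero] at h3
      exact h3.symm
    have h5 : Epi ((fromTop M r P ε hε).f r) := by
      rw [fromTop, HomologicalComplex.mkHomFromSingle_f]
      infer_instance
    rw [← cancel_epi ((fromTop M r P ε hε).f r), h2, comp_zero]

lemma exactAt_coneTop [M.IsStrictlyLE r] [Epi ε] : (coneTop M r P ε hε).ExactAt r := by
  have h1 := epi_d_coneTop M r P ε hε
  have h2 := isStrictlyLE_coneTop M r P ε hε
  rw [HomologicalComplex.exactAt_iff' _ (r - 1) r (r + 1) (by simp) (by simp)]
  have h3 : IsZero (((coneTop M r P ε hε).sc' (r - 1) r (r + 1)).X₃) :=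
    isZero_of_isStrictlyLE (coneTop M r P ε hε) r _
  rw [ShortComplex.exact_iff_epi _ (h3.eq_of_tgt _ _)]
  exact h1

lemma isLE_coneTop [M.IsStrictlyLE r] [Epi ε] : (coneTop M r P ε hε).IsLE (r - 1) := by
  rw [isLE_iff]
  intro i hi
  have h2 := isStrictlyLE_coneTop M r P ε hε
  rcases eq_or_lt_of_le (show r ≤ i by omega) with h | h
  · subst h
    exact exactAt_coneTop M r P ε hε
  · exact HomologicalComplex.exactAt_of_isSupported _ (ComplexShape.embeddingUpIntLE r) i (by
      simp only [ComplexShape.notMem_range_embeddingUpIntLE_iff]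
      exact h)

end

end Pool.Agent.W506
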