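import Pool.Agent.W506.S10

/-!
Morphisms with the properties of the projection of a product with the projective line.
-/

universe u v

open CategoryTheory Limits Opposite TopologicalSpace AlgebraicGeometry

namespace Pool.Agent.W506

set_option backward.isDefEq.respectTransparency false

variable {X Y : Scheme.{u}}

/-- first chart over `V` -/
abbrev chart (π : Y ⟶ X) (U : Y.Opens) (V : X.Opens) : Y.Opens := π ⁻¹ᵁ V ⊓ U

/-- two charts with a coordinate on the first one -/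
structure TwData (π : Y ⟶ X) (U₀ U₁ : Y.Opens) (t : Γ(Y, U₀)) : Prop extends
    Cover2 π U₀ U₁ where
  unit : IsUnit (ro (inf_le_left : U₀ ⊓ U₁ ≤ U₀) t)
  surj : ∀ V : X.Opens, IsAffineOpen V → ∀ c : Γ(Y, chart π U₀ V ⊓ chart π U₁ V),
    ∃ (a : Γ(Y, chart π U₀ V)) (b : Γ(Y, chart π U₁ V)),
      c = ro (inf_le_left.trans inf_le_right) t * ro inf_le_left a + ro inf_le_right b
  inj : ∀ V : X.Opens, IsAffineOpen V → ∀ (a : Γ(Y, chart π U₀ V)) (b : Γ(Y, chart π U₁ V)),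
    ro (inf_le_left.trans inf_le_right : chart π U₀ V ⊓ chart π U₁ V ≤ U₀) t * ro inf_le_left a +
      ro inf_le_right b = 0 → a = 0 ∧ b = 0

/-- free over the base -/
def PiFree (π : Y ⟶ X) (N : Y.Modules) : Prop :=
  ∀ x : X, ∃ (V₀ : X.Opens) (_ : x ∈ V₀) (n : ℕ) (e : Fin n → Γ(N, π ⁻¹ᵁ V₀)), IsBasisOn e

lemma piFree_pullback (π : Y ⟶ X) {F : X.Modules} (hF : IsVB F) :
    PiFree π ((Scheme.Modules.pullback π).obj F) := by
  intro x
  obtain ⟨U, hx, n, e, he⟩ := hF x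
  exact ⟨U, hx, n, _, isBasisOn_pullback π he⟩

variable {π : Y ⟶ X} {U₀ U₁ : Y.Opens} {t : Γ(Y, U₀)}

lemma SumOf.symm {N : X.Modules} {U V : X.Opens} (h : SumOf N U V) : SumOf N V U := by
  intro n
  obtain ⟨a, b, hab⟩ := h (rs N (le_of_eq (inf_comm U V)) n)
  refine ⟨b, a, ?_⟩
  have h1 := congrArg (rs N (le_of_eq (inf_comm V U))) hab
  rw [rs_rs, rs_refl, map_add, rs_rs, rs_rs] at h1
  rw [h1, add_comm]

lemma PiAcyc.symm {N : Y.Modules} (h : PiAcyc π U₀ U₁ N) : PiAcyc π U₁ U₀ N := by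
  intro x
  obtain ⟨V₀, hx, h0, h1, hs⟩ := h x
  exact ⟨V₀, hx, h1, h0, fun V hV hle => (hs V hV hle).symm⟩

lemma comb_addc {N : X.Modules} {U : X.Opens} {n : ℕ} (e : Fin n → Γ(N, U)) {V : X.Opens}
    (h : V ≤ U) (a b : Fin n → Γ(X, V)) :
    comb e h (fun i => a i + b i) = comb e h a + comb e h b := comb_add e h a b

lemma piAcyc_of_piFree (h : TwData π U₀ U₁ t) {N : Y.Modules} (hN : PiFree π N) :
    PiAcyc π U₀ U₁ N := by
  intro x
  obtain ⟨V₀, hx, n, e, he⟩ := hN x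
  refine ⟨V₀, hx, (he.qcOn.mono inf_le_left).sumOn, (he.qcOn.mono inf_le_left).sumOn, ?_⟩
  intro V hV hle s
  have hleV : π ⁻¹ᵁ V ≤ π ⁻¹ᵁ V₀ := preimage_mono π hle
  obtain ⟨c, rfl⟩ := (he _ ((inf_le_left.trans inf_le_left).trans hleV)).2 s
  choose a b hab using fun i => h.surj V hV (c i)
  refine ⟨comb e (inf_le_left.trans hleV) (fun i => ro inf_le_right t * a i),
    comb e (inf_le_left.trans hleV) b, ?_⟩
  rw [rs_comb, rs_comb, ← comb_addc]
  congr 1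
  funext i
  rw [hab i, map_mul, ro_ro]

lemma qcOn_tw_left {N : Y.Modules} {W : Y.Opens} (hW : W ≤ U₀) (hN : QCOn N W) :
    QCOn (Tw U₀ t N) W :=
  (hN.map ((isoOn_jjU U₀ N).mono hW)).comap ((isoOn_twSnd U₀ t N).mono hW)

lemma qcOn_tw_right (ht : IsUnit (ro (inf_le_left : U₀ ⊓ U₁ ≤ U₀) t)) {N : Y.Modules}
    {W : Y.Opens} (hW : W ≤ U₁) (hN : QCOn N W) : QCOn (Tw U₀ t N) W :=
  hN.comap ((isoOn_twFst U₀ U₁ t N ht).mono hW)

lemma piAcyc_tw (h : TwData π U₀ U₁ t) {N : Y.Modules} (hN : PiFree π N) :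
    PiAcyc π U₀ U₁ (Tw U₀ t N) := by
  intro x
  obtain ⟨V₀, hx, n, e, he⟩ := hN x
  refine ⟨V₀, hx, (qcOn_tw_left inf_le_right (he.qcOn.mono inf_le_left)).sumOn,
    (qcOn_tw_right h.unit inf_le_right (he.qcOn.mono inf_le_left)).sumOn, ?_⟩
  intro V hV hle s
  have hleV : π ⁻¹ᵁ V ≤ π ⁻¹ᵁ V₀ := preimage_mono π hle
  obtain ⟨c, hc⟩ := (he _ ((inf_le_left.trans inf_le_left).trans hleV)).2
    (ap (twFst U₀ t N) (chart π U₀ V ⊓ chart π U₁ V) s)
  choose a b hab using fun i => h.surj V hV (c i)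
  obtain ⟨s₀, hs₀⟩ := (isoOn_twSnd U₀ t N (chart π U₀ V) inf_le_right).2
    (ap (jjU U₀ N) _ (comb e (inf_le_left.trans hleV) a))
  obtain ⟨s₁, hs₁⟩ := (isoOn_twFst U₀ U₁ t N h.unit (chart π U₁ V) inf_le_right).2
    (comb e (inf_le_left.trans hleV) b)
  refine ⟨s₀, s₁, ?_⟩
  apply (isoOn_twFst U₀ U₁ t N h.unit _ (inf_le_right.trans inf_le_right)).1
  rw [map_add, ap_rs, ap_rs, hs₁]
  have h0 : ap (twFst U₀ t N) (chart π U₀ V) s₀ =
      comb e (inf_le_left.trans hleV) (fun i => ro inf_le_right t * a i) := by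
    apply (rs_bijective (N := N) (inf_le_left : chart π U₀ V ⊓ U₀ ≤ _)
      (le_inf le_rfl inf_le_right)).1
    rw [tw_cond, hs₀, jjE_jjU, rs_comb, rs_comb, ← comb_smul]
    congr 1
    funext i
    rw [map_mul, ro_ro]
  rw [h0, ← hc, rs_comb, rs_comb, ← comb_addc]
  congr 1
  funext i
  rw [hab i, map_mul, ro_ro]

lemma isZero_pushforward_tw (h : TwData π U₀ U₁ t) {N : Y.Modules} (hN : PiFree π N) :
    IsZero ((Scheme.Modules.pushforward π).obj (Tw U₀ t N)) := by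
  apply isZero_of_local
  intro V' x hx'
  obtain ⟨V₀, hx, n, e, he⟩ := hN x
  obtain ⟨V, hV, hxV, hle⟩ := exists_affine_le (V := V' ⊓ V₀) ⟨hx', hx⟩
  refine ⟨V, hle.trans inf_le_left, hxV, ?_⟩
  have hleV : π ⁻¹ᵁ V ≤ π ⁻¹ᵁ V₀ := preimage_mono π (hle.trans inf_le_right)
  suffices H : ∀ s : Γ(Tw U₀ t N, π ⁻¹ᵁ V), s = 0 from
    ⟨fun a b => (H a).trans (H b).symm⟩
  intro s
  obtain ⟨α, hα⟩ := (he _ hleV).2 (ap (twFst U₀ t N) (π ⁻¹ᵁ V) s)
  obtain ⟨β, hβ⟩ := (he _ (inf_le_left.trans hleV)).2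
    (jjE U₀ N (π ⁻¹ᵁ V) (ap (twSnd U₀ t N) (π ⁻¹ᵁ V) s))
  have h1 := tw_cond U₀ t N s
  rw [← hα, ← hβ, rs_comb, ← comb_smul] at h1
  have h2 := (he _ _).1 h1
  have h3 : ∀ i, ro (inf_le_left : π ⁻¹ᵁ V ⊓ U₀ ≤ _) (α i) =
      ro (inf_le_right : π ⁻¹ᵁ V ⊓ U₀ ≤ U₀) t * β i := fun i => congrFun h2 i
  have h4 : ∀ i, β i = 0 ∧ - ro (inf_le_left : chart π U₁ V ≤ π ⁻¹ᵁ V) (α i) = 0 := by
    intro i
    apply h.inj V hV
    have h5 := congrArg (ro (inf_le_left : chart π U₀ V ⊓ chart π U₁ V ≤ _)) (h3 i)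
    rw [ro_ro, map_mul, ro_ro] at h5
    rw [← h5, map_neg, ro_ro]
    exact add_neg_cancel _
  have h5 : ∀ i, α i = 0 := by
    intro i
    apply ext_ro_of_mem
    intro y hy
    have hyc : y ∈ U₀ ⊔ U₁ := by rw [h.cover]; trivial
    rcases hyc with hy0 | hy1
    · refine ⟨chart π U₀ V, inf_le_left, ⟨hy, hy0⟩, ?_⟩
      rw [h3 i, (h4 i).1, mul_zero, map_zero]
    · refine ⟨chart π U₁ V, inf_le_left, ⟨hy, hy1⟩, ?_⟩
      rw [map_zero]
      exact neg_eq_zero.1 (h4 i).2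
  apply tw_ext
  · rw [← hα, map_zero, show α = 0 from funext h5, comb_zero]
  · rw [← hβ, map_zero, map_zero, show β = 0 from funext (fun i => (h4 i).1), comb_zero]

/-- the data of a projection with two coordinates -/
structure P1Data (π : Y ⟶ X) where
  /-- first chart -/
  U₀ : Y.Opens
  /-- second chart -/
  U₁ : Y.Opens
  /-- first coordinate -/
  t : Γ(Y, U₀)
  /-- second coordinate -/
  s : Γ(Y, U₁)
  tw₀ : TwData π U₀ U₁ t
  tw₁ : TwData π U₁ U₀ s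
  glob : ∀ V : X.Opens, IsAffineOpen V → Function.Bijective (π.app V)

/-- the vector bundle without cohomology covering `N` -/
noncomputable abbrev P1Data.cov (D : P1Data π) (N : Y.Modules) : Y.Modules :=
  Tw D.U₀ D.t N ⊞ Tw D.U₁ D.s N

/-- the covering map -/
noncomputable def P1Data.covMap (D : P1Data π) (N : Y.Modules) : D.cov N ⟶ N :=
  biprod.desc (twFst _ _ _) (twFst _ _ _)

instance (D : P1Data π) (N : Y.Modules) : Epi (D.covMap N) := by
  apply epi_of_locally_surj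
  intro V s x hx
  have hxc : x ∈ D.U₀ ⊔ D.U₁ := by rw [D.tw₀.cover]; trivial
  rcases hxc with hx0 | hx1
  · obtain ⟨p, hp⟩ := (isoOn_twFst D.U₁ D.U₀ D.s N D.tw₁.unit (V ⊓ D.U₀) inf_le_right).2
      (rs N inf_le_left s)
    refine ⟨V ⊓ D.U₀, inf_le_left, ⟨hx, hx0⟩,
      ap (biprod.inr : _ ⟶ Tw D.U₀ D.t N ⊞ Tw D.U₁ D.s N) _ p, ?_⟩
    rw [← ap_comp, P1Data.covMap, biprod.inr_desc, hp]
  · obtain ⟨p, hp⟩ := (isoOn_twFst D.U₀ D.U₁ D.t N D.tw₀.unit (V ⊓ D.U₁) inf_le_right).2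
      (rs N inf_le_left s)
    refine ⟨V ⊓ D.U₁, inf_le_left, ⟨hx, hx1⟩,
      ap (biprod.inl : _ ⟶ Tw D.U₀ D.t N ⊞ Tw D.U₁ D.s N) _ p, ?_⟩
    rw [← ap_comp, P1Data.covMap, biprod.inl_desc, hp]

lemma P1Data.isVB_cov (D : P1Data π) {N : Y.Modules} (hN : IsVB N) : IsVB (D.cov N) :=
  (isVB_tw D.U₀ D.U₁ D.tw₀.cover D.t N D.tw₀.unit hN).biprod
    (isVB_tw D.U₁ D.U₀ D.tw₁.cover D.s N D.tw₁.unit hN)

lemma P1Data.piAcyc_cov (D : P1Data π) {N : Y.Modules} (hN : PiFree π N) :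
    PiAcyc π D.U₀ D.U₁ (D.cov N) :=
  (adapted_piAcyc D.tw₀.toCover2).sum _ _ (piAcyc_tw D.tw₀ hN) (piAcyc_tw D.tw₁ hN).symm

lemma P1Data.isZero_pushforward_cov (D : P1Data π) {N : Y.Modules} (hN : PiFree π N) :
    IsZero ((Scheme.Modules.pushforward π).obj (D.cov N)) := by
  have h0 := isZero_pushforward_tw D.tw₀ hN
  have h1 := isZero_pushforward_tw D.tw₁ hN
  have h2 : (Scheme.Modules.pushforward π).map (biprod.fst : D.cov N ⟶ _) = 0 := h0.eq_of_tgt _ _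
  have h3 : (Scheme.Modules.pushforward π).map (biprod.snd : D.cov N ⟶ _) = 0 := h1.eq_of_tgt _ _
  have h4 := congrArg (Scheme.Modules.pushforward π).map
    (biprod.total (X := Tw D.U₀ D.t N) (Y := Tw D.U₁ D.s N))
  rw [Functor.map_add, Functor.map_comp, Functor.map_comp, h2, h3, zero_comp, zero_comp,
    add_zero, CategoryTheory.Functor.map_id] at h4
  rw [IsZero.iff_id_eq_zero]
  exact h4.symm

lemma ap_unit_bijective (D : P1Data π) {F : X.Modules} (hF : IsVB F) (V : X.Opens) :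
    Function.Bijective
      (ap ((Scheme.Modules.pullbackPushforwardAdjunction π).unit.app F) V) := by
  apply bijective_of_local
  intro V' x hx
  obtain ⟨U, hxU, n, e, he⟩ := hF x
  obtain ⟨W, hW, hxW, hle⟩ := exists_affine_le (V := V' ⊓ U) ⟨hx, hxU⟩
  refine ⟨W, hle.trans inf_le_left, hxW, ?_⟩
  have hleU : W ≤ U := hle.trans inf_le_right
  have he' := isBasisOn_pullback π he
  have key : ∀ a : Fin n → Γ(X, W),
      ap ((Scheme.Modules.pullbackPushforwardAdjunction π).unit.app F) W (comb e hleU a) =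
      comb (fun i => pbs π (e i)) (preimage_mono π hleU) (fun i => π.app W (a i)) := by
    intro a
    rw [ap_comb]
    rfl
  have hb := D.glob W hW
  constructor
  · intro m m' hm
    obtain ⟨a, rfl⟩ := (he W hleU).2 m
    obtain ⟨a', rfl⟩ := (he W hleU).2 m'
    rw [key, key] at hm
    have h1 := (he' _ _).1 hm
    congr 1
    funext i
    exact hb.1 (congrFun h1 i)
  · intro s
    obtain ⟨b, hb'⟩ := (he' _ (preimage_mono π hleU)).2 s
    choose a ha using fun i => hb.2 (b i)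
    refine ⟨comb e hleU a, ?_⟩
    rw [key, show (fun i => π.app W (a i)) = b from funext ha]
    exact hb'

lemma isIso_unit (D : P1Data π) {F : X.Modules} (hF : IsVB F) :
    IsIso ((Scheme.Modules.pullbackPushforwardAdjunction π).unit.app F) :=
  isIso_of_ap_bijective _ (ap_unit_bijective D hF)

end Pool.Agent.W506
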