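import Pool.Agent.W506.D5
import Pool.Agent.W506.S11

/-!
One step: a complex of vector bundles is the direct image of a shorter one.
-/

universe u v v' u'

open CategoryTheory Limits Pretriangulated ZeroObject AlgebraicGeometry

namespace Pool.Agent.W506

set_option linter.unusedSectionVars false
set_option backward.isDefEq.respectTransparency false

open CochainComplex

section

variable {A : Type u} [Category.{v} A] [Abelian A] [HasDerivedCategory A]

/-- the object of the bounded below derived category given by a complex -/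
noncomputable abbrev QP (K : CochainComplex A ℤ) (h : CochainComplex.plus A K) :
    DerivedCategory.Plus A := DerivedCategory.Plus.Q.obj ⟨K, h⟩

lemma qp_iso_of_quasiIso {K L : CochainComplex A ℤ} (hK : CochainComplex.plus A K)
    (hL : CochainComplex.plus A L) (f : K ⟶ L) (hf : QuasiIso f) :
    Nonempty (QP K hK ≅ QP L hL) := by
  let g : (⟨K, hK⟩ : CochainComplex.Plus A) ⟶ ⟨L, hL⟩ := ObjectProperty.homMk f
  have h1 : IsIso (DerivedCategory.Plus.Q.map g) := by
    have h5 : IsIso (DerivedCategory.Plus.Qh.map ((HomotopyCategory.Plus.quotient A).map g)) := by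
      refine Localization.inverts DerivedCategory.Plus.Qh (HomotopyCategory.Plus.quasiIso A) _ ?_
      rw [HomotopyCategory.Plus.quasiIso_iff]
      exact (HomotopyCategory.quotient_map_mem_quasiIso_iff _).2 hf
    exact h5
  exact ⟨@asIso _ _ _ _ _ h1⟩

lemma qp_iso_of_iso {K L : CochainComplex A ℤ} (hK : CochainComplex.plus A K)
    (hL : CochainComplex.plus A L) (f : K ≅ L) :
    Nonempty (QP K hK ≅ QP L hL) :=
  qp_iso_of_quasiIso hK hL f.hom inferInstance

end

variable {X Y : Scheme.{u}} {π : Y ⟶ X}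

/-- the unit on complexes -/
noncomputable def unitComplex (π : Y ⟶ X) (F : CochainComplex X.Modules ℤ) :
    F ⟶ ((Scheme.Modules.pushforward π).mapHomologicalComplex _).obj
      (((Scheme.Modules.pullback π).mapHomologicalComplex _).obj F) where
  f i := (Scheme.Modules.pullbackPushforwardAdjunction π).unit.app (F.X i)
  comm' i j _ := ((Scheme.Modules.pullbackPushforwardAdjunction π).unit.naturality (F.d i j)).symm

lemma isIso_unitComplex (D : P1Data π) (F : CochainComplex X.Modules ℤ)
    (hF : ∀ i, IsVB (F.X i)) : IsIso (unitComplex π F) := by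
  have : ∀ i, IsIso ((unitComplex π F).f i) := fun i => isIso_unit D (hF i)
  exact HomologicalComplex.Hom.isIso_of_components _

lemma isIso_map_inr {A : Type u'} [Category.{v'} A] [Abelian A] {B : Type u} [Category.{v} B]
    [Abelian B] (G : A ⥤ B) [G.Additive] {K L : CochainComplex A ℤ} (φ : K ⟶ L)
    (hK : ∀ i, IsZero (G.obj (K.X i))) :
    IsIso ((G.mapHomologicalComplex _).map (mappingCone.inr φ)) := by
  have : ∀ i, IsIso (((G.mapHomologicalComplex (ComplexShape.up ℤ)).map
      (mappingCone.inr φ)).f i) := by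
    intro i
    change IsIso (G.map ((mappingCone.inr φ).f i))
    refine ⟨G.map ((mappingCone.snd φ).v i i (add_zero i)), ?_, ?_⟩
    · rw [← G.map_comp, mappingCone.inr_f_snd_v, G.map_id]
    · have h1 := mappingCone.id_X φ i (i + 1) rfl
      have h2 := congrArg G.map h1
      rw [G.map_add, G.map_comp, G.map_comp, G.map_id] at h2
      have h5 : ∀ x : G.obj ((mappingCone φ).X i) ⟶ G.obj (K.X (i + 1)), x = 0 :=
        fun x => (hK (i + 1)).eq_of_tgt _ _
      refine Eq.trans (Eq.symm ?_) h2
      refine Eq.trans (congrArg₂ (· + ·) (Eq.trans (congrArg (· ≫ _) (h5 _)) zero_comp) rfl)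
        (zero_add _)
  exact HomologicalComplex.Hom.isIso_of_components _

theorem step [HasDerivedCategory X.Modules] [HasDerivedCategory Y.Modules] (D : P1Data π)
    (F : CochainComplex X.Modules ℤ) (a r : ℤ) (har : a < r) [F.IsStrictlyGE a]
    [F.IsStrictlyLE r] (hF : ∀ i, IsVB (F.X i)) :
    ∃ (G : CochainComplex Y.Modules ℤ) (hG : G.IsStrictlyGE a) (_ : G.IsStrictlyLE (r - 1)),
      (∀ i, IsVB (G.X i)) ∧ Nonempty ((Scheme.Modules.pushforward π).rightDerivedFunctorPlus.obj
        (QP G ⟨a, hG⟩) ≅ QP F ⟨a, inferInstance⟩) := by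
  let M : CochainComplex Y.Modules ℤ :=
    ((Scheme.Modules.pullback π).mapHomologicalComplex _).obj F
  have hMa : M.IsStrictlyGE a := by
    rw [isStrictlyGE_iff]
    intro i hi
    exact (Scheme.Modules.pullback π).map_isZero (F.isZero_of_isStrictlyGE a i hi)
  have hMr : M.IsStrictlyLE r := by
    rw [isStrictlyLE_iff]
    intro i hi
    exact (Scheme.Modules.pullback π).map_isZero (F.isZero_of_isStrictlyLE r i hi)
  have hMVB : ∀ i, IsVB (M.X i) := fun i => (hF i).pullback π
  have hMfree : ∀ i, PiFree π (M.X i) := fun i => piFree_pullback π (hF i)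
  have hε : D.covMap (M.X r) ≫ M.d r (r + 1) = 0 :=
    (M.isZero_of_isStrictlyLE r (r + 1) (by omega)).eq_of_tgt _ _
  let S := (HomologicalComplex.single Y.Modules (ComplexShape.up ℤ) r).obj (D.cov (M.X r))
  let φ : S ⟶ M := fromTop M r (D.cov (M.X r)) (D.covMap (M.X r)) hε
  let C := coneTop M r (D.cov (M.X r)) (D.covMap (M.X r)) hε
  have hCa : C.IsStrictlyGE a := isStrictlyGE_coneTop M r _ _ hε a har
  have hCr : C.IsStrictlyLE r := isStrictlyLE_coneTop M r _ _ hε
  have hCLE : C.IsLE (r - 1) := isLE_coneTop M r _ _ hε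
  have hadap := adapted_piAcyc D.tw₀.toCover2
  -- terms of `S`
  have hS : ∀ i, IsZero (S.X i) ∨ Nonempty (S.X i ≅ D.cov (M.X r)) := by
    intro i
    by_cases hi : i = r
    · subst hi
      exact Or.inr ⟨HomologicalComplex.singleObjXSelf _ _ _⟩
    · exact Or.inl (HomologicalComplex.isZero_single_obj_X _ _ _ _ hi)
  have hSVB : ∀ i, IsVB (S.X i) := by
    intro i
    rcases hS i with h | ⟨⟨e⟩⟩
    · exact isVB_of_isZero h
    · exact (D.isVB_cov (hMVB r)).of_iso e.symm
  have hSac : ∀ i, PiAcyc π D.U₀ D.U₁ (S.X i) := by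
    intro i
    rcases hS i with h | ⟨⟨e⟩⟩
    · exact hadap.zero h
    · exact hadap.iso e.symm (D.piAcyc_cov (hMfree r))
  have hSz : ∀ i, IsZero ((Scheme.Modules.pushforward π).obj (S.X i)) := by
    intro i
    rcases hS i with h | ⟨⟨e⟩⟩
    · exact (Scheme.Modules.pushforward π).map_isZero h
    · exact (D.isZero_pushforward_cov (hMfree r)).of_iso
        ((Scheme.Modules.pushforward π).mapIso e)
  have hCVB : ∀ i, IsVB (C.X i) := fun i =>
    ((hSVB (i + 1)).biprod (hMVB i)).of_iso (coneXIso φ i).symm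
  have hCac : ∀ i, PiAcyc π D.U₀ D.U₁ (C.X i) := fun i =>
    hadap.iso (coneXIso φ i).symm (hadap.sum _ _ (hSac (i + 1)) (piAcyc_of_piFree D.tw₀ (hMfree i)))
  let G : CochainComplex Y.Modules ℤ := C.truncLE (r - 1)
  have hGa : G.IsStrictlyGE a := inferInstance
  have hGr : G.IsStrictlyLE (r - 1) := inferInstance
  have hGVB : ∀ i, IsVB (G.X i) := by
    intro i
    rcases lt_trichotomy i (r - 1) with h | h | h
    · exact (hCVB i).of_iso (C.truncLEXIso (r - 1) i h).symm
    · subst h
      have h1 : IsVB (C.cycles (r - 1)) := by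
        have h2 : C.ExactAt r := exactAt_coneTop M r _ _ hε
        have h3 := cyclesSC_shortExact C (r - 1) r (by ring) h2
        refine isVB_kernel _ h3 (hCVB _) ?_
        have h4 : IsIso (C.iCycles r) :=
          C.isIso_iCycles r (r + 1) (by simp) ((C.isZero_of_isStrictlyLE r (r + 1)
            (by omega)).eq_of_tgt _ _)
        exact (hCVB r).of_iso (@asIso _ _ _ _ _ h4).symm
      exact h1.of_iso (C.truncLEXIsoCycles (r - 1)).symm
    · exact isVB_of_isZero (G.isZero_of_isStrictlyLE (r - 1) i h)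
  refine ⟨G, hGa, hGr, hGVB, ?_⟩
  -- the comparison
  obtain ⟨e1⟩ := qp_iso_of_quasiIso ⟨a, hGa⟩ ⟨a, hCa⟩ (C.ιTruncLE (r - 1)) inferInstance
  have e2 := rightDerivedIso hadap ⟨C, ⟨a, hCa⟩⟩ hCac
  have hpM : CochainComplex.plus X.Modules
      (((Scheme.Modules.pushforward π).mapHomologicalComplex _).obj M) :=
    ((Scheme.Modules.pushforward π).mapCochainComplexPlus.obj ⟨M, ⟨a, hMa⟩⟩).property
  have h3 := isIso_map_inr (Scheme.Modules.pushforward π) φ hSz
  obtain ⟨e3⟩ := qp_iso_of_iso hpM
    ((Scheme.Modules.pushforward π).mapCochainComplexPlus.obj ⟨C, ⟨a, hCa⟩⟩).property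
    (@asIso _ _ _ _ _ h3)
  have h4 := isIso_unitComplex D F hF
  obtain ⟨e4⟩ := qp_iso_of_iso ⟨a, inferInstance⟩ hpM (@asIso _ _ _ _ _ h4)
  exact ⟨(Scheme.Modules.pushforward π).rightDerivedFunctorPlus.mapIso e1 ≪≫ e2 ≪≫ e3.symm ≪≫
    e4.symm⟩

end Pool.Agent.W506
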