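import Pool.Agent.W506.A

/-!
Definitions used in the statement of the theorem on direct images of vector bundles:
projective space over a field, products with projective spaces, coherent modules, vector bundles,
and the property of being the derived direct image of a shifted vector bundle.
-/

universe u

open CategoryTheory Limits TopologicalSpace AlgebraicGeometry

namespace Pool.Agent.W506

set_option backward.isDefEq.respectTransparency false
set_option linter.unusedVariables false

attribute [local instance] MvPolynomial.gradedAlgebra

section

variable (K : Type u) [Field K] (n : ℕ)

/-- The grading by degree of the polynomial ring in `n + 1` variables over `K`. -/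
abbrev gr : ℕ → Submodule K (MvPolynomial (Fin (n + 1)) K) :=
  MvPolynomial.homogeneousSubmodule (Fin (n + 1)) K

/-- Projective space of dimension `n` over the field `K`. -/
noncomputable abbrev PP : Scheme.{u} := Proj (gr K n)

/-- The ring of forms of degree `0` in `n + 1` variables over `K`. -/
noncomputable abbrev gr0 : CommRingCat.{u} := .of (gr K n 0)

/-- The inclusion of the constants in the forms of degree `0`. -/
noncomputable def grHom : K →+* gr0 K n := algebraMap K (gr K n 0)

/-- The structure morphism of projective space to the spectrum of the ring of forms of
degree `0`. -/
noncomputable def toGr0 : PP K n ⟶ Spec (gr0 K n) := Proj.toSpecZero (gr K n)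

/-- The structure morphism of projective space of dimension `n` over `K`. -/
noncomputable def toK : PP K n ⟶ Spec (.of K) :=
  toGr0 K n ≫ Spec.map (CommRingCat.ofHom (grHom K n))

lemma toK_eq : toK K n = Proj.toSpecZero (gr K n) ≫
    Spec.map (CommRingCat.ofHom (algebraMap K (gr K n 0))) := rfl

end

section

variable (K : Type u) [Field K]

/-- For a list `l` with entries `n₁, ..., n_t` and a scheme `X` over `K`, the product over `K` of
`X` with the projective spaces of dimensions `n₁, ..., n_t`, as an iterated fibre product over
`Spec K`. -/
noncomputable def tower : (l : List ℕ) → (X : Scheme.{u}) → (X ⟶ Spec (.of K)) → Scheme.{u}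
  | [], X, _ => X
  | n :: l, X, f => tower l (pullback f (toK K n)) (pullback.fst f (toK K n) ≫ f)

/-- The projection of the product `tower K l X f` to its first factor `X`. -/
noncomputable def towerProj : (l : List ℕ) → (X : Scheme.{u}) → (f : X ⟶ Spec (.of K)) →
    (tower K l X f ⟶ X)
  | [], X, _ => 𝟙 X
  | n :: l, X, f => towerProj l (pullback f (toK K n)) (pullback.fst f (toK K n) ≫ f) ≫
      pullback.fst f (toK K n)

end

/-- Coherent modules on a noetherian scheme: quasi-coherent modules whose sections over each
affine open subset `U` form a finitely generated module over the functions on `U`. -/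
def IsCoh {X : Scheme.{u}} (M : X.Modules) : Prop :=
  M.IsQuasicoherent ∧ ∀ U : X.Opens, IsAffineOpen U → Module.Finite Γ(X, U) Γ(M, U)

/-- Vector bundles: each point has an open neighbourhood `U` such that the restriction to `U` is
isomorphic to the free module of rank `r` for some natural number `r`. -/
def IsVectorBundle {X : Scheme.{u}} (E : X.Modules) : Prop :=
  ∀ x : X, ∃ (U : X.Opens) (_ : x ∈ U) (r : ℕ), Nonempty (E.restrict U.ι ≅
    SheafOfModules.free (R := U.toScheme.ringCatSheaf) (ULift.{u} (Fin r)))

attribute [local instance] HasDerivedCategory.standard

/-- The derived direct image of a module, an object of the bounded below derived category: the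
value of the right derived functor of the direct image functor at the module, seen as a complex
in degree `0`. -/
noncomputable def derivedImage {X Y : Scheme.{u}} (π : Y ⟶ X) (E : Y.Modules) :
    DerivedCategory.Plus X.Modules :=
  (Scheme.Modules.pushforward π).rightDerivedFunctorPlus.obj
    ((DerivedCategory.Plus.singleFunctor Y.Modules 0).obj E)

/-- For a list `l` with entries `n₁, ..., n_t`: there are a vector bundle `E` on
`P^m × P^{n₁} × ... × P^{n_t}` and an integer `s` such that `(R π_* E)[s]` is isomorphic to `C` in
the derived category of modules on `P^m`, where `π` is the projection to `P^m`. -/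
def IsPushforwardOver (K : Type u) [Field K] (m : ℕ) (l : List ℕ)
    (C : CochainComplex (PP K m).Modules ℤ) : Prop :=
  ∃ (E : (tower K l (PP K m) (toK K m)).Modules) (s : ℤ), IsVectorBundle E ∧
    Nonempty ((DerivedCategory.Plus.ι.obj
      (derivedImage (towerProj K l (PP K m) (toK K m)) E))⟦s⟧ ≅ DerivedCategory.Q.obj C)

end Pool.Agent.W506
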