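import Pool.Agent.W506.D5

/-!
Resolutions of complexes by complexes with terms in a given class, in the homotopy category.
-/

universe v u

open CategoryTheory Limits Pretriangulated ZeroObject

namespace Pool.Agent.W506

set_option linter.unusedSectionVars false
set_option backward.isDefEq.respectTransparency false

variable {A : Type u} [Category.{v} A] [Abelian A] [HasDerivedCategory A]

open CochainComplex

/-- `D` is quasi-isomorphic, in the homotopy category, to a bounded complex with terms in `P` -/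
def Res (P : ObjectProperty A) (D : CochainComplex A ℤ) : Prop :=
  ∃ (G : CochainComplex A ℤ) (a b : ℤ) (_ : G.IsStrictlyGE a) (_ : G.IsStrictlyLE b),
    (∀ i, P (G.X i)) ∧ ∃ f : (HomotopyCategory.quotient A (ComplexShape.up ℤ)).obj G ⟶
      (HomotopyCategory.quotient A (ComplexShape.up ℤ)).obj D, IsIso (DerivedCategory.Qh.map f)

variable {P : ObjectProperty A}

lemma isIso_Qh_quotient_map {D D' : CochainComplex A ℤ} (φ : D' ⟶ D) (hφ : QuasiIso φ) :
    IsIso (DerivedCategory.Qh.map ((HomotopyCategory.quotient A (ComplexShape.up ℤ)).map φ)) := by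
  have h := (DerivedCategory.isIso_Q_map_iff_quasiIso A φ).2 hφ
  exact (NatIso.isIso_map_iff (DerivedCategory.quotientCompQhIso A) φ).2 h

lemma Res.of_quasiIso {D D' : CochainComplex A ℤ} (h : Res P D') (φ : D' ⟶ D)
    (hφ : QuasiIso φ) : Res P D := by
  obtain ⟨G, a, b, ha, hb, hG, f, hf⟩ := h
  refine ⟨G, a, b, ha, hb, hG, f ≫ (HomotopyCategory.quotient A (ComplexShape.up ℤ)).map φ, ?_⟩
  have := isIso_Qh_quotient_map φ hφ
  rw [Functor.map_comp]
  infer_instance

lemma Res.of_mem {D : CochainComplex A ℤ} (a b : ℤ) [ha : D.IsStrictlyGE a]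
    [hb : D.IsStrictlyLE b] (hD : ∀ i, P (D.X i)) : Res P D :=
  ⟨D, a, b, ha, hb, hD, 𝟙 _, inferInstance⟩

lemma distinguished_cocone {K L : CochainComplex A ℤ} (φ : K ⟶ L) :
    (HomotopyCategory.quotient A (ComplexShape.up ℤ)).mapTriangle.obj
      (mappingCocone.triangle φ) ∈ distTriang _ := by
  rw [rotate_distinguished_triangle]
  refine isomorphic_distinguished _ (HomotopyCategory.mappingCone_triangleh_distinguished φ) _
    ((HomotopyCategory.quotient A (ComplexShape.up ℤ)).mapTriangleRotateIso.app _ ≪≫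
    (HomotopyCategory.quotient A (ComplexShape.up ℤ)).mapTriangle.mapIso
      (mappingCocone.rotateTriangleIso φ))

lemma distinguished_rotate {K L : CochainComplex A ℤ} (φ : K ⟶ L) :
    (HomotopyCategory.quotient A (ComplexShape.up ℤ)).mapTriangle.obj
      (mappingCone.triangle φ).rotate ∈ distTriang _ := by
  have h := (rotate_distinguished_triangle _).1
    (HomotopyCategory.mappingCone_triangleh_distinguished φ)
  exact isomorphic_distinguished _ h _
    ((HomotopyCategory.quotient A (ComplexShape.up ℤ)).mapTriangleRotateIso.symm.app _)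

lemma Res.step (hiso : ∀ {X Y : A}, (X ≅ Y) → P X → P Y) (hsum : ∀ X Y, P X → P Y → P (X ⊞ Y))
    {S D : CochainComplex A ℤ} (s : S ⟶ D) (a b : ℤ) [S.IsStrictlyGE a] [S.IsStrictlyLE b]
    (hS : ∀ i, P (S.X i)) (h : Res P (mappingCone s)) : Res P D := by
  obtain ⟨G, a', b', ha', hb', hG, g, hg⟩ := h
  let q := HomotopyCategory.quotient A (ComplexShape.up ℤ)
  obtain ⟨χ, hχ⟩ := q.map_surjective (g ≫ q.map (mappingCone.triangle s).mor₃)
  let T₁ := q.mapTriangle.obj (mappingCocone.triangle χ)
  let T₂ := q.mapTriangle.obj (mappingCone.triangle s).rotate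
  have hT₁ : T₁ ∈ distTriang _ := distinguished_cocone χ
  have hT₂ : T₂ ∈ distTriang _ := distinguished_rotate s
  have hcomm : T₁.mor₂ ≫ 𝟙 _ = g ≫ T₂.mor₂ := (Category.comp_id _).trans hχ
  obtain ⟨f, hf₁, hf₃⟩ := complete_distinguished_triangle_morphism₁ T₁ T₂ hT₁ hT₂ g (𝟙 _) hcomm
  let Φ : T₁ ⟶ T₂ :=
    { hom₁ := f
      hom₂ := g
      hom₃ := 𝟙 _
      comm₁ := hf₁
      comm₂ := hcomm
      comm₃ := hf₃ }
  have hf : IsIso (DerivedCategory.Qh.map f) :=
    isIso₁_of_isIso₂₃ (DerivedCategory.Qh.mapTriangle.map Φ)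
      (DerivedCategory.Qh.map_distinguished _ hT₁) (DerivedCategory.Qh.map_distinguished _ hT₂)
      hg (by
        change IsIso (DerivedCategory.Qh.map (𝟙 _))
        infer_instance)
  have hterms : ∀ i, (mappingCocone χ).X i ≅ G.X (i + -1 + 1) ⊞ (S⟦(1 : ℤ)⟧).X (i + -1) :=
    fun i => coneXIso χ (i + -1)
  refine ⟨mappingCocone χ, min a' a, max b' b, ?_, ?_, fun i => ?_, f, hf⟩
  · rw [isStrictlyGE_iff]
    intro i hi
    refine IsZero.of_iso ?_ (hterms i)
    have h1 : IsZero (G.X (i + -1 + 1)) := G.isZero_of_isStrictlyGE a' _ (by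
      have := lt_of_lt_of_le hi (min_le_left a' a)
      omega)
    have h2 : IsZero (S.X (i + -1 + 1)) := S.isZero_of_isStrictlyGE a _ (by
      have := lt_of_lt_of_le hi (min_le_right a' a)
      omega)
    exact (biprod_isZero_iff _ _).2 ⟨h1, h2⟩
  · rw [isStrictlyLE_iff]
    intro i hi
    refine IsZero.of_iso ?_ (hterms i)
    have h1 : IsZero (G.X (i + -1 + 1)) := G.isZero_of_isStrictlyLE b' _ (by
      have := lt_of_le_of_lt (le_max_left b' b) hi
      omega)
    have h2 : IsZero (S.X (i + -1 + 1)) := S.isZero_of_isStrictlyLE b _ (by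
      have := lt_of_le_of_lt (le_max_right b' b) hi
      omega)
    exact (biprod_isZero_iff _ _).2 ⟨h1, h2⟩
  · refine hiso (hterms i).symm (hsum _ _ (hG _) (hS _))

end Pool.Agent.W506
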