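import Pool.Agent.W506.E1

/-!
Existence of finite resolutions of bounded complexes.
-/

universe v u

open CategoryTheory Limits Pretriangulated ZeroObject

namespace Pool.Agent.W506

set_option linter.unusedSectionVars false
set_option backward.isDefEq.respectTransparency false

variable {A : Type u} [Category.{v} A] [Abelian A] [HasDerivedCategory A]

open CochainComplex

/-- hypotheses for the existence of finite resolutions: `V` is the class of vector bundles, `C`
the class of coherent objects, `F` the class of covering objects, `D j` the class of objects of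
dimension at most `j`. -/
structure ResData (V C F : ObjectProperty A) (D : ℕ → ObjectProperty A) (N : ℕ) : Prop where
  isoV : ∀ {X Y : A}, (X ≅ Y) → V X → V Y
  sumV : ∀ X Y, V X → V Y → V (X ⊞ Y)
  zeroV : ∀ X, IsZero X → V X
  isoC : ∀ {X Y : A}, (X ≅ Y) → C X → C Y
  sumC : ∀ X Y, C X → C Y → C (X ⊞ Y)
  zeroC : ∀ X, IsZero X → C X
  kerC : ∀ S : ShortComplex A, S.ShortExact → C S.X₂ → C S.X₃ → C S.X₁
  isoF : ∀ {X Y : A}, (X ≅ Y) → F X → F Y
  isoD : ∀ j, ∀ {X Y : A}, (X ≅ Y) → D j X → D j Y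
  FV : ∀ X, F X → V X
  FC : ∀ X, F X → C X
  cov : ∀ M, C M → ∃ (Q : A) (f : Q ⟶ M), F Q ∧ Epi f
  dimV : ∀ M, C M → D 0 M → V M
  dimK : ∀ j, ∀ S : ShortComplex A, S.ShortExact → F S.X₂ → C S.X₃ → D (j + 1) S.X₃ → D j S.X₁
  dimN : ∀ M, C M → D N M

variable {V C F : ObjectProperty A} {D : ℕ → ObjectProperty A} {N : ℕ}

/-- the basic step -/
lemma ResData.exists_step (R : ResData V C F D N) (K : CochainComplex A ℤ) (r : ℤ)
    [K.IsStrictlyLE r] (hC : ∀ i, C (K.X i)) :
    ∃ K' : CochainComplex A ℤ, K'.IsStrictlyLE (r - 1) ∧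
      (∀ a, a < r → K.IsStrictlyGE a → K'.IsStrictlyGE a) ∧
      (K.IsStrictlyGE r → K'.IsStrictlyGE (r - 1)) ∧ (∀ i, C (K'.X i)) ∧
      (∀ j, K.IsStrictlyGE r → D (j + 1) (K.X r) → D j (K'.X (r - 1))) ∧
      (Res V K' → Res V K) := by
  obtain ⟨Q, ε, hQ, hε'⟩ := R.cov (K.X r) (hC r)
  have hε : ε ≫ K.d r (r + 1) = 0 :=
    (K.isZero_of_isStrictlyLE r (r + 1) (by omega)).eq_of_tgt _ _
  let S := (HomologicalComplex.single A (ComplexShape.up ℤ) r).obj Q
  let s : S ⟶ K := fromTop K r Q ε hε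
  let E := coneTop K r Q ε hε
  have hEr : E.IsStrictlyLE r := isStrictlyLE_coneTop K r _ _ hε
  have hELE : E.IsLE (r - 1) := isLE_coneTop K r _ _ hε
  have hS : ∀ i, IsZero (S.X i) ∨ Nonempty (S.X i ≅ Q) := by
    intro i
    by_cases hi : i = r
    · subst hi
      exact Or.inr ⟨HomologicalComplex.singleObjXSelf _ _ _⟩
    · exact Or.inl (HomologicalComplex.isZero_single_obj_X _ _ _ _ hi)
  have hSV : ∀ i, V (S.X i) := by
    intro i
    rcases hS i with h | ⟨⟨e⟩⟩
    · exact R.zeroV _ h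
    · exact R.isoV e.symm (R.FV _ hQ)
  have hSC : ∀ i, C (S.X i) := by
    intro i
    rcases hS i with h | ⟨⟨e⟩⟩
    · exact R.zeroC _ h
    · exact R.isoC e.symm (R.FC _ hQ)
  have hEC : ∀ i, C (E.X i) := fun i => R.isoC (coneXIso s i).symm (R.sumC _ _ (hSC _) (hC _))
  have h2 : E.ExactAt r := exactAt_coneTop K r _ _ hε
  have h3 := cyclesSC_shortExact E (r - 1) r (by ring) h2
  have h4 : IsIso (E.iCycles r) :=
    E.isIso_iCycles r (r + 1) (by simp) ((E.isZero_of_isStrictlyLE r (r + 1)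
      (by omega)).eq_of_tgt _ _)
  have h5 : C (E.cycles r) := R.isoC (@asIso _ _ _ _ _ h4).symm (hEC r)
  let K' : CochainComplex A ℤ := E.truncLE (r - 1)
  have hK'r : K'.IsStrictlyLE (r - 1) := inferInstance
  refine ⟨K', hK'r, ?_, ?_, ?_, ?_, ?_⟩
  · intro a har ha
    have : E.IsStrictlyGE a := isStrictlyGE_coneTop K r _ _ hε a har
    infer_instance
  · intro ha
    have : E.IsStrictlyGE (r - 1) := isStrictlyGE_mappingCone s r r (r - 1)
    infer_instance
  · intro i
    rcases lt_trichotomy i (r - 1) with h | h | h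
    · exact R.isoC (E.truncLEXIso (r - 1) i h).symm (hEC i)
    · subst h
      exact R.isoC (E.truncLEXIsoCycles (r - 1)).symm (R.kerC _ h3 (hEC _) h5)
    · exact R.zeroC _ (K'.isZero_of_isStrictlyLE (r - 1) i h)
  · intro j ha hj
    have h6 : IsZero (K.X (r - 1)) := K.isZero_of_isStrictlyGE r _ (by omega)
    have e1 : E.X (r - 1) ≅ Q := by
      have e2 : E.X (r - 1) ≅ S.X (r - 1 + 1) ⊞ K.X (r - 1) := coneXIso s (r - 1)
      have e3 : S.X (r - 1 + 1) ≅ Q := by
        rw [sub_add_cancel]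
        exact HomologicalComplex.singleObjXSelf _ _ _
      exact e2 ≪≫ (isoBiprodZero h6).symm ≪≫ e3
    have h7 : IsZero (S.X (r + 1)) := HomologicalComplex.isZero_single_obj_X _ _ _ _ (by omega)
    have e4 : E.cycles r ≅ K.X r :=
      (@asIso _ _ _ _ _ h4) ≪≫ coneXIso s r ≪≫ (isoZeroBiprod h7).symm
    exact R.isoD j (E.truncLEXIsoCycles (r - 1)).symm
      (R.dimK j _ h3 (R.isoF e1.symm hQ) h5 (R.isoD _ e4.symm hj))
  · intro h
    have h8 : Res V E := h.of_quasiIso (E.ιTruncLE (r - 1)) inferInstance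
    exact Res.step R.isoV R.sumV s r r hSV h8

lemma ResData.single (R : ResData V C F D N) (j : ℕ) : ∀ (K : CochainComplex A ℤ) (r : ℤ),
    K.IsStrictlyGE r → K.IsStrictlyLE r → C (K.X r) → D j (K.X r) → Res V K := by
  induction j with
  | zero =>
    intro K r ha hb hC hD
    refine Res.of_mem r r (fun i => ?_)
    rcases lt_trichotomy i r with h | h | h
    · exact R.zeroV _ (K.isZero_of_isStrictlyGE r i h)
    · subst h
      exact R.dimV _ hC hD
    · exact R.zeroV _ (K.isZero_of_isStrictlyLE r i h)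
  | succ j ih =>
    intro K r ha hb hC hD
    obtain ⟨K', h1, -, h3, h4, h5, h6⟩ := R.exists_step K r (fun i => by
      rcases lt_trichotomy i r with h | h | h
      · exact R.zeroC _ (K.isZero_of_isStrictlyGE r i h)
      · subst h
        exact hC
      · exact R.zeroC _ (K.isZero_of_isStrictlyLE r i h))
    exact h6 (ih K' (r - 1) (h3 ha) h1 (h4 _) (h5 j ha hD))

lemma ResData.res (R : ResData V C F D N) (k : ℕ) : ∀ (K : CochainComplex A ℤ) (a : ℤ),
    K.IsStrictlyGE a → K.IsStrictlyLE (a + k) → (∀ i, C (K.X i)) → Res V K := by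
  induction k with
  | zero =>
    intro K a ha hb hC
    exact R.single N K a ha (by simpa using hb) (hC a) (R.dimN _ (hC a))
  | succ k ih =>
    intro K a ha hb hC
    obtain ⟨K', h1, h2, -, h4, -, h6⟩ := R.exists_step K (a + (k + 1 : ℕ)) hC
    refine h6 (ih K' a (h2 a (by push_cast; omega) ha) ?_ h4)
    have : a + ((k + 1 : ℕ) : ℤ) - 1 = a + k := by push_cast; ring
    rwa [this] at h1

end Pool.Agent.W506
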