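import Pool.Agent.W506.I1

/-!
Derived functors and shifts, on objects.
-/

universe v u v' u'

open CategoryTheory Limits Pretriangulated ZeroObject

namespace Pool.Agent.W506

set_option linter.unusedSectionVars false
set_option backward.isDefEq.respectTransparency false

variable {A : Type u} [Category.{v} A] [Abelian A] [HasDerivedCategory A]
variable {B : Type u'} [Category.{v'} B] [Abelian B] [HasDerivedCategory B]

lemma plus_shift {K : CochainComplex A ℤ} (h : CochainComplex.plus A K) (s : ℤ) :
    CochainComplex.plus A (K⟦s⟧) := by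
  obtain ⟨n, hn⟩ := h
  exact ⟨n - s, K.isStrictlyGE_shift n s (n - s) (by ring)⟩

/-- the image of a complex in the derived category -/
noncomputable def ιQP (K : CochainComplex A ℤ) (h : CochainComplex.plus A K) :
    DerivedCategory.Plus.ι.obj (QP K h) ≅ DerivedCategory.Q.obj K :=
  (DerivedCategory.quotientCompQhIso A).app K

/-- shifting a complex -/
noncomputable def qpShift (K : CochainComplex A ℤ) (h : CochainComplex.plus A K) (s : ℤ) :
    QP (K⟦s⟧) (plus_shift h s) ≅ (QP K h)⟦s⟧ :=
  DerivedCategory.Plus.ι.preimageIso (ιQP _ _ ≪≫ (DerivedCategory.Q.commShiftIso s).app K ≪≫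
    (shiftFunctor _ s).mapIso (ιQP K h).symm ≪≫
      ((DerivedCategory.Plus.ι.commShiftIso s).app (QP K h)).symm)

lemma adapted_injective (F : A ⥤ B) [F.Additive] :
    Adapted F (fun X : A => Injective X) where
  inj _ h := h
  coker S hS h1 h2 := by
    have : Injective S.X₁ := h1
    have : Injective S.X₂ := h2
    let σ := hS.splittingOfInjective
    constructor
    intro Y Z g f _
    refine ⟨Injective.factorThru (g ≫ σ.s) f ≫ S.g, ?_⟩
    rw [← Category.assoc, Injective.comp_factorThru, Category.assoc, σ.s_g, Category.comp_id]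
  epi S hS h1 := by
    have : Injective S.X₁ := h1
    let σ := hS.splittingOfInjective
    have : IsSplitEpi (F.map S.g) := IsSplitEpi.mk' ⟨F.map σ.s, by
      rw [← F.map_comp, σ.s_g, F.map_id]⟩
    infer_instance
  sum X Y hX hY := by
    have : Injective X := hX
    have : Injective Y := hY
    exact (inferInstance : Injective (X ⊞ Y))

variable [EnoughInjectives A]

lemma rightDerived_shift (F : A ⥤ B) [F.Additive] [PreservesFiniteLimits F]
    (X : DerivedCategory.Plus A) (s : ℤ) :
    Nonempty (F.rightDerivedFunctorPlus.obj (X⟦s⟧) ≅ (F.rightDerivedFunctorPlus.obj X)⟦s⟧) := by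
  obtain ⟨n, hn⟩ := X.property
  have : X.IsGE n := (DerivedCategory.Plus.isGE_ι_obj_iff X n).1 hn
  obtain ⟨L, _, ⟨f⟩⟩ := DerivedCategory.Plus.exists_injective_nonempty_iso X n
  let K := (InjectiveObject.ι A).mapCochainComplexPlus.obj L
  have hK : ∀ i, Injective (K.obj.X i) := fun i => (L.obj.X i).property
  have e1 : F.rightDerivedFunctorPlus.obj X ≅ QP (((F.mapHomologicalComplex _).obj K.obj))
      (F.mapCochainComplexPlus.obj K).property :=
    F.rightDerivedFunctorPlus.mapIso f.symm ≪≫ rightDerivedIso (adapted_injective F) K hK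
  have e2 : F.rightDerivedFunctorPlus.obj (QP (K.obj⟦s⟧) (plus_shift K.property s)) ≅
      QP ((F.mapHomologicalComplex _).obj (K.obj⟦s⟧))
        (F.mapCochainComplexPlus.obj ⟨K.obj⟦s⟧, plus_shift K.property s⟩).property :=
    rightDerivedIso (adapted_injective F) ⟨K.obj⟦s⟧, plus_shift K.property s⟩
      (fun i => hK (i + s))
  have e3 : X⟦s⟧ ≅ QP (K.obj⟦s⟧) (plus_shift K.property s) :=
    (shiftFunctor _ s).mapIso f.symm ≪≫ (qpShift K.obj K.property s).symm
  obtain ⟨e4⟩ := qp_iso_of_iso
    (F.mapCochainComplexPlus.obj ⟨K.obj⟦s⟧, plus_shift K.property s⟩).property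
    (plus_shift (F.mapCochainComplexPlus.obj K).property s)
    (((F.mapHomologicalComplex (ComplexShape.up ℤ)).commShiftIso s).app K.obj)
  exact ⟨F.rightDerivedFunctorPlus.mapIso e3 ≪≫ e2 ≪≫ e4 ≪≫
    qpShift _ (F.mapCochainComplexPlus.obj K).property s ≪≫ (shiftFunctor _ s).mapIso e1.symm⟩

end Pool.Agent.W506
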