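import Pool.Agent.W506.L4

/-!
Quasi-coherent modules: sections over affine opens.
-/

universe u

open CategoryTheory Limits TopologicalSpace AlgebraicGeometry Opposite

namespace Pool.Agent.W506

set_option backward.isDefEq.respectTransparency false

variable {X : Scheme.{u}}

lemma appIso_inv_res {W : X.Opens} (hW : IsAffineOpen W) (V : (Spec Γ(X, W)).Opens)
    (hV : hW.fromSpec ''ᵁ V ≤ W) (r : Γ(X, W)) :
    (hW.fromSpec.appIso V).inv ((Spec Γ(X, W)).presheaf.map V.leTop.op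
      ((Scheme.ΓSpecIso Γ(X, W)).inv r)) = ro hV r := by
  have h1 : X.presheaf.map (homOfLE hV).op ≫ (hW.fromSpec.appIso V).hom =
      (Scheme.ΓSpecIso Γ(X, W)).inv ≫ (Spec Γ(X, W)).presheaf.map V.leTop.op := by
    rw [Scheme.Hom.appIso_hom', Scheme.Hom.map_appLE]
    rw [Scheme.Hom.appLE, hW.fromSpec_app_self, Category.assoc, ← Functor.map_comp]
    rfl
  have h2 : (Scheme.ΓSpecIso Γ(X, W)).inv ≫ (Spec Γ(X, W)).presheaf.map V.leTop.op ≫
      (hW.fromSpec.appIso V).inv = X.presheaf.map (homOfLE hV).op := by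
    rw [← Category.assoc, ← h1, Category.assoc, Iso.hom_inv_id, Category.comp_id]
  exact congr($h2 r)

lemma restrict_smul (M : X.Modules) {W : X.Opens} (hW : IsAffineOpen W)
    (V : (Spec Γ(X, W)).Opens) (hV : hW.fromSpec ''ᵁ V ≤ W) (r : Γ(X, W))
    (x : Γ(M.restrict hW.fromSpec, V)) :
    (r • x : Γ(M.restrict hW.fromSpec, V)) =
      (ro hV r • (show Γ(M, hW.fromSpec ''ᵁ V) from x) : Γ(M, hW.fromSpec ''ᵁ V)) := by
  rw [← appIso_inv_res hW V hV r]
  rfl

lemma spec_ext {R : CommRingCat.{u}} (N : (Spec R).Modules) [N.IsQuasicoherent] (f : R)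
    (s : Γ(N, PrimeSpectrum.basicOpen f)) :
    ∃ (k : ℕ) (t : Γ(N, ⊤)), rs N le_top t = f ^ k • s := by
  have h : IsLocalizedModule (.powers f) ((modulesSpecToSheaf.obj N).obj.map
      (PrimeSpectrum.basicOpen f).leTop.op).hom :=
    (isIso_fromTildeΓ_iff_isLocalizing _).1 inferInstance f
  obtain ⟨⟨t, ⟨_, k, rfl⟩⟩, ht⟩ := h.surj s
  exact ⟨k, t, ht.symm⟩

lemma spec_uniq {R : CommRingCat.{u}} (N : (Spec R).Modules) [N.IsQuasicoherent] (f : R)
    (t : Γ(N, ⊤)) (ht : rs N (le_top : PrimeSpectrum.basicOpen f ≤ ⊤) t = 0) :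
    ∃ k : ℕ, f ^ k • t = 0 := by
  have h : IsLocalizedModule (.powers f) ((modulesSpecToSheaf.obj N).obj.map
      (PrimeSpectrum.basicOpen f).leTop.op).hom :=
    (isIso_fromTildeΓ_iff_isLocalizing _).1 inferInstance f
  obtain ⟨⟨_, k, rfl⟩, hk⟩ := (IsLocalizedModule.eq_zero_iff (.powers f)
    ((modulesSpecToSheaf.obj N).obj.map (PrimeSpectrum.basicOpen f).leTop.op).hom).1 ht
  exact ⟨k, hk⟩

theorem qcOn_of_isQuasicoherent (M : X.Modules) [M.IsQuasicoherent] (W : X.Opens) :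
    QCOn M W := by
  have hqc : ∀ (W' : X.Opens) (hW' : IsAffineOpen W'),
      (M.restrict hW'.fromSpec).IsQuasicoherent :=
    fun W' hW' => Scheme.Modules.isQuasicoherent_restrictFunctor hW'.fromSpec M
  constructor
  · intro W' hW' _ f s
    have hD := hW'.fromSpec_image_basicOpen f
    have hT : hW'.fromSpec ''ᵁ ⊤ = W' := by
      rw [Scheme.Hom.image_top_eq_opensRange, hW'.opensRange_fromSpec]
    have := hqc W' hW'
    let s' : Γ(M, hW'.fromSpec ''ᵁ (PrimeSpectrum.basicOpen f)) := rs M hD.le s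
    obtain ⟨k, t, ht⟩ := spec_ext (M.restrict hW'.fromSpec) f s'
    rw [restrict_smul M hW' _ (hD.le.trans (X.basicOpen_le f))] at ht
    have ht' : rs M (hW'.fromSpec.image_mono le_top) (show Γ(M, hW'.fromSpec ''ᵁ ⊤) from t) =
        ro (hD.le.trans (X.basicOpen_le f)) (f ^ k) • s' := ht
    have h1 := congrArg (rs M hD.ge) ht'
    refine ⟨k, rs M hT.ge t, ?_⟩
    rw [rs_rs, rs_smul, ro_ro, rs_rs, rs_refl, map_pow] at h1
    rw [rs_rs]
    exact h1
  · intro W' hW' _ f t ht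
    have hD := hW'.fromSpec_image_basicOpen f
    have hT : hW'.fromSpec ''ᵁ ⊤ = W' := by
      rw [Scheme.Hom.image_top_eq_opensRange, hW'.opensRange_fromSpec]
    have := hqc W' hW'
    let t' : Γ(M, hW'.fromSpec ''ᵁ ⊤) := rs M hT.le t
    obtain ⟨k, hk⟩ := spec_uniq (M.restrict hW'.fromSpec) f t' (by
      have h1 : rs M (hW'.fromSpec.image_mono (le_top : PrimeSpectrum.basicOpen f ≤ ⊤)) t' = 0 := by
        simp only [t']
        rw [rs_rs]
        have h2 := congrArg (rs M hD.le) ht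
        rw [rs_rs, map_zero] at h2
        exact h2
      exact h1)
    rw [restrict_smul M hW' _ hT.le] at hk
    have hk' : ro hT.le (f ^ k) • t' = 0 := hk
    have h3 := congrArg (rs M hT.ge) hk'
    refine ⟨k, ?_⟩
    simp only [t'] at h3
    rw [rs_smul, ro_ro, rs_rs, rs_refl, ro_refl, map_zero] at h3
    exact h3

end Pool.Agent.W506
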