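import Pool.Agent.W506.L4

/-!
Local bases and free modules.
-/

universe u

open CategoryTheory Limits TopologicalSpace AlgebraicGeometry Opposite

namespace Pool.Agent.W506

set_option backward.isDefEq.respectTransparency false

variable {X : Scheme.{u}}

/-- the free module of rank `n` -/
noncomputable abbrev FR (X : Scheme.{u}) (n : ℕ) : X.Modules :=
  SheafOfModules.free (R := X.ringCatSheaf) (ULift.{u} (Fin n))

/-- the standard basis -/
noncomputable def fs (X : Scheme.{u}) {n : ℕ} (i : Fin n) : Γ(FR X n, ⊤) :=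
  (SheafOfModules.freeSection (R := X.ringCatSheaf) (ULift.up.{u} i)).eval (op ⊤)

/-- the family of sections given by a global section -/
noncomputable def secOf {N : X.Modules} (s : Γ(N, ⊤)) : SheafOfModules.sections N :=
  PresheafOfModules.sectionsMk (fun V => rs N (le_top : V.unop ≤ ⊤) s) (fun V W f => by
    exact rs_rs (M := N) f.unop.le le_top s)

lemma ap_fs {N : X.Modules} {n : ℕ} (f : FR X n ⟶ N) (i : Fin n) :
    ap f ⊤ (fs X i) = (SheafOfModules.freeHomEquiv N f (ULift.up i)).eval (op ⊤) := rfl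

lemma sections_ext_top {N : X.Modules} {s t : SheafOfModules.sections N}
    (h : s.eval (op ⊤) = t.eval (op ⊤)) : s = t := by
  apply PresheafOfModules.sections_ext
  intro V
  have h1 := PresheafOfModules.sections_property s (homOfLE (le_top : V.unop ≤ ⊤)).op
  have h2 := PresheafOfModules.sections_property t (homOfLE (le_top : V.unop ≤ ⊤)).op
  exact h1.symm.trans ((congrArg _ h).trans h2)

lemma isBasisOn_fs (X : Scheme.{u}) (n : ℕ) : IsBasisOn (fun i : Fin n => fs X i) := by
  apply isBasisOn_of_represents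
  · intro N _ s
    refine ⟨(SheafOfModules.freeHomEquiv N).symm (fun i => secOf (s i.down)), fun i => ?_⟩
    rw [ap_fs, Equiv.apply_symm_apply]
    exact rs_refl (M := N) _ _
  · intro N _ f g h
    apply (SheafOfModules.freeHomEquiv N).injective
    funext i
    apply sections_ext_top
    exact h i.down

lemma isIso_of_bases {M N : X.Modules} {n : ℕ} {e : Fin n → Γ(M, ⊤)} {e' : Fin n → Γ(N, ⊤)}
    (he : IsBasisOn e) (he' : IsBasisOn e') (f : M ⟶ N) (hf : ∀ i, ap f ⊤ (e i) = e' i) :
    IsIso f := by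
  apply isIso_of_ap_bijective
  intro V
  have h1 : (fun a => ap f V (comb e (le_top : V ≤ ⊤) a)) = comb e' le_top := by
    funext a
    rw [ap_comb]
    congr 1
    funext i
    exact hf i
  have h2 := he' V le_top
  rw [← h1] at h2
  exact (Function.Bijective.of_comp_iff _ (he V le_top)).1 h2

lemma restrict_smul_ι {M : X.Modules} {U : X.Opens} (V : U.toScheme.Opens) (r : Γ(U, V))
    (x : Γ(M.restrict U.ι, V)) : (r • x : Γ(M.restrict U.ι, V)) =
      ((show Γ(X, U.ι ''ᵁ V) from r) • (show Γ(M, U.ι ''ᵁ V) from x) : Γ(M, U.ι ''ᵁ V)) := by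
  have h1 : (r • x : Γ(M.restrict U.ι, V)) = (((U.ι.appIso V).inv r) •
    (show Γ(M, U.ι ''ᵁ V) from x) : Γ(M, U.ι ''ᵁ V)) := rfl
  rw [h1, Scheme.Opens.ι_appIso]
  rfl

lemma isBasisOn_restrict {M : X.Modules} {U : X.Opens} {n : ℕ} {e : Fin n → Γ(M, U)}
    (he : IsBasisOn e) :
    IsBasisOn (N := M.restrict U.ι) (U := ⊤)
      (fun i => rs M (Scheme.Opens.ι_image_le U ⊤) (e i)) := by
  intro V hV
  have h1 := he (U.ι ''ᵁ V) (Scheme.Opens.ι_image_le U V)
  let ρ : Γ(M.restrict U.ι, V) →+ Γ(M, U.ι ''ᵁ V) := (M.restrictAppIso U.ι V).hom.hom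
  have hρ : Function.Bijective ρ :=
    (ConcreteCategory.isIso_iff_bijective (M.restrictAppIso U.ι V).hom).1 inferInstance
  have h3 : ∀ i, ρ (rs (M.restrict U.ι) hV (rs M (Scheme.Opens.ι_image_le U ⊤) (e i))) =
    rs M (Scheme.Opens.ι_image_le U V) (e i) := fun i =>
      rs_rs (M := M) (U.ι.image_mono hV) (Scheme.Opens.ι_image_le U ⊤) (e i)
  have h4 : ∀ (r : Γ(U, V)) (x : Γ(M.restrict U.ι, V)),
      ρ (r • x) = (show Γ(X, U.ι ''ᵁ V) from r) • ρ x := restrict_smul_ι V
  have h2 : (fun a => ρ (comb (N := M.restrict U.ι) (U := ⊤)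
      (fun i => rs M (Scheme.Opens.ι_image_le U ⊤) (e i)) hV a)) =
      fun a => comb e (Scheme.Opens.ι_image_le U V) a := by
    funext a
    rw [comb, map_sum, comb]
    exact Finset.sum_congr rfl fun i _ => (h4 _ _).trans (congrArg _ (h3 i))
  refine (Function.Bijective.of_comp_iff' hρ _).1 ?_
  change Function.Bijective (fun a => ρ (comb (N := M.restrict U.ι) (U := ⊤)
      (fun i => rs M (Scheme.Opens.ι_image_le U ⊤) (e i)) hV a))
  rw [h2]
  exact h1

theorem exists_iso_free {M : X.Modules} {U : X.Opens} {n : ℕ} {e : Fin n → Γ(M, U)}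
    (he : IsBasisOn e) : Nonempty (M.restrict U.ι ≅ FR U.toScheme n) := by
  obtain ⟨f, hf⟩ : ∃ f : FR U.toScheme n ⟶ M.restrict U.ι,
      ∀ i, ap f ⊤ (fs _ i) = rs M (Scheme.Opens.ι_image_le U ⊤) (e i) := by
    refine ⟨(SheafOfModules.freeHomEquiv (M.restrict U.ι)).symm (fun i => secOf
      (rs M (Scheme.Opens.ι_image_le U ⊤) (e i.down))), fun i => ?_⟩
    rw [ap_fs, Equiv.apply_symm_apply]
    exact rs_refl (M := M.restrict U.ι) _ _
  have := isIso_of_bases (isBasisOn_fs U.toScheme n) (isBasisOn_restrict he) f hf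
  exact ⟨(asIso f).symm⟩

end Pool.Agent.W506
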