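import Pool.Agent.W506.F1
import Pool.Agent.W506.Q1
import Pool.Agent.W506.Q2

/-!
The main theorem.
-/

universe u

open CategoryTheory Limits Pretriangulated TopologicalSpace AlgebraicGeometry

namespace Pool.Agent.W506

set_option backward.isDefEq.respectTransparency false

attribute [local instance] HasDerivedCategory.standard

lemma IsVB.isVectorBundle {X : Scheme.{u}} {E : X.Modules} (h : IsVB E) : IsVectorBundle E := by
  intro x
  obtain ⟨U, hx, n, e, he⟩ := h x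
  exact ⟨U, hx, n, exists_iso_free he⟩

lemma IsCoh.cohCh {K : Type u} [Field K] {n : ℕ} {M : (PP K n).Modules} (h : IsCoh M) :
    CohCh M := by
  intro i
  have := h.1
  exact ⟨qcOn_of_isQuasicoherent M _, h.2 _ (isAffineOpen_UU i)⟩

theorem main (K : Type u) [Field K] (m : ℕ) (C : CochainComplex (PP K m).Modules ℤ) (a b : ℤ)
    (ha : ∀ i, i < a → IsZero (C.X i)) (hb : ∀ i, b < i → IsZero (C.X i))
    (hC : ∀ i, IsCoh (C.X i)) :
    ∃ l : List ℕ, l ≠ [] ∧ (∀ n ∈ l, n = 1) ∧ IsPushforwardOver K m l C := by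
  have hCa : C.IsStrictlyGE (min a b) := by
    rw [CochainComplex.isStrictlyGE_iff]
    intro i hi
    exact ha i (lt_of_lt_of_le hi (min_le_left a b))
  obtain ⟨k, hk⟩ := Int.eq_ofNat_of_zero_le (sub_nonneg.2 (min_le_right a b))
  have hCb : C.IsStrictlyLE (min a b + k) := by
    rw [CochainComplex.isStrictlyLE_iff]
    intro i hi
    exact hb i (by omega)
  obtain ⟨G, a₁, b₁, hGa, hGb, hG, f, hf⟩ :=
    (resData K m).res k C (min a b) hCa hCb (fun i => (hC i).cohCh)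
  have e1 : DerivedCategory.Q.obj G ≅ DerivedCategory.Q.obj C :=
    ((DerivedCategory.quotientCompQhIso _).app G).symm ≪≫ (@asIso _ _ _ _ _ hf) ≪≫
      (DerivedCategory.quotientCompQhIso _).app C
  obtain ⟨k', hk'⟩ := Int.eq_ofNat_of_zero_le (sub_nonneg.2 (le_max_left a₁ b₁))
  have hGb' : G.IsStrictlyLE (a₁ + (k' + 1 : ℕ)) := by
    rw [CochainComplex.isStrictlyLE_iff]
    intro i hi
    exact G.isZero_of_isStrictlyLE b₁ i (by
      have := le_max_right a₁ b₁
      push_cast at hi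
      omega)
  obtain ⟨E, hE, ⟨e2⟩⟩ := iter (K := K) (k' + 1) (PP K m) (toK K m) G a₁ hGa hGb' hG
  refine ⟨List.replicate (k' + 1) 1, by simp, fun n hn => (List.mem_replicate.1 hn).2, E,
    -a₁, hE.isVectorBundle, ?_⟩
  let π := towerProj K (List.replicate (k' + 1) 1) (PP K m) (toK K m)
  let F := Scheme.Modules.pushforward π
  obtain ⟨e3⟩ := rightDerived_shift F ((DerivedCategory.Plus.singleFunctor _ 0).obj E) (-a₁)
  have e4 : ((DerivedCategory.Plus.singleFunctor _ 0).obj E)⟦(-a₁ : ℤ)⟧ ≅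
      (DerivedCategory.Plus.singleFunctor _ a₁).obj E :=
    ((DerivedCategory.Plus.singleFunctors _).shiftIso (-a₁) a₁ 0 (by ring)).app E
  have e5 := qpSingleIso E a₁ (plus_single E a₁)
  have e6 : (derivedImage π E)⟦(-a₁ : ℤ)⟧ ≅ QP G ⟨a₁, hGa⟩ :=
    e3.symm ≪≫ F.rightDerivedFunctorPlus.mapIso (e4 ≪≫ e5.symm) ≪≫ e2
  exact ⟨((DerivedCategory.Plus.ι.commShiftIso (-a₁ : ℤ)).app (derivedImage π E)).symm ≪≫
    DerivedCategory.Plus.ι.mapIso e6 ≪≫ ιQP G ⟨a₁, hGa⟩ ≪≫ e1⟩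

end Pool.Agent.W506
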