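import Mathlib

/-!
Base change of a decomposition along a ring extension.
-/

universe u

open CategoryTheory Limits TensorProduct

namespace Pool.Agent.W506

set_option backward.isDefEq.respectTransparency false

lemma exists_tensor_equiv {k A B C : CommRingCat.{u}} (α : k ⟶ A) (β : k ⟶ B) (i : A ⟶ C)
    (j : B ⟶ C) (h : IsPushout α β i j) :
    letI := α.hom.toAlgebra; letI := β.hom.toAlgebra
    ∃ e : A ⊗[k] B ≃+* C, ∀ a b, e (a ⊗ₜ b) = i a * j b := by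
  let := α.hom.toAlgebra
  let := β.hom.toAlgebra
  have h0 : IsPushout (CommRingCat.ofHom (algebraMap k A)) (CommRingCat.ofHom (algebraMap k B))
      i j := h
  let e : CommRingCat.of (A ⊗[k] B) ≅ C :=
    (CommRingCat.isPushout_tensorProduct k A B).isoPushout ≪≫ h0.isoPushout.symm
  have h1 : CommRingCat.ofHom (Algebra.TensorProduct.includeLeftRingHom) ≫ e.hom = i := by
    simp [e]
  have h2 : CommRingCat.ofHom (Algebra.TensorProduct.includeRight.toRingHom) ≫ e.hom = j := by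
    simp [e]
  refine ⟨e.commRingCatIsoToRingEquiv, fun a b => ?_⟩
  have h3 : (a ⊗ₜ[k] b : A ⊗[k] B) = (a ⊗ₜ 1) * (1 ⊗ₜ b) := by
    rw [Algebra.TensorProduct.tmul_mul_tmul, mul_one, one_mul]
  rw [h3, map_mul]
  have h4 : e.commRingCatIsoToRingEquiv (a ⊗ₜ[k] 1) = i a := congr($h1 a)
  have h5 : e.commRingCatIsoToRingEquiv (1 ⊗ₜ[k] b) = j b := congr($h2 b)
  rw [h4, h5]

lemma pushout_bij {k A B₀ B₁ B₂ C₀ C₁ C₂ : CommRingCat.{u}} (α : k ⟶ A)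
    (β₀ : k ⟶ B₀) (β₁ : k ⟶ B₁) (β₂ : k ⟶ B₂)
    (i₀ : A ⟶ C₀) (i₁ : A ⟶ C₁) (i₂ : A ⟶ C₂)
    (j₀ : B₀ ⟶ C₀) (j₁ : B₁ ⟶ C₁) (j₂ : B₂ ⟶ C₂)
    (h₀ : IsPushout α β₀ i₀ j₀) (h₁ : IsPushout α β₁ i₁ j₁) (h₂ : IsPushout α β₂ i₂ j₂)
    (ρ₀ : B₀ ⟶ B₂) (ρ₁ : B₁ ⟶ B₂) (σ₀ : C₀ ⟶ C₂) (σ₁ : C₁ ⟶ C₂)
    (hβ₀ : β₀ ≫ ρ₀ = β₂) (hβ₁ : β₁ ≫ ρ₁ = β₂) (hi₀ : i₀ ≫ σ₀ = i₂) (hi₁ : i₁ ≫ σ₁ = i₂)
    (hj₀ : j₀ ≫ σ₀ = ρ₀ ≫ j₂) (hj₁ : j₁ ≫ σ₁ = ρ₁ ≫ j₂) (τ : B₂)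
    (hbij : Function.Bijective (fun p : B₀ × B₁ => τ * ρ₀ p.1 + ρ₁ p.2)) :
    Function.Bijective (fun p : C₀ × C₁ => j₂ τ * σ₀ p.1 + σ₁ p.2) := by
  let := α.hom.toAlgebra
  let := β₀.hom.toAlgebra
  let := β₁.hom.toAlgebra
  let := β₂.hom.toAlgebra
  obtain ⟨e₀, he₀⟩ := exists_tensor_equiv α β₀ i₀ j₀ h₀
  obtain ⟨e₁, he₁⟩ := exists_tensor_equiv α β₁ i₁ j₁ h₁
  obtain ⟨e₂, he₂⟩ := exists_tensor_equiv α β₂ i₂ j₂ h₂
  have hr₀ : ∀ c, ρ₀ (β₀ c) = β₂ c := fun c => congr($hβ₀ c)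
  have hr₁ : ∀ c, ρ₁ (β₁ c) = β₂ c := fun c => congr($hβ₁ c)
  let δ : (B₀ × B₁) ≃ₗ[k] B₂ := LinearEquiv.ofBijective
    { toFun := fun p => τ * ρ₀ p.1 + ρ₁ p.2
      map_add' := fun p q => by
        simp only [Prod.fst_add, Prod.snd_add, map_add]; ring
      map_smul' := fun c p => by
        have e1 : ρ₀ (c • p.1) = β₂ c * ρ₀ p.1 := by
          change ρ₀ (β₀ c * p.1) = _
          rw [map_mul, hr₀]
        have e2 : ρ₁ (c • p.2) = β₂ c * ρ₁ p.2 := by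
          change ρ₁ (β₁ c * p.2) = _
          rw [map_mul, hr₁]
        rw [Prod.smul_fst, Prod.smul_snd, e1, e2]
        change _ = β₂ c * (τ * ρ₀ p.1 + ρ₁ p.2)
        ring } hbij
  have hδ : ∀ p, δ p = τ * ρ₀ p.1 + ρ₁ p.2 := fun p => rfl
  let T : ((A ⊗[k] B₀) × (A ⊗[k] B₁)) ≃ₗ[k] A ⊗[k] B₂ :=
    (TensorProduct.prodRight k k A B₀ B₁).symm ≪≫ₗ LinearEquiv.lTensor A δ
  have hT₀ : ∀ x, e₂ (T (x, 0)) = j₂ τ * σ₀ (e₀ x) := by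
    intro x
    induction x using TensorProduct.induction_on with
    | zero =>
      have : ((0 : A ⊗[k] B₀), (0 : A ⊗[k] B₁)) = 0 := rfl
      rw [this, map_zero, map_zero, map_zero, map_zero, mul_zero]
    | add x y hx hy =>
      have : ((x + y : A ⊗[k] B₀), (0 : A ⊗[k] B₁)) = (x, 0) + (y, 0) := by simp
      rw [this, map_add, map_add, hx, hy, map_add, map_add, mul_add]
    | tmul a b =>
      have e1 : ((a ⊗ₜ b : A ⊗[k] B₀), (0 : A ⊗[k] B₁)) = (a ⊗ₜ b, a ⊗ₜ 0) := by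
        rw [TensorProduct.tmul_zero]
      have e2 : T (a ⊗ₜ b, a ⊗ₜ 0) = a ⊗ₜ (δ (b, 0)) := by
        simp only [T, LinearEquiv.trans_apply, TensorProduct.prodRight_symm_tmul]
        rfl
      rw [e1, e2, he₂, hδ, map_zero, add_zero, map_mul, he₀, map_mul]
      have e3 : σ₀ (i₀ a) = i₂ a := congr($hi₀ a)
      have e4 : σ₀ (j₀ b) = j₂ (ρ₀ b) := congr($hj₀ b)
      rw [e3, e4]
      ring
  have hT₁ : ∀ y, e₂ (T (0, y)) = σ₁ (e₁ y) := by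
    intro x
    induction x using TensorProduct.induction_on with
    | zero =>
      have : ((0 : A ⊗[k] B₀), (0 : A ⊗[k] B₁)) = 0 := rfl
      rw [this, map_zero, map_zero, map_zero, map_zero]
    | add x y hx hy =>
      have : ((0 : A ⊗[k] B₀), (x + y : A ⊗[k] B₁)) = (0, x) + (0, y) := by simp
      rw [this, map_add, map_add, hx, hy, map_add, map_add]
    | tmul a b =>
      have e1 : ((0 : A ⊗[k] B₀), (a ⊗ₜ b : A ⊗[k] B₁)) = (a ⊗ₜ 0, a ⊗ₜ b) := by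
        rw [TensorProduct.tmul_zero]
      have e2 : T (a ⊗ₜ 0, a ⊗ₜ b) = a ⊗ₜ (δ (0, b)) := by
        simp only [T, LinearEquiv.trans_apply, TensorProduct.prodRight_symm_tmul]
        rfl
      rw [e1, e2, he₂, hδ, map_zero, mul_zero, zero_add, he₁, map_mul]
      have e3 : σ₁ (i₁ a) = i₂ a := congr($hi₁ a)
      have e4 : σ₁ (j₁ b) = j₂ (ρ₁ b) := congr($hj₁ b)
      rw [e3, e4]
  have hT : ∀ x y, e₂ (T (x, y)) = j₂ τ * σ₀ (e₀ x) + σ₁ (e₁ y) := by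
    intro x y
    have : ((x : A ⊗[k] B₀), (y : A ⊗[k] B₁)) = (x, 0) + (0, y) := by simp
    rw [this, map_add, map_add, hT₀, hT₁]
  have key : (fun p : C₀ × C₁ => j₂ τ * σ₀ p.1 + σ₁ p.2) =
      fun p => e₂ (T (e₀.symm p.1, e₁.symm p.2)) := by
    funext p
    rw [hT, RingEquiv.apply_symm_apply, RingEquiv.apply_symm_apply]
  rw [key]
  refine e₂.bijective.comp (T.bijective.comp ?_)
  exact (e₀.symm.toEquiv.prodCongr e₁.symm.toEquiv).bijective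

end Pool.Agent.W506
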