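import Pool.Agent.W506.G0
import Pool.Agent.W506.S11

/-!
The data of two charts for a product.
-/

universe u

open CategoryTheory Limits TopologicalSpace AlgebraicGeometry

namespace Pool.Agent.W506

set_option backward.isDefEq.respectTransparency false

/-- half of the data of the projective line -/
structure HalfLine (P : Scheme.{u}) (U₀ U₁ : P.Opens) (t : Γ(P, U₀)) : Prop where
  cover : U₀ ⊔ U₁ = ⊤
  aff₀ : IsAffineOpen U₀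
  aff₁ : IsAffineOpen U₁
  aff₀₁ : IsAffineOpen (U₀ ⊓ U₁)
  unit : IsUnit (ro (inf_le_left : U₀ ⊓ U₁ ≤ U₀) t)
  bij : Function.Bijective (fun p : Γ(P, U₀) × Γ(P, U₁) =>
    (ro (inf_le_left : U₀ ⊓ U₁ ≤ U₀) t * ro (inf_le_left : U₀ ⊓ U₁ ≤ U₀) p.1 +
      ro (inf_le_right : U₀ ⊓ U₁ ≤ U₁) p.2))

variable {S X P Y : Scheme.{u}} {f : X ⟶ S} {g : P ⟶ S} {π : Y ⟶ X} {q : Y ⟶ P}

section

variable (H : IsPullback π q f g) [IsAffine S]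

include H

lemma isPushout_chart {V : X.Opens} (hV : IsAffineOpen V) {W : P.Opens} (hW : IsAffineOpen W)
    {UY : Y.Opens} (hUY : UY = π ⁻¹ᵁ V ⊓ q ⁻¹ᵁ W) :
    IsPushout (f.appLE ⊤ V (by simp)) (g.appLE ⊤ W (by simp))
      (π.appLE V UY (by simp [*])) (q.appLE W UY (by simp [*])) :=
  (isIso_pushoutSection_iff H (US := ⊤) (by simp) (by simp) hUY).1
    (isIso_pushoutSection_of_isAffineOpen H _ _ _ (isAffineOpen_top S) hW hV)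

lemma isAffineOpen_chart {V : X.Opens} (hV : IsAffineOpen V) {W : P.Opens} (hW : IsAffineOpen W)
    {UY : Y.Opens} (hUY : UY = π ⁻¹ᵁ V ⊓ q ⁻¹ᵁ W) : IsAffineOpen UY := by
  have hU : IsAffineOpen (⊤ : S.Opens) := isAffineOpen_top S
  have : IsAffine _ := hU
  have : IsAffine _ := hW
  have : IsAffine _ := hV
  exact .of_isIso (Scheme.Hom.isPullback_resLE H (US := ⊤) (UT := W) (UX := V) (by simp) (by simp)
    hUY).isoPullback.hom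

lemma twData_of_halfLine {U₀ U₁ : P.Opens} {t : Γ(P, U₀)} (h : HalfLine P U₀ U₁ t) :
    TwData π (q ⁻¹ᵁ U₀) (q ⁻¹ᵁ U₁) (q.app U₀ t) := by
  have h01 : ∀ V : X.Opens, chart π (q ⁻¹ᵁ U₀) V ⊓ chart π (q ⁻¹ᵁ U₁) V =
      π ⁻¹ᵁ V ⊓ q ⁻¹ᵁ (U₀ ⊓ U₁) := by
    intro V
    change (π ⁻¹ᵁ V ⊓ q ⁻¹ᵁ U₀) ⊓ (π ⁻¹ᵁ V ⊓ q ⁻¹ᵁ U₁) = π ⁻¹ᵁ V ⊓ (q ⁻¹ᵁ U₀ ⊓ q ⁻¹ᵁ U₁)
    rw [inf_inf_inf_comm, inf_idem]
  have hb : ∀ V : X.Opens, IsAffineOpen V → Function.Bijective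
      (fun p : Γ(Y, chart π (q ⁻¹ᵁ U₀) V) × Γ(Y, chart π (q ⁻¹ᵁ U₁) V) =>
        ro (inf_le_left.trans inf_le_right :
          chart π (q ⁻¹ᵁ U₀) V ⊓ chart π (q ⁻¹ᵁ U₁) V ≤ q ⁻¹ᵁ U₀) (q.app U₀ t) *
          ro inf_le_left p.1 + ro inf_le_right p.2) := by
    intro V hV
    have hp₀ := isPushout_chart H hV h.aff₀ (UY := chart π (q ⁻¹ᵁ U₀) V) rfl
    have hp₁ := isPushout_chart H hV h.aff₁ (UY := chart π (q ⁻¹ᵁ U₁) V) rfl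
    have hp₂ := isPushout_chart H hV h.aff₀₁ (h01 V)
    have hmain := pushout_bij _ _ _ _ _ _ _ _ _ _ hp₀ hp₁ hp₂
      (P.presheaf.map (homOfLE (inf_le_left : U₀ ⊓ U₁ ≤ U₀)).op)
      (P.presheaf.map (homOfLE (inf_le_right : U₀ ⊓ U₁ ≤ U₁)).op)
      (Y.presheaf.map (homOfLE (inf_le_left : chart π (q ⁻¹ᵁ U₀) V ⊓ chart π (q ⁻¹ᵁ U₁) V ≤ _)).op)
      (Y.presheaf.map (homOfLE (inf_le_right : chart π (q ⁻¹ᵁ U₀) V ⊓ chart π (q ⁻¹ᵁ U₁) V ≤ _)).op)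
      (by simp only [Scheme.Hom.appLE_map]) (by simp only [Scheme.Hom.appLE_map])
      (by simp only [Scheme.Hom.appLE_map]) (by simp only [Scheme.Hom.appLE_map])
      (by simp only [Scheme.Hom.appLE_map, Scheme.Hom.map_appLE])
      (by simp only [Scheme.Hom.appLE_map, Scheme.Hom.map_appLE])
      (ro (inf_le_left : U₀ ⊓ U₁ ≤ U₀) t) h.bij
    have h5 : (q.appLE (U₀ ⊓ U₁) (chart π (q ⁻¹ᵁ U₀) V ⊓ chart π (q ⁻¹ᵁ U₁) V)
        (by rw [h01]; exact inf_le_right)) (ro (inf_le_left : U₀ ⊓ U₁ ≤ U₀) t) =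
        ro (inf_le_left.trans inf_le_right :
          chart π (q ⁻¹ᵁ U₀) V ⊓ chart π (q ⁻¹ᵁ U₁) V ≤ q ⁻¹ᵁ U₀) (q.app U₀ t) := by
      have h6 : P.presheaf.map (homOfLE (inf_le_left : U₀ ⊓ U₁ ≤ U₀)).op ≫
          q.appLE (U₀ ⊓ U₁) (chart π (q ⁻¹ᵁ U₀) V ⊓ chart π (q ⁻¹ᵁ U₁) V)
            (by rw [h01]; exact inf_le_right) =
          q.app U₀ ≫ Y.presheaf.map (homOfLE (inf_le_left.trans inf_le_right :
          chart π (q ⁻¹ᵁ U₀) V ⊓ chart π (q ⁻¹ᵁ U₁) V ≤ q ⁻¹ᵁ U₀)).op := by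
        rw [Scheme.Hom.map_appLE]
        rfl
      exact congr($h6 t)
    rw [h5] at hmain
    exact hmain
  refine
    { cover := ?_
      aff₀ := fun V hV => isAffineOpen_chart H hV h.aff₀ rfl
      aff₁ := fun V hV => isAffineOpen_chart H hV h.aff₁ rfl
      aff₀₁ := fun V hV => isAffineOpen_chart H hV h.aff₀₁ (h01 V)
      unit := ?_
      surj := ?_
      inj := ?_ }
  · change q ⁻¹ᵁ (U₀ ⊔ U₁) = ⊤
    rw [h.cover]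
    rfl
  · have h1 := h.unit.map (q.app (U₀ ⊓ U₁)).hom
    have h6 : P.presheaf.map (homOfLE (inf_le_left : U₀ ⊓ U₁ ≤ U₀)).op ≫ q.app (U₀ ⊓ U₁) =
        q.app U₀ ≫ Y.presheaf.map (homOfLE (inf_le_left : q ⁻¹ᵁ U₀ ⊓ q ⁻¹ᵁ U₁ ≤ q ⁻¹ᵁ U₀)).op :=
      q.naturality _
    have h7 : q.app (U₀ ⊓ U₁) (ro (inf_le_left : U₀ ⊓ U₁ ≤ U₀) t) =
        ro (inf_le_left : q ⁻¹ᵁ U₀ ⊓ q ⁻¹ᵁ U₁ ≤ q ⁻¹ᵁ U₀) (q.app U₀ t) := congr($h6 t)
    rw [← h7]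
    exact h1
  · intro V hV c
    obtain ⟨⟨a, b⟩, hab⟩ := (hb V hV).2 c
    exact ⟨a, b, hab.symm⟩
  · intro V hV a b hab
    have h1 := (hb V hV).1 (a₁ := (a, b)) (a₂ := (0, 0)) (by
      simp only [map_zero, mul_zero, add_zero]
      exact hab)
    exact ⟨congrArg Prod.fst h1, congrArg Prod.snd h1⟩

lemma glob_of_global (hg : Function.Bijective g.appTop) [Flat f]
    [CompactSpace P] [QuasiSeparatedSpace P] (V : X.Opens) (hV : IsAffineOpen V) :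
    Function.Bijective (π.app V) := by
  have hUY : π ⁻¹ᵁ V = π ⁻¹ᵁ V ⊓ q ⁻¹ᵁ (⊤ : P.Opens) := by simp
  have hp : IsPushout (f.appLE ⊤ V (by simp)) (g.appLE ⊤ ⊤ (by simp))
      (π.appLE V (π ⁻¹ᵁ V) (by simp)) (q.appLE ⊤ (π ⁻¹ᵁ V) (by simp)) :=
    (isIso_pushoutSection_iff H (US := ⊤) (by simp) (by simp) hUY).1
      (isIso_pushoutSection_of_isQuasiSeparated_of_flat_left H _ _ _ (isAffineOpen_top S) hV
        isCompact_univ isQuasiSeparated_univ)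
  have h1 : IsIso (g.appLE ⊤ ⊤ (by simp)) := by
    have h2 : g.appLE ⊤ ⊤ (by simp) = g.appTop := Scheme.Hom.appLE_eq_app (f := g) (U := ⊤)
    rw [h2, ConcreteCategory.isIso_iff_bijective]
    exact hg
  have h3 : IsIso (π.appLE V (π ⁻¹ᵁ V) (by simp)) := hp.isIso_inl_of_isIso
  rw [ConcreteCategory.isIso_iff_bijective, Scheme.Hom.appLE_eq_app] at h3
  exact h3

end

end Pool.Agent.W506
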