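import Pool.Agent.W506.P4
import Pool.Agent.W506.D6

/-!
Iterated products of projective spaces, and the iteration of the basic step.
-/

universe u v u'

open CategoryTheory Limits Pretriangulated TopologicalSpace AlgebraicGeometry

namespace Pool.Agent.W506

set_option backward.isDefEq.respectTransparency false
set_option linter.unusedSectionVars false
set_option linter.unusedVariables false

attribute [local instance] HasDerivedCategory.standard

section

variable {A : Type u'} [Category.{v} A] [Abelian A] [HasDerivedCategory A]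

lemma plus_single (E : A) (a : ℤ) : CochainComplex.plus A
    ((HomologicalComplex.single A (ComplexShape.up ℤ) a).obj E) := ⟨a, inferInstance⟩

/-- the two ways to see an object as a complex -/
noncomputable def qpSingleIso (E : A) (a : ℤ)
    (h : CochainComplex.plus A ((HomologicalComplex.single A (ComplexShape.up ℤ) a).obj E)) :
    QP ((HomologicalComplex.single A (ComplexShape.up ℤ) a).obj E) h ≅
      (DerivedCategory.Plus.singleFunctor A a).obj E :=
  DerivedCategory.Plus.ι.preimageIso
    ((DerivedCategory.singleFunctorIsoCompQ A a).app E).symm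

/-- shifting an object -/
noncomputable def singleShiftIso (E : A) (a : ℤ) :
    ((DerivedCategory.Plus.singleFunctor A 0).obj E)⟦a⟧ ≅
      (DerivedCategory.Plus.singleFunctor A (-a)).obj E :=
  ((DerivedCategory.Plus.singleFunctors A).shiftIso a (-a) 0 (by ring)).app E

end

variable (K : Type u) [Field K]

variable {K}

lemma adapted_id (X : Scheme.{u}) :
    Adapted (Scheme.Modules.pushforward (𝟙 X)) (⊤ : ObjectProperty X.Modules) where
  inj _ _ := trivial
  coker _ _ _ _ := trivial
  epi S hS _ := by
    have := hS.epi_g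
    have h : (Scheme.Modules.pushforward (𝟙 X)).map S.g =
      (Scheme.Modules.pushforwardId X).hom.app S.X₂ ≫ S.g ≫
        (Scheme.Modules.pushforwardId X).inv.app S.X₃ :=
      (NatIso.naturality_2 (Scheme.Modules.pushforwardId X) S.g).symm
    rw [h]
    infer_instance
  sum _ _ _ _ := trivial

lemma iter_zero (X : Scheme.{u}) (E : X.Modules) (a : ℤ)
    (h : CochainComplex.plus _ ((HomologicalComplex.single _ (ComplexShape.up ℤ) a).obj E)) :
    Nonempty ((Scheme.Modules.pushforward (𝟙 X)).rightDerivedFunctorPlus.obj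
      (QP ((HomologicalComplex.single _ (ComplexShape.up ℤ) a).obj E) h) ≅
      QP ((HomologicalComplex.single _ (ComplexShape.up ℤ) a).obj E) h) := by
  have e1 := rightDerivedIso (adapted_id X)
    ⟨(HomologicalComplex.single _ (ComplexShape.up ℤ) a).obj E, h⟩ (fun _ => trivial)
  have e2 := mapPlusIso (Scheme.Modules.pushforwardId X)
    ⟨(HomologicalComplex.single _ (ComplexShape.up ℤ) a).obj E, h⟩
  have e3 : (𝟭 X.Modules).mapCochainComplexPlus.obj
      ⟨(HomologicalComplex.single _ (ComplexShape.up ℤ) a).obj E, h⟩ ≅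
      (⟨(HomologicalComplex.single _ (ComplexShape.up ℤ) a).obj E, h⟩ : CochainComplex.Plus _) :=
    (CochainComplex.plus _).isoMk ((Functor.mapHomologicalComplexIdIso _ _).app _)
  exact ⟨e1 ≪≫ DerivedCategory.Plus.Q.mapIso (e2 ≪≫ e3)⟩

lemma adapted_flasque {X Y : Scheme.{u}} (π : Y ⟶ X) (D : P1Data π) {Z : Scheme.{u}} (g : Z ⟶ Y)
    (I : Z.Modules) [Injective I] :
    PiAcyc π D.U₀ D.U₁ ((Scheme.Modules.pushforward g).obj I) :=
  piAcyc_of_flasque (flasque_pushforward g (flasque_of_injective I))

theorem iter (k : ℕ) : ∀ (X : Scheme.{u}) (f : X ⟶ Spec (.of K))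
    (F : CochainComplex X.Modules ℤ) (a : ℤ) (hFa : F.IsStrictlyGE a) (_ : F.IsStrictlyLE (a + k)),
    (∀ i, IsVB (F.X i)) →
    ∃ E : (tower K (List.replicate k 1) X f).Modules, IsVB E ∧
      Nonempty ((Scheme.Modules.pushforward
        (towerProj K (List.replicate k 1) X f)).rightDerivedFunctorPlus.obj
          (QP ((HomologicalComplex.single _ (ComplexShape.up ℤ) a).obj E) (plus_single E a)) ≅
        QP F ⟨a, hFa⟩) := by
  induction k with
  | zero =>
    intro X f F a hFa hFr hF
    have hFr' : F.IsStrictlyLE a := by simpa using hFr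
    obtain ⟨M, ⟨e⟩⟩ := CochainComplex.exists_iso_single F a
    have e' : F.X a ≅ M := (HomologicalComplex.eval _ (ComplexShape.up ℤ) a).mapIso e ≪≫
      HomologicalComplex.singleObjXSelf (ComplexShape.up ℤ) a M
    obtain ⟨e1⟩ := iter_zero X M a (plus_single M a)
    obtain ⟨e2⟩ := qp_iso_of_iso ⟨a, hFa⟩ (plus_single M a) e
    exact ⟨M, (hF a).of_iso e', ⟨e1 ≪≫ e2.symm⟩⟩
  | succ k ih =>
    intro X f F a hFa hFr hF
    let π := pullback.fst f (toK K 1)
    let D : P1Data π := p1Data (IsPullback.of_hasPullback f (toK K 1))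
    obtain ⟨G, hGa, hGr, hGVB, ⟨e⟩⟩ := step D F a (a + (k + 1 : ℕ)) (by push_cast; omega) hF
    have hGr' : G.IsStrictlyLE (a + k) := by
      have : a + ((k + 1 : ℕ) : ℤ) - 1 = a + k := by push_cast; ring
      rwa [this] at hGr
    obtain ⟨E, hE, ⟨e'⟩⟩ := ih (pullback f (toK K 1)) (π ≫ f) G a hGa hGr' hGVB
    refine ⟨E, hE, ?_⟩
    let g := towerProj K (List.replicate k 1) (pullback f (toK K 1)) (π ≫ f)
    obtain ⟨e''⟩ := rightDerived_comp_iso (Scheme.Modules.pushforward g)
      (Scheme.Modules.pushforward π) (Scheme.Modules.pushforward (g ≫ π))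
      (Scheme.Modules.pushforwardComp g π) (adapted_piAcyc D.tw₀.toCover2)
      (fun I _ => adapted_flasque π D g I)
      (QP ((HomologicalComplex.single _ (ComplexShape.up ℤ) a).obj E) (plus_single E a))
    exact ⟨e'' ≪≫ (Scheme.Modules.pushforward π).rightDerivedFunctorPlus.mapIso e' ≪≫ e⟩

end Pool.Agent.W506
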