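import Pool.Agent.W506.S11

/-!
Gluing line bundles from transition functions.
-/

universe u v

open CategoryTheory Limits Opposite TopologicalSpace AlgebraicGeometry

namespace Pool.Agent.W506

set_option backward.isDefEq.respectTransparency false

variable {X : Scheme.{u}}

/-- families of sections compatible with transition functions -/
def Compat {J : Type} (U : J → X.Opens) (g : ∀ j k, Γ(X, U j ⊓ U k)) {M : X.Modules}
    (t : ∀ j, Γ(M, U j)) : Prop :=
  ∀ j k, rs M (inf_le_right : U j ⊓ U k ≤ U k) (t k) =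
    g j k • rs M (inf_le_left : U j ⊓ U k ≤ U j) (t j)

theorem exists_glued {J : Type} [Finite J] (U : J → X.Opens) (g : ∀ j k, Γ(X, U j ⊓ U k)) :
    ∃ (L : X.Modules) (e : ∀ j, Γ(L, U j)), Compat U g e ∧
      (∀ (M : X.Modules) (t : ∀ j, Γ(M, U j)), Compat U g t →
        ∃ f : L ⟶ M, ∀ j, ap f _ (e j) = t j) ∧
      (∀ (M : X.Modules) (f f' : L ⟶ M), (∀ j, ap f _ (e j) = ap f' _ (e j)) → f = f') := by
  classical
  let B : X.Modules := ∐ fun j : J => LU (U j)
  let b : ∀ j, Γ(B, U j) := fun j => ap (Sigma.ι (fun j : J => LU (U j)) j) (U j) (gen (U j))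
  let A : X.Modules := ∐ fun p : J × J => LU (U p.1 ⊓ U p.2)
  let α : A ⟶ B := Sigma.desc fun p => secHom (rs B (inf_le_right : U p.1 ⊓ U p.2 ≤ U p.2) (b p.2))
  let β : A ⟶ B := Sigma.desc fun p => secHom
    (g p.1 p.2 • rs B (inf_le_left : U p.1 ⊓ U p.2 ≤ U p.1) (b p.1))
  let L := coequalizer α β
  let q : B ⟶ L := coequalizer.π α β
  refine ⟨L, fun j => ap q _ (b j), ?_, ?_, ?_⟩
  · intro j k
    have h1 : α ≫ q = β ≫ q := coequalizer.condition α β
    have h2 := congrArg (fun z => Sigma.ι (fun p : J × J => LU (U p.1 ⊓ U p.2)) (j, k) ≫ z) h1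
    simp only [α, β, ← Category.assoc, Sigma.ι_desc] at h2
    rw [secHom_comp, secHom_comp] at h2
    have h3 := congrArg (fun z => ap z _ (gen (U j ⊓ U k))) h2
    simp only [ap_secHom_gen] at h3
    rw [map_smul, ap_rs, ap_rs] at h3
    exact h3
  · intro M t ht
    let f' : B ⟶ M := Sigma.desc fun j => secHom (t j)
    have hf' : ∀ j, ap f' (U j) (b j) = t j := by
      intro j
      simp only [b]
      rw [← ap_comp, Sigma.ι_desc, ap_secHom_gen]
    have h1 : α ≫ f' = β ≫ f' := by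
      apply Sigma.hom_ext
      rintro ⟨j, k⟩
      simp only [α, β, ← Category.assoc, Sigma.ι_desc]
      rw [secHom_comp, secHom_comp, map_smul, ap_rs, ap_rs, hf', hf', ht j k]
    refine ⟨coequalizer.desc f' h1, fun j => ?_⟩
    rw [← ap_comp, coequalizer.π_desc, hf']
  · intro M f f' h
    apply coequalizer.hom_ext
    apply Sigma.hom_ext
    intro j
    apply lu_hom_ext
    exact h j

theorem isBasisOn_glued {J : Type} [Finite J] (U : J → X.Opens) (g : ∀ j k, Γ(X, U j ⊓ U k))
    (hg : ∀ i, g i i = 1)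
    (hc : ∀ i j k, ro (le_inf (inf_le_left.trans inf_le_left) inf_le_right :
        (U i ⊓ U j) ⊓ U k ≤ U i ⊓ U k) (g i k) =
      ro (inf_le_left : (U i ⊓ U j) ⊓ U k ≤ U i ⊓ U j) (g i j) *
      ro (le_inf (inf_le_left.trans inf_le_right) inf_le_right :
        (U i ⊓ U j) ⊓ U k ≤ U j ⊓ U k) (g j k))
    (L : X.Modules) (e : ∀ j, Γ(L, U j)) (he : Compat U g e)
    (hex : ∀ (M : X.Modules) (t : ∀ j, Γ(M, U j)), Compat U g t →
        ∃ f : L ⟶ M, ∀ j, ap f _ (e j) = t j)
    (huniq : ∀ (M : X.Modules) (f f' : L ⟶ M), (∀ j, ap f _ (e j) = ap f' _ (e j)) → f = f')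
    (i : J) : IsBasisOn (fun _ : Fin 1 => e i) := by
  apply isBasisOn_of_represents
  · intro N hN s
    have ht : ∀ j, ∃ t : Γ(N, U j), rs N (inf_le_left : U j ⊓ U i ≤ U j) t =
        ro (le_inf inf_le_right inf_le_left : U j ⊓ U i ≤ U i ⊓ U j) (g i j) •
          rs N inf_le_right (s 0) := fun j => (hN (U j)).2 _
    choose t ht using ht
    have hcomp : Compat U g t := by
      intro j k
      apply (hN (U j ⊓ U k)).1
      rw [rs_smul, rs_rs, rs_rs]
      have h1 := congrArg (rs N (le_inf (inf_le_left.trans inf_le_left) inf_le_right :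
        (U j ⊓ U k) ⊓ U i ≤ U j ⊓ U i)) (ht j)
      have h2 := congrArg (rs N (le_inf (inf_le_left.trans inf_le_right) inf_le_right :
        (U j ⊓ U k) ⊓ U i ≤ U k ⊓ U i)) (ht k)
      rw [rs_rs, rs_smul, rs_rs, ro_ro] at h1 h2
      rw [h1, h2, smul_smul]
      congr 1
      have h3 := congrArg (ro (le_inf (le_inf inf_le_right (inf_le_left.trans inf_le_left))
        (inf_le_left.trans inf_le_right) : (U j ⊓ U k) ⊓ U i ≤ (U i ⊓ U j) ⊓ U k)) (hc i j k)
      rw [map_mul, ro_ro, ro_ro, ro_ro] at h3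
      rw [h3, mul_comm]
    obtain ⟨f, hf⟩ := hex N t hcomp
    refine ⟨f, fun l => ?_⟩
    rw [Subsingleton.elim l 0, hf i]
    apply (hN (U i)).1
    rw [ht i, hg i, map_one, one_smul]
  · intro N hN f f' h
    apply huniq
    intro j
    apply (hN (U j)).1
    have h0 := h 0
    have h1 := he i j
    have h2 : ∀ f : L ⟶ N, rs N (inf_le_left : U j ⊓ U i ≤ U j) (ap f _ (e j)) =
        ro (le_inf inf_le_right inf_le_left : U j ⊓ U i ≤ U i ⊓ U j) (g i j) •
          rs N inf_le_right (ap f _ (e i)) := by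
      intro f
      have h3 := congrArg (rs L (le_inf inf_le_right inf_le_left : U j ⊓ U i ≤ U i ⊓ U j)) h1
      rw [rs_smul, rs_rs, rs_rs] at h3
      rw [← ap_rs, ← ap_rs, h3, map_smul]
    rw [h2, h2, h0]

end Pool.Agent.W506
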