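import Pool.Agent.W506.P3

/-!
The ring of functions on a standard chart is a polynomial ring.
-/

universe u

open CategoryTheory Limits TopologicalSpace AlgebraicGeometry HomogeneousLocalization

namespace Pool.Agent.W506

set_option backward.isDefEq.respectTransparency false

attribute [local instance] MvPolynomial.gradedAlgebra

variable {K : Type u} [Field K] {n : ℕ}

/-- constants on a chart -/
noncomputable def cc (K : Type u) [Field K] {n : ℕ} (i : Fin (n + 1)) : K →+* Γ(PP K n, UU K n i) :=
  (Proj.awayToSection (gr K n) (MvPolynomial.X i)).hom.comp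
    ((fromZeroRingHom (gr K n) (Submonoid.powers (MvPolynomial.X i))).comp
      (algebraMap K (gr K n 0)))

lemma cc_apply (i : Fin (n + 1)) (c : K) (hc : MvPolynomial.C c ∈ gr K n (0 * 1)) :
    cc K i c = fr (X_mem i) 0 (MvPolynomial.C c) hc := by
  change Proj.awayToSection (gr K n) _ (fromZeroRingHom (gr K n)
    (Submonoid.powers (MvPolynomial.X i)) (algebraMap K (gr K n 0) c)) = _
  rw [fr]
  congr 1

/-- evaluation at the affine coordinates -/
noncomputable def psi (i : Fin (n + 1)) :
    MvPolynomial (Fin (n + 1)) K →+* Γ(PP K n, UU K n i) :=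
  MvPolynomial.eval₂Hom (cc K i) (fun j => co i j)

lemma fr_cast {f : MvPolynomial (Fin (n + 1)) K} {d : ℕ} (hf : f ∈ gr K n d) (k : ℕ)
    {a b : MvPolynomial (Fin (n + 1)) K} (ha : a ∈ gr K n (k * d)) (hab : a = b) :
    fr hf k a ha = fr hf k b (hab ▸ ha) := by
  subst hab
  rfl

lemma psi_monomial (i : Fin (n + 1)) (d : Fin (n + 1) →₀ ℕ) (c : K) :
    ∃ (k : ℕ) (h : MvPolynomial.monomial d c ∈ gr K n (k * 1)),
      psi i (MvPolynomial.monomial d c) = fr (X_mem i) k (MvPolynomial.monomial d c) h := by
  induction d using Finsupp.induction with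
  | zero =>
    have hc : MvPolynomial.C c ∈ gr K n (0 * 1) := MvPolynomial.isHomogeneous_C _ c
    refine ⟨0, hc, ?_⟩
    have h1 : psi i (MvPolynomial.C c) = cc K i c := by
      rw [psi, MvPolynomial.coe_eval₂Hom, MvPolynomial.eval₂_C]
    exact h1.trans (cc_apply i c hc)
  | single_add j m d _ _ ih =>
    obtain ⟨k, h, hk⟩ := ih
    have h1 : MvPolynomial.monomial (Finsupp.single j m + d) c =
        MvPolynomial.X j ^ m * MvPolynomial.monomial d c := by
      rw [MvPolynomial.X_pow_eq_monomial, MvPolynomial.monomial_mul, one_mul]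
    have h2 : (MvPolynomial.X j : MvPolynomial (Fin (n + 1)) K) ^ m ∈ gr K n (m * 1) := by
      simpa using SetLike.pow_mem_graded m (X_mem (K := K) j)
    have h3 : ∀ m, ∀ h2 : (MvPolynomial.X j : MvPolynomial (Fin (n + 1)) K) ^ m ∈ gr K n (m * 1),
        co (K := K) i j ^ m = fr (X_mem i) m _ h2 := by
      intro m
      induction m with
      | zero =>
        intro h2
        rw [pow_zero, ← fr_one (X_mem i) (by simpa using h2)]
        exact fr_cast _ _ _ (pow_zero _).symm
      | succ m ih =>
        intro h2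
        have h4 : (MvPolynomial.X j : MvPolynomial (Fin (n + 1)) K) ^ m ∈ gr K n (m * 1) := by
          simpa using SetLike.pow_mem_graded m (X_mem (K := K) j)
        rw [pow_succ, ih h4, co, fr_mul]
        rfl
    have h4 : psi i (MvPolynomial.X j ^ m) = co (K := K) i j ^ m := by
      rw [map_pow, psi, MvPolynomial.coe_eval₂Hom, MvPolynomial.eval₂_X]
    refine ⟨m + k, by rw [h1]; exact mul_mem_gr h2 h (by ring), ?_⟩
    refine (congrArg (psi i) h1).trans ?_
    rw [map_mul, h4, h3 m h2, hk, fr_mul]
    exact fr_cast _ _ _ h1.symm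

lemma psi_homogeneous (i : Fin (n + 1)) (k : ℕ) (a : MvPolynomial (Fin (n + 1)) K)
    (ha : a ∈ gr K n (k * 1)) : psi i a = fr (X_mem i) k a ha := by
  have key : ∃ h : a ∈ gr K n (k * 1), psi i a = fr (X_mem i) k a h := by
    rw [← MvPolynomial.support_sum_monomial_coeff a]
    refine Finset.sum_induction _ (fun a => ∃ h : a ∈ gr K n (k * 1),
      psi i a = fr (X_mem i) k a h) ?_ ?_ ?_
    · rintro a b ⟨ha, ha'⟩ ⟨hb, hb'⟩
      exact ⟨add_mem ha hb, by rw [map_add, ha', hb', fr_add]⟩
    · exact ⟨zero_mem _, by rw [map_zero, fr_zero]⟩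
    · intro d hd
      have h1 : MvPolynomial.monomial d (MvPolynomial.coeff d a) ∈ gr K n (k * 1) := by
        apply MvPolynomial.isHomogeneous_monomial
        have h2 := ha (MvPolynomial.mem_support_iff.1 hd)
        rw [← h2, Finsupp.degree_eq_weight_one]
        rfl
      refine ⟨h1, ?_⟩
      obtain ⟨l, h, hl⟩ := psi_monomial i d (MvPolynomial.coeff d a)
      rw [hl]
      have hne : MvPolynomial.monomial d (MvPolynomial.coeff d a) ≠ 0 := by
        rw [ne_eq, MvPolynomial.monomial_eq_zero]
        exact MvPolynomial.mem_support_iff.1 hd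
      have h3 := MvPolynomial.IsHomogeneous.inj_right h h1 hne
      have h4 : l = k := by omega
      subst h4
      rfl
  obtain ⟨_, h⟩ := key
  exact h

lemma psi_surjective (i : Fin (n + 1)) : Function.Surjective (psi (K := K) i) := by
  intro s
  obtain ⟨k, a, ha, rfl⟩ := exists_fr (X_mem i) one_pos s
  exact ⟨a, psi_homogeneous i k a ha⟩

/-- dehomogenization -/
noncomputable def deh (K : Type u) [Field K] {n : ℕ} (i : Fin (n + 1)) :
    MvPolynomial (Fin (n + 1)) K →+* MvPolynomial (Fin n) K :=
  MvPolynomial.eval₂Hom MvPolynomial.C (fun j =>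
    if h : ∃ k, i.succAbove k = j then MvPolynomial.X h.choose else 1)

lemma deh_X_self (i : Fin (n + 1)) : deh K i (MvPolynomial.X i) = 1 := by
  rw [deh, MvPolynomial.coe_eval₂Hom, MvPolynomial.eval₂_X, dif_neg]
  rintro ⟨k, hk⟩
  exact Fin.succAbove_ne i k hk

lemma deh_X_succAbove (i : Fin (n + 1)) (k : Fin n) :
    deh K i (MvPolynomial.X (i.succAbove k)) = MvPolynomial.X k := by
  have h : ∃ k', i.succAbove k' = i.succAbove k := ⟨k, rfl⟩
  rw [deh, MvPolynomial.coe_eval₂Hom, MvPolynomial.eval₂_X, dif_pos h]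
  rw [Fin.succAbove_right_injective h.choose_spec]

/-- affine coordinates -/
noncomputable def phi (i : Fin (n + 1)) : MvPolynomial (Fin n) K →+* Γ(PP K n, UU K n i) :=
  MvPolynomial.eval₂Hom (cc K i) (fun j => co i (i.succAbove j))

lemma phi_deh (i : Fin (n + 1)) (a : MvPolynomial (Fin (n + 1)) K) :
    phi i (deh K i a) = psi i a := by
  have h : (phi i).comp (deh K i) = psi i := by
    apply MvPolynomial.ringHom_ext
    · intro r
      rw [RingHom.comp_apply, deh, MvPolynomial.coe_eval₂Hom, MvPolynomial.eval₂_C, phi,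
        MvPolynomial.coe_eval₂Hom, MvPolynomial.eval₂_C, psi, MvPolynomial.coe_eval₂Hom,
        MvPolynomial.eval₂_C]
    · intro j
      rw [RingHom.comp_apply]
      have h1 : psi i (MvPolynomial.X j) = co (K := K) i j := by
        rw [psi, MvPolynomial.coe_eval₂Hom, MvPolynomial.eval₂_X]
      rcases Fin.eq_self_or_eq_succAbove i j with rfl | ⟨k, rfl⟩
      · rw [deh_X_self, map_one, h1, co_self]
      · rw [deh_X_succAbove, h1, phi, MvPolynomial.coe_eval₂Hom, MvPolynomial.eval₂_X]
  exact congr($h a)

lemma phi_surjective (i : Fin (n + 1)) : Function.Surjective (phi (K := K) i) := by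
  intro s
  obtain ⟨a, rfl⟩ := psi_surjective i s
  exact ⟨deh K i a, phi_deh i a⟩

lemma phi_injective (i : Fin (n + 1)) : Function.Injective (phi (K := K) i) := by
  -- a retraction
  have hu : ∀ y : Submonoid.powers (MvPolynomial.X i : MvPolynomial (Fin (n + 1)) K),
      IsUnit (deh K i y) := by
    rintro ⟨_, k, rfl⟩
    rw [map_pow, deh_X_self, one_pow]
    exact isUnit_one
  let θ : Away (gr K n) (MvPolynomial.X i : MvPolynomial (Fin (n + 1)) K) →+*
      MvPolynomial (Fin n) K :=
    (IsLocalization.lift hu).comp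
      (algebraMap (Away (gr K n) (MvPolynomial.X i : MvPolynomial (Fin (n + 1)) K))
        (Localization.Away (MvPolynomial.X i : MvPolynomial (Fin (n + 1)) K)))
  have hθ : ∀ (k : ℕ) (a : MvPolynomial (Fin (n + 1)) K) (ha : a ∈ gr K n (k * 1)),
      θ (Away.mk (gr K n) (X_mem i) k a ha) = deh K i a := by
    intro k a ha
    change IsLocalization.lift hu ((Away.mk (gr K n) (X_mem i) k a ha).val) = _
    rw [Away.val_mk, Localization.mk_eq_mk', IsLocalization.lift_mk'_spec]
    change _ = deh K i (MvPolynomial.X i ^ k) * _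
    rw [map_pow, deh_X_self, one_pow, one_mul]
  have hb := awayToSection_bijective (X_mem (K := K) i) one_pos
  intro a b hab
  have hc : ∀ p : MvPolynomial (Fin n) K, ∀ z, Proj.awayToSection (gr K n) (MvPolynomial.X i) z =
      phi i p → θ z = p := by
    intro p
    have h1 : θ.comp ((RingEquiv.ofBijective (Proj.awayToSection (gr K n)
      (MvPolynomial.X i)).hom hb).symm.toRingHom.comp (phi i)) = RingHom.id _ := by
      apply MvPolynomial.ringHom_ext
      · intro c
        have hc : MvPolynomial.C c ∈ gr K n (0 * 1) := MvPolynomial.isHomogeneous_C _ c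
        have h2 : phi i (MvPolynomial.C c) = cc K i c := by
          rw [phi, MvPolynomial.coe_eval₂Hom, MvPolynomial.eval₂_C]
        change θ ((RingEquiv.ofBijective (Proj.awayToSection (gr K n)
          (MvPolynomial.X i)).hom hb).symm (phi i _)) = _
        rw [h2, cc_apply i c hc]
        rw [show fr (X_mem i) 0 (MvPolynomial.C c) hc = (RingEquiv.ofBijective
          (Proj.awayToSection (gr K n) (MvPolynomial.X i)).hom hb)
          (Away.mk (gr K n) (X_mem i) 0 _ hc) from rfl, RingEquiv.symm_apply_apply, hθ]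
        rw [deh, MvPolynomial.coe_eval₂Hom, MvPolynomial.eval₂_C]
        rfl
      · intro k
        have h2 : phi i (MvPolynomial.X k) = co (K := K) i (i.succAbove k) := by
          rw [phi, MvPolynomial.coe_eval₂Hom, MvPolynomial.eval₂_X]
        change θ ((RingEquiv.ofBijective (Proj.awayToSection (gr K n)
          (MvPolynomial.X i)).hom hb).symm (phi i _)) = _
        rw [h2, co]
        rw [show fr (X_mem i) 1 (MvPolynomial.X (i.succAbove k))
          (by simpa using X_mem (i.succAbove k)) = (RingEquiv.ofBijective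
          (Proj.awayToSection (gr K n) (MvPolynomial.X i)).hom hb)
          (Away.mk (gr K n) (X_mem i) 1 _ (by simpa using X_mem (i.succAbove k))) from rfl,
          RingEquiv.symm_apply_apply, hθ, deh_X_succAbove]
        rfl
    intro z hz
    have h2 : θ ((RingEquiv.ofBijective (Proj.awayToSection (gr K n)
        (MvPolynomial.X i)).hom hb).symm (phi i p)) = p := congr($h1 p)
    rw [← hz] at h2
    have h3 : (RingEquiv.ofBijective (Proj.awayToSection (gr K n)
        (MvPolynomial.X i)).hom hb).symm (Proj.awayToSection (gr K n) (MvPolynomial.X i) z) = z :=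
      RingEquiv.symm_apply_apply _ z
    rw [h3] at h2
    exact h2
  obtain ⟨z, hz⟩ := hb.2 (phi i a)
  rw [← hc a z hz, ← hc b z (hz.trans hab)]

/-- functions on a chart -/
noncomputable def chartEquiv (i : Fin (n + 1)) : MvPolynomial (Fin n) K ≃+* Γ(PP K n, UU K n i) :=
  RingEquiv.ofBijective (phi i) ⟨phi_injective i, phi_surjective i⟩

instance isNoetherianRing_chart (i : Fin (n + 1)) : IsNoetherianRing Γ(PP K n, UU K n i) :=
  isNoetherianRing_of_ringEquiv _ (chartEquiv i)

end Pool.Agent.W506
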