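import Pool.Agent.W506.L1
import Pool.Agent.W506.P5

/-!
Line bundles on projective space and extension of sections.
-/

universe u

open CategoryTheory Limits TopologicalSpace AlgebraicGeometry HomogeneousLocalization

namespace Pool.Agent.W506

set_option backward.isDefEq.respectTransparency false

attribute [local instance] MvPolynomial.gradedAlgebra

variable {K : Type u} [Field K] {n : ℕ}

lemma basicOpen_co (j i : Fin (n + 1)) :
    (PP K n).basicOpen (co j i) = UU K n j ⊓ UU K n i := by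
  apply le_antisymm
  · refine le_inf ((PP K n).basicOpen_le _) ?_
    intro x hx
    obtain ⟨hxj, hu⟩ := (Scheme.mem_basicOpen'' _ _ _).1 hx
    have h1 : IsUnit ((Proj.stalkIso' (gr K n) x)
      ((ProjectiveSpectrum.Proj.structureSheaf (gr K n)).presheaf.germ _ x hxj (co j i))) :=
      hu.map (Proj.stalkIso' (gr K n) x)
    rw [Proj.stalkIso'_germ, ← isUnit_iff_isUnit_val] at h1
    have h2 := ProjectiveSpectrum.Proj.awayToSection_apply (gr K n)
      (MvPolynomial.X j : MvPolynomial (Fin (n + 1)) K)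
      (Away.mk (gr K n) (X_mem j) 1 (MvPolynomial.X i) (by simpa using X_mem i)) ⟨x, hxj⟩
    have h3 := h2 ▸ h1
    rw [Away.val_mk, Localization.mk_eq_mk', IsLocalization.map_mk',
      IsLocalization.AtPrime.isUnit_mk'_iff] at h3
    exact h3
  · have h1 := isUnit_co (K := K) j i
    have h2 : (PP K n).basicOpen (ro (inf_le_left : UU K n j ⊓ UU K n i ≤ _) (co j i)) =
        UU K n j ⊓ UU K n i := Scheme.basicOpen_of_isUnit _ h1
    have h3 := (PP K n).basicOpen_res (co (K := K) j i)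
      (homOfLE (inf_le_left : UU K n j ⊓ UU K n i ≤ _)).op
    rw [← h2]
    exact h3.le.trans inf_le_right

lemma co_mulV (i j k : Fin (n + 1)) {V : (PP K n).Opens} (hj : V ≤ UU K n j)
    (hk : V ≤ UU K n k) : ro hj (co j i) * ro hk (co k j) = ro hk (co k i) := by
  have h := congrArg (ro (le_inf hk hj)) (co_mul (K := K) k j i)
  rw [map_mul, ro_ro, ro_ro, ro_ro] at h
  exact h

section

variable {X : Scheme.{u}}

lemma QCOn.ext' {N : X.Modules} {W W' D : X.Opens} (h : QCOn N W) (hW' : IsAffineOpen W')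
    (hle : W' ≤ W) (f : Γ(X, W')) (hD : X.basicOpen f = D) (hDW : D ≤ W') (s : Γ(N, D)) :
    ∃ (k : ℕ) (t : Γ(N, W')), rs N hDW t = ro hDW f ^ k • s := by
  subst hD
  exact h.ext W' hW' hle f s

lemma QCOn.uniq' {N : X.Modules} {W W' D : X.Opens} (h : QCOn N W) (hW' : IsAffineOpen W')
    (hle : W' ≤ W) (f : Γ(X, W')) (hD : X.basicOpen f = D) (hDW : D ≤ W') (t : Γ(N, W'))
    (ht : rs N hDW t = 0) : ∃ k : ℕ, f ^ k • t = 0 := by
  subst hD
  exact h.uniq W' hW' hle f t ht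

lemma basicOpen_ro' {U V : X.Opens} (h : V ≤ U) (f : Γ(X, U)) :
    X.basicOpen (ro h f) = V ⊓ X.basicOpen f := X.basicOpen_res f (homOfLE h).op

end

/-- transition functions of the line bundle of degree `-d` -/
noncomputable def gt (K : Type u) [Field K] {n : ℕ} (d : ℕ) (j k : Fin (n + 1)) :
    Γ(PP K n, UU K n j ⊓ UU K n k) := ro inf_le_right (co k j) ^ d

lemma exists_compat {M : (PP K n).Modules} (hM : ∀ j, QCOn M (UU K n j)) (i : Fin (n + 1))
    (s : Γ(M, UU K n i)) :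
    ∃ (d : ℕ) (t : ∀ j, Γ(M, UU K n j)), Compat (UU K n) (gt K d) t ∧ t i = s := by
  classical
  -- first extension
  have h1 : ∀ j, ∃ (k : ℕ) (t : Γ(M, UU K n j)), rs M (inf_le_left : UU K n j ⊓ UU K n i ≤ _) t =
      ro (inf_le_left : UU K n j ⊓ UU K n i ≤ UU K n j) (co (K := K) j i) ^ k •
        rs M (inf_le_right : UU K n j ⊓ UU K n i ≤ UU K n i) s := fun j =>
    (hM j).ext' (isAffineOpen_UU j) le_rfl (co (K := K) j i) (basicOpen_co j i) inf_le_left _
  choose k t ht using h1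
  have hK : ∀ j, ∃ l, ∑ j, k j = l + k j := fun i => ⟨∑ j ∈ Finset.univ.erase i, k j,
    (Finset.sum_erase_add _ _ (Finset.mem_univ i)).symm⟩
  choose l hl using hK
  obtain ⟨d, hd⟩ : ∃ d, d = ∑ j, k j := ⟨_, rfl⟩
  obtain ⟨t₁, ht₁⟩ : ∃ t₁ : ∀ j, Γ(M, UU K n j), ∀ j,
      rs M (inf_le_left : UU K n j ⊓ UU K n i ≤ UU K n j) (t₁ j) =
      ro (inf_le_left : UU K n j ⊓ UU K n i ≤ UU K n j) (co (K := K) j i) ^ d •
        rs M (inf_le_right : UU K n j ⊓ UU K n i ≤ UU K n i) s := by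
    refine ⟨fun j => co (K := K) j i ^ l j • t j, fun j => ?_⟩
    rw [rs_smul, ht, map_pow, smul_smul, ← pow_add, hd, hl j]
  -- vanishing of differences
  have h2 : ∀ p : Fin (n + 1) × Fin (n + 1), ∃ m : ℕ,
      ro (inf_le_right : UU K n p.1 ⊓ UU K n p.2 ≤ UU K n p.2) (co (K := K) p.2 i) ^ m •
        (rs M (inf_le_right : UU K n p.1 ⊓ UU K n p.2 ≤ _) (t₁ p.2) -
          ro (inf_le_right : UU K n p.1 ⊓ UU K n p.2 ≤ UU K n p.2) (co (K := K) p.2 p.1) ^ d •
            rs M (inf_le_left : UU K n p.1 ⊓ UU K n p.2 ≤ _) (t₁ p.1)) = 0 := by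
    rintro ⟨j, k⟩
    refine (hM k).uniq' (D := (UU K n j ⊓ UU K n k) ⊓ UU K n i) (isAffineOpen_UU_inf j k)
      inf_le_right _ ?_ inf_le_left _ ?_
    · change (PP K n).basicOpen (ro (inf_le_right : UU K n j ⊓ UU K n k ≤ _) (co (K := K) k i)) = _
      rw [basicOpen_ro', basicOpen_co, ← inf_assoc]
      congr 1
      exact inf_eq_left.2 inf_le_right
    · rw [map_sub, rs_smul, rs_rs, rs_rs, sub_eq_zero, map_pow, ro_ro]
      have e1 := congrArg (rs M (le_inf (inf_le_left.trans inf_le_left) inf_le_right :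
        (UU K n j ⊓ UU K n k) ⊓ UU K n i ≤ UU K n j ⊓ UU K n i)) (ht₁ j)
      have e2 := congrArg (rs M (le_inf (inf_le_left.trans inf_le_right) inf_le_right :
        (UU K n j ⊓ UU K n k) ⊓ UU K n i ≤ UU K n k ⊓ UU K n i)) (ht₁ k)
      rw [rs_rs, rs_smul, rs_rs, map_pow, ro_ro] at e1 e2
      change rs M _ (t₁ k) = ro _ (co (K := K) k j) ^ d • rs M _ (t₁ j)
      rw [e1, e2, smul_smul, ← mul_pow]
      congr 2
      rw [mul_comm]
      exact (co_mulV i j k _ _).symm
  choose m hm using h2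
  have hK' : ∀ p, ∃ l, ∑ p, m p = l + m p := fun i => ⟨∑ j ∈ Finset.univ.erase i, m j,
    (Finset.sum_erase_add _ _ (Finset.mem_univ i)).symm⟩
  choose l' hl' using hK'
  obtain ⟨N, hN⟩ : ∃ N, N = ∑ p, m p := ⟨_, rfl⟩
  refine ⟨d + N, fun j => co (K := K) j i ^ N • t₁ j, ?_, ?_⟩
  · intro j k
    change rs M _ (co (K := K) k i ^ N • t₁ k) =
      ro (inf_le_right : UU K n j ⊓ UU K n k ≤ _) (co (K := K) k j) ^ (d + N) •
        rs M _ (co (K := K) j i ^ N • t₁ j)
    rw [rs_smul, rs_smul, smul_smul]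
    have e1 : ro (inf_le_right : UU K n j ⊓ UU K n k ≤ _) (co (K := K) k j) ^ (d + N) *
        ro (inf_le_left : UU K n j ⊓ UU K n k ≤ _) (co (K := K) j i ^ N) =
        ro (inf_le_right : UU K n j ⊓ UU K n k ≤ _) (co (K := K) k i) ^ N *
          ro (inf_le_right : UU K n j ⊓ UU K n k ≤ _) (co (K := K) k j) ^ d := by
      rw [← co_mulV i j k (inf_le_left : UU K n j ⊓ UU K n k ≤ _) inf_le_right, map_pow]
      ring
    rw [e1, mul_smul, map_pow, ← sub_eq_zero, ← smul_sub, hN, hl' (j, k), pow_add, mul_smul,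
      hm (j, k), smul_zero]
  · change co (K := K) i i ^ N • t₁ i = s
    rw [co_self, one_pow, one_smul]
    apply (rs_bijective (N := M) (inf_le_left : UU K n i ⊓ UU K n i ≤ _) (le_inf le_rfl le_rfl)).1
    rw [ht₁, co_self, map_one, one_pow, one_smul]

end Pool.Agent.W506
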