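import Pool.Agent.W506.L2

/-!
Covers of coherent modules on projective space by vector bundles.
-/

universe u

open CategoryTheory Limits TopologicalSpace AlgebraicGeometry

namespace Pool.Agent.W506

set_option backward.isDefEq.respectTransparency false

variable {K : Type u} [Field K] {n : ℕ}

/-- modules with a basis on each standard chart -/
def FreeCh (Q : (PP K n).Modules) : Prop :=
  ∀ i, ∃ (r : ℕ) (e : Fin r → Γ(Q, UU K n i)), IsBasisOn e

/-- coherence on the standard charts -/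
def CohCh (M : (PP K n).Modules) : Prop :=
  ∀ i, QCOn M (UU K n i) ∧ Module.Finite Γ(PP K n, UU K n i) Γ(M, UU K n i)

lemma FreeCh.isVB {Q : (PP K n).Modules} (h : FreeCh Q) : IsVB Q := by
  intro x
  have hx : x ∈ (⨆ i, UU K n i) := by rw [iSup_UU]; trivial
  obtain ⟨i, hi⟩ := Opens.mem_iSup.1 hx
  obtain ⟨r, e, he⟩ := h i
  exact ⟨UU K n i, hi, r, e, he⟩

lemma FreeCh.cohCh {Q : (PP K n).Modules} (h : FreeCh Q) : CohCh Q := by
  intro i
  obtain ⟨r, e, he⟩ := h i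
  exact ⟨he.qcOn, Module.Finite.equiv (he.equiv le_rfl)⟩

lemma FreeCh.biprod {M N : (PP K n).Modules} (hM : FreeCh M) (hN : FreeCh N) :
    FreeCh (M ⊞ N) := by
  intro i
  obtain ⟨r, e, he⟩ := hM i
  obtain ⟨r', e', he'⟩ := hN i
  exact ⟨r + r', _, isBasisOn_biprod he he'⟩

lemma FreeCh.zero {M : (PP K n).Modules} (hM : IsZero M) : FreeCh M := by
  intro i
  refine ⟨0, fun i => i.elim0, ?_⟩
  intro V hV
  constructor
  · intro a b _
    funext i
    exact i.elim0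
  · intro b
    exact ⟨fun i => i.elim0, @Subsingleton.elim _ (subsingleton_of_isZero hM V) _ _⟩

lemma exists_lineBundle (K : Type u) [Field K] (n d : ℕ) :
    ∃ (L : (PP K n).Modules) (e : ∀ j, Γ(L, UU K n j)), FreeCh L ∧
      ∀ (M : (PP K n).Modules) (t : ∀ j, Γ(M, UU K n j)), Compat (UU K n) (gt K d) t →
        ∃ f : L ⟶ M, ∀ j, ap f _ (e j) = t j := by
  obtain ⟨L, e, he, hex, huniq⟩ := exists_glued (UU K n) (gt K d)
  refine ⟨L, e, fun i => ⟨1, _, isBasisOn_glued (UU K n) (gt K d) ?_ ?_ L e he hex huniq i⟩, hex⟩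
  · intro i
    rw [gt, co_self, map_one, one_pow]
  · intro i j k
    rw [gt, gt, gt, map_pow, map_pow, map_pow, ro_ro, ro_ro, ro_ro, ← mul_pow,
      ← co_mulV i j k ((inf_le_left.trans inf_le_right) : (UU K n i ⊓ UU K n j) ⊓ UU K n k ≤ _)
        inf_le_right]

lemma exists_cover {M : (PP K n).Modules} (hM : ∀ j, QCOn M (UU K n j))
    (T : List (Σ i, Γ(M, UU K n i))) :
    ∃ Q : (PP K n).Modules, FreeCh Q ∧ ∃ φ : Q ⟶ M, ∀ p ∈ T, ∃ y, ap φ (UU K n p.1) y = p.2 := by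
  induction T with
  | nil =>
    exact ⟨_, FreeCh.zero (isZero_zero _), 0, fun p hp => absurd hp (by simp)⟩
  | cons p T ih =>
    obtain ⟨Q, hQ, φ, hφ⟩ := ih
    obtain ⟨d, t, ht, hti⟩ := exists_compat hM p.1 p.2
    obtain ⟨L, e, hL, hex⟩ := exists_lineBundle K n d
    obtain ⟨f, hf⟩ := hex M t ht
    refine ⟨L ⊞ Q, hL.biprod hQ, biprod.desc f φ, ?_⟩
    intro p' hp'
    rcases List.mem_cons.1 hp' with rfl | hp'
    · refine ⟨ap (biprod.inl : L ⟶ L ⊞ Q) _ (e p'.1), ?_⟩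
      rw [← ap_comp, biprod.inl_desc, hf, hti]
    · obtain ⟨y, hy⟩ := hφ p' hp'
      refine ⟨ap (biprod.inr : Q ⟶ L ⊞ Q) _ y, ?_⟩
      rw [← ap_comp, biprod.inr_desc, hy]

theorem exists_surj {M : (PP K n).Modules} (hM : CohCh M) :
    ∃ Q : (PP K n).Modules, FreeCh Q ∧ ∃ φ : Q ⟶ M,
      ∀ i, Function.Surjective (ap φ (UU K n i)) := by
  classical
  have h1 : ∀ i, ∃ S : Finset Γ(M, UU K n i),
      Submodule.span Γ(PP K n, UU K n i) (S : Set Γ(M, UU K n i)) = ⊤ := fun i => (hM i).2.1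
  choose S hS using h1
  let T : List (Σ i, Γ(M, UU K n i)) :=
    (List.finRange (n + 1)).flatMap (fun i => (S i).toList.map (fun s => ⟨i, s⟩))
  obtain ⟨Q, hQ, φ, hφ⟩ := exists_cover (fun j => (hM j).1) T
  refine ⟨Q, hQ, φ, fun i => ?_⟩
  rw [← LinearMap.range_eq_top, eq_top_iff, ← hS i, Submodule.span_le]
  intro s hs
  exact hφ ⟨i, s⟩ (by
    simp only [T, List.mem_flatMap, List.mem_map]
    exact ⟨i, List.mem_finRange i, s, by simpa using hs, rfl⟩)

lemma epi_of_surj {M Q : (PP K n).Modules} (hM : ∀ i, QCOn M (UU K n i)) (φ : Q ⟶ M)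
    (h : ∀ i, Function.Surjective (ap φ (UU K n i))) : Epi φ := by
  apply epi_of_locally_surj
  intro V s x hx
  have hx' : x ∈ (⨆ i, UU K n i) := by rw [iSup_UU]; trivial
  obtain ⟨i, hi⟩ := Opens.mem_iSup.1 hx'
  obtain ⟨f, hle, hxf⟩ := (isAffineOpen_UU (K := K) i).exists_basicOpen_le (V := V) ⟨x, hx⟩ hi
  obtain ⟨k, t, ht⟩ := (hM i).ext _ (isAffineOpen_UU i) le_rfl f (rs M hle s)
  obtain ⟨y, rfl⟩ := h i t
  obtain ⟨v, hv⟩ := (isUnit_ro_basicOpen f).exists_left_inv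
  refine ⟨_, hle, hxf, v ^ k • rs Q ((PP K n).basicOpen_le f) y, ?_⟩
  rw [map_smul, ap_rs, ht, smul_smul, ← mul_pow, hv, one_pow, one_smul]

end Pool.Agent.W506
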