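import Pool.Agent.W506.L3
import Pool.Agent.W506.H2
import Pool.Agent.W506.E2

/-!
Finite resolutions on projective space.
-/

universe u

open CategoryTheory Limits TopologicalSpace AlgebraicGeometry

namespace Pool.Agent.W506

set_option backward.isDefEq.respectTransparency false

section

variable {X : Scheme.{u}}

/-- isomorphisms on sections -/
noncomputable def apEquiv {M N : X.Modules} (e : M ≅ N) (U : X.Opens) :
    Γ(M, U) ≃ₗ[Γ(X, U)] Γ(N, U) :=
  LinearEquiv.ofBijective (ap e.hom U) (ap_bijective_of_isIso e.hom U)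

lemma isoOn_iso {M N : X.Modules} (e : M ≅ N) (U : X.Opens) : IsoOn e.hom U :=
  fun V _ => ap_bijective_of_isIso e.hom V

end

variable {K : Type u} [Field K] {n : ℕ}

lemma CohCh.iso {M N : (PP K n).Modules} (e : M ≅ N) (h : CohCh M) : CohCh N := by
  intro i
  have := (h i).2
  exact ⟨(h i).1.map (isoOn_iso e _), Module.Finite.equiv (apEquiv e _)⟩

lemma CohCh.biprod {M N : (PP K n).Modules} (hM : CohCh M) (hN : CohCh N) :
    CohCh (M ⊞ N) := by
  intro i
  refine ⟨qcOn_biprod (hM i).1 (hN i).1, ?_⟩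
  have := (hM i).2
  have := (hN i).2
  refine Module.Finite.of_surjective (LinearMap.coprod
    (ap (biprod.inl : M ⟶ M ⊞ N) (UU K n i)) (ap (biprod.inr : N ⟶ M ⊞ N) (UU K n i))) ?_
  intro s
  exact ⟨(ap (biprod.fst : M ⊞ N ⟶ M) _ s, ap (biprod.snd : M ⊞ N ⟶ N) _ s),
    (biprod_section s).symm⟩

lemma CohCh.kernel (S : ShortComplex (PP K n).Modules) (hS : S.ShortExact) (h₂ : CohCh S.X₂)
    (h₃ : CohCh S.X₃) : CohCh S.X₁ := by
  intro i
  have := hS.mono_f
  have h5 := (h₂ i).2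
  refine ⟨qcOn_kernel S hS.exact (h₂ i).1 (h₃ i).1, ?_⟩
  exact Module.Finite.of_injective (ap S.f (UU K n i)) (ap_injective S.f _)

lemma FreeCh.iso {M N : (PP K n).Modules} (e : M ≅ N) (h : FreeCh M) : FreeCh N := by
  intro i
  obtain ⟨r, b, hb⟩ := h i
  exact ⟨r, _, hb.map e.hom (isoOn_iso e _)⟩

/-- projective dimension on the charts -/
def PdCh (j : ℕ) (M : (PP K n).Modules) : Prop :=
  ∀ i, Hilb.PdLT Γ(PP K n, UU K n i) Γ(M, UU K n i) (j + 1)

lemma PdCh.isVB {M : (PP K n).Modules} (hC : CohCh M) (h : PdCh 0 M) : IsVB M := by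
  intro x
  have hx : x ∈ (⨆ i, UU K n i) := by rw [iSup_UU]; trivial
  obtain ⟨i, hi⟩ := Opens.mem_iSup.1 hx
  have := (hC i).2
  have := Hilb.projective_of_pdLT_one (h i)
  obtain ⟨U, hxU, -, r, e, he⟩ := exists_basis_of_projective (isAffineOpen_UU i) (hC i).1 x hi
  exact ⟨U, hxU, r, e, he⟩

lemma PdCh.kernel (j : ℕ) (S : ShortComplex (PP K n).Modules) (hS : S.ShortExact)
    (h₂ : FreeCh S.X₂) (h₃ : CohCh S.X₃) (hd : PdCh (j + 1) S.X₃) : PdCh j S.X₁ := by
  intro i
  have := hS.mono_f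
  have := hS.epi_g
  obtain ⟨r, e, he⟩ := h₂ i
  have hq : QCOn S.X₁ (UU K n i) := qcOn_kernel S hS.exact he.qcOn (h₃ i).1
  have hsurj := ap_surjective_of_sumOn S hS hq.sumOn (isAffineOpen_UU i) le_rfl
  have hfree : Module.Free Γ(PP K n, UU K n i) Γ(S.X₂, UU K n i) :=
    Module.Free.of_equiv (he.equiv le_rfl)
  have hex : Function.Exact (ap S.f (UU K n i)) (ap S.g (UU K n i)) := by
    intro y
    constructor
    · intro hy
      exact ap_exact S hS.exact _ _ hy
    · rintro ⟨z, rfl⟩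
      rw [← ap_comp, S.zero]
      rfl
  exact Hilb.pdLT_left _ _ (ap_injective S.f _) hsurj hex
    (Hilb.pdLT_mono (by omega) (Hilb.pdLT_one_of_projective inferInstance)) (hd i)

lemma pdCh_top (M : (PP K n).Modules) : PdCh n M := by
  intro i
  let : Module (MvPolynomial (Fin n) K) Γ(M, UU K n i) :=
    Module.compHom _ (chartEquiv (K := K) i).toRingHom
  exact Hilb.pdLT_of_ringEquiv (chartEquiv i) Γ(M, UU K n i) Γ(M, UU K n i) (AddEquiv.refl _)
    (fun r m => rfl) (Hilb.hilbert_syzygy K n Γ(M, UU K n i))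

theorem resData (K : Type u) [Field K] (n : ℕ) [HasDerivedCategory (PP K n).Modules] :
    ResData (A := (PP K n).Modules) IsVB CohCh FreeCh PdCh n where
  isoV := fun e h => h.of_iso e
  sumV := fun _ _ hX hY => hX.biprod hY
  zeroV := fun _ h => isVB_of_isZero h
  isoC := fun e h => h.iso e
  sumC := fun _ _ hX hY => hX.biprod hY
  zeroC := fun _ h => (FreeCh.zero h).cohCh
  kerC := fun S hS h₂ h₃ => CohCh.kernel S hS h₂ h₃
  isoF := fun e h => h.iso e
  isoD := fun j _ _ e h i => Hilb.pdLT_equiv (apEquiv e _) (h i)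
  FV := fun _ h => h.isVB
  FC := fun _ h => h.cohCh
  cov := fun M hM => by
    obtain ⟨Q, hQ, φ, hφ⟩ := exists_surj hM
    exact ⟨Q, φ, hQ, epi_of_surj (fun i => (hM i).1) φ hφ⟩
  dimV := fun M hM h => PdCh.isVB hM h
  dimK := fun j S hS h₂ h₃ hd => PdCh.kernel j S hS h₂ h₃ hd
  dimN := fun M _ => pdCh_top M

end Pool.Agent.W506
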