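import Pool.Agent.W506.G1
import Pool.Agent.W506.Defs

/-!
Charts of projective space.
-/

universe u

open CategoryTheory Limits TopologicalSpace AlgebraicGeometry HomogeneousLocalization

namespace Pool.Agent.W506

set_option backward.isDefEq.respectTransparency false

attribute [local instance] MvPolynomial.gradedAlgebra

variable (K : Type u) [Field K] (n : ℕ)

/-- the open set where `f` does not vanish -/
noncomputable abbrev DD (f : MvPolynomial (Fin (n + 1)) K) : (PP K n).Opens :=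
  Proj.basicOpen (gr K n) f

variable {K n}

/-- the function `a / f ^ k` -/
noncomputable def fr {f : MvPolynomial (Fin (n + 1)) K} {d : ℕ} (hf : f ∈ gr K n d) (k : ℕ)
    (a : MvPolynomial (Fin (n + 1)) K) (ha : a ∈ gr K n (k * d)) : Γ(PP K n, DD K n f) :=
  Proj.awayToSection (gr K n) f (Away.mk (gr K n) hf k a ha)

lemma awayToSection_bijective {f : MvPolynomial (Fin (n + 1)) K} {d : ℕ} (hf : f ∈ gr K n d)
    (hd : 0 < d) : Function.Bijective (Proj.awayToSection (gr K n) f) := by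
  have h := (Proj.basicOpenIsoAway (gr K n) f hf hd).isIso_hom
  rw [Proj.basicOpenIsoAway_hom] at h
  exact (ConcreteCategory.isIso_iff_bijective _).1 h

lemma exists_fr {f : MvPolynomial (Fin (n + 1)) K} {d : ℕ} (hf : f ∈ gr K n d)
    (hd : 0 < d) (s : Γ(PP K n, DD K n f)) :
    ∃ (k : ℕ) (a : MvPolynomial (Fin (n + 1)) K) (ha : a ∈ gr K n (k * d)), fr hf k a ha = s := by
  obtain ⟨z, rfl⟩ := (awayToSection_bijective hf hd).2 s
  obtain ⟨k, a, ha, rfl⟩ := Away.mk_surjective (gr K n) hf z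
  exact ⟨k, a, ha, rfl⟩

lemma fr_eq_iff {f : MvPolynomial (Fin (n + 1)) K} {d : ℕ} (hf : f ∈ gr K n d)
    (hd : 0 < d) (hf0 : f ≠ 0) (k : ℕ) (a : MvPolynomial (Fin (n + 1)) K)
    (ha : a ∈ gr K n (k * d)) (l : ℕ) (b : MvPolynomial (Fin (n + 1)) K)
    (hb : b ∈ gr K n (l * d)) : fr hf k a ha = fr hf l b hb ↔ f ^ l * a = f ^ k * b := by
  rw [fr, fr, (awayToSection_bijective hf hd).1.eq_iff, HomogeneousLocalization.ext_iff_val,
    Away.val_mk, Away.val_mk, Localization.mk_eq_mk_iff, Localization.r_iff_exists]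
  constructor
  · rintro ⟨⟨_, r, rfl⟩, hc⟩
    exact mul_left_cancel₀ (pow_ne_zero r hf0) hc
  · intro h
    exact ⟨1, by simpa using h⟩

lemma fr_add {f : MvPolynomial (Fin (n + 1)) K} {d : ℕ} (hf : f ∈ gr K n d)
    (k : ℕ) (a : MvPolynomial (Fin (n + 1)) K)
    (ha : a ∈ gr K n (k * d)) (b : MvPolynomial (Fin (n + 1)) K)
    (hb : b ∈ gr K n (k * d)) : fr hf k a ha + fr hf k b hb = fr hf k (a + b) (add_mem ha hb) := by
  rw [fr, fr, fr, ← map_add]
  congr 1
  rw [HomogeneousLocalization.ext_iff_val, val_add, Away.val_mk, Away.val_mk, Away.val_mk,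
    Localization.add_mk_self]

lemma mul_mem_gr {i j : ℕ} {a b : MvPolynomial (Fin (n + 1)) K} (ha : a ∈ gr K n i)
    (hb : b ∈ gr K n j) {l : ℕ} (hl : l = i + j) : a * b ∈ gr K n l := by
  subst hl
  exact MvPolynomial.IsHomogeneous.mul ha hb

lemma fr_mul {f : MvPolynomial (Fin (n + 1)) K} {d : ℕ} (hf : f ∈ gr K n d)
    (k : ℕ) (a : MvPolynomial (Fin (n + 1)) K)
    (ha : a ∈ gr K n (k * d)) (l : ℕ) (b : MvPolynomial (Fin (n + 1)) K)
    (hb : b ∈ gr K n (l * d)) : fr hf k a ha * fr hf l b hb =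
      fr hf (k + l) (a * b) (mul_mem_gr ha hb (add_mul k l d)) := by
  rw [fr, fr, fr, ← map_mul]
  congr 1
  rw [HomogeneousLocalization.ext_iff_val, val_mul, Away.val_mk, Away.val_mk, Away.val_mk,
    Localization.mk_mul]
  congr 1
  apply Subtype.ext
  exact (pow_add f k l).symm

lemma fr_one {f : MvPolynomial (Fin (n + 1)) K} {d : ℕ} (hf : f ∈ gr K n d)
    (h1 : (1 : MvPolynomial (Fin (n + 1)) K) ∈ gr K n (0 * d)) : fr hf 0 1 h1 = 1 := by
  rw [fr, ← map_one (Proj.awayToSection (gr K n) f).hom]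
  change (Proj.awayToSection (gr K n) f).hom _ = _
  congr 1
  rw [HomogeneousLocalization.ext_iff_val, Away.val_mk, val_one, ← Localization.mk_one]
  congr 1

lemma ro_fr {f g : MvPolynomial (Fin (n + 1)) K} {d e : ℕ} (hf : f ∈ gr K n d) (hg : g ∈ gr K n e)
    (hfg : f * g ∈ gr K n (d + e))
    (h : DD K n (f * g) ≤ DD K n f) (k : ℕ) (a : MvPolynomial (Fin (n + 1)) K)
    (ha : a ∈ gr K n (k * d)) :
    ro h (fr hf k a ha) = fr hfg k (a * g ^ k)
      (mul_mem_gr ha (SetLike.pow_mem_graded k hg) (by simp [mul_add])) := by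
  have h1 := Proj.awayMap_awayToSection (gr K n) (f := f) hg (x := f * g) rfl
  have h2 := congr($h1 (Away.mk (gr K n) hf k a ha))
  have h3 : ro h (fr hf k a ha) = Proj.awayToSection (gr K n) (f * g)
      (awayMap (gr K n) hg rfl (Away.mk (gr K n) hf k a ha)) := h2.symm
  rw [h3, fr]
  congr 1
  rw [HomogeneousLocalization.ext_iff_val, awayMap_mk, Away.val_mk]

lemma fr_zero {f : MvPolynomial (Fin (n + 1)) K} {d : ℕ} (hf : f ∈ gr K n d) (k : ℕ)
    (h0 : (0 : MvPolynomial (Fin (n + 1)) K) ∈ gr K n (k * d)) : fr hf k 0 h0 = 0 := by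
  rw [fr, ← map_zero (Proj.awayToSection (gr K n) f).hom]
  change (Proj.awayToSection (gr K n) f).hom _ = _
  congr 1
  rw [HomogeneousLocalization.ext_iff_val, Away.val_mk, val_zero, Localization.mk_zero]

lemma fr_eq_zero_iff {f : MvPolynomial (Fin (n + 1)) K} {d : ℕ} (hf : f ∈ gr K n d)
    (hd : 0 < d) (hf0 : f ≠ 0) (k : ℕ) (a : MvPolynomial (Fin (n + 1)) K)
    (ha : a ∈ gr K n (k * d)) : fr hf k a ha = 0 ↔ a = 0 := by
  rw [← fr_zero hf 0 (zero_mem _), fr_eq_iff hf hd hf0]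
  simp

lemma fr_add_eq {f : MvPolynomial (Fin (n + 1)) K} {d : ℕ} (hf : f ∈ gr K n d)
    (hd : 0 < d) (hf0 : f ≠ 0) (k : ℕ) (a : MvPolynomial (Fin (n + 1)) K)
    (ha : a ∈ gr K n (k * d)) (l : ℕ) (b : MvPolynomial (Fin (n + 1)) K)
    (hb : b ∈ gr K n (l * d)) (m : ℕ) (c : MvPolynomial (Fin (n + 1)) K)
    (hc : c ∈ gr K n (m * d)) (h : f ^ m * (a * f ^ l + b * f ^ k) = f ^ (k + l) * c) :
    fr hf k a ha + fr hf l b hb = fr hf m c hc := by
  have ha' : a * f ^ l ∈ gr K n ((k + l) * d) :=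
    mul_mem_gr ha (SetLike.pow_mem_graded l hf) (by simp [add_mul])
  have hb' : b * f ^ k ∈ gr K n ((k + l) * d) :=
    mul_mem_gr hb (SetLike.pow_mem_graded k hf) (by simp [add_mul, add_comm])
  have e1 : fr hf k a ha = fr hf (k + l) (a * f ^ l) ha' := by
    rw [fr_eq_iff hf hd hf0]
    ring
  have e2 : fr hf l b hb = fr hf (k + l) (b * f ^ k) hb' := by
    rw [fr_eq_iff hf hd hf0]
    ring
  rw [e1, e2, fr_add, fr_eq_iff hf hd hf0]
  exact h

end Pool.Agent.W506
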