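import Pool.Agent.W506.P0

/-!
Coordinates on projective space.
-/

universe u

open CategoryTheory Limits TopologicalSpace AlgebraicGeometry HomogeneousLocalization

namespace Pool.Agent.W506

set_option backward.isDefEq.respectTransparency false

attribute [local instance] MvPolynomial.gradedAlgebra

variable {K : Type u} [Field K] {n : ℕ}

lemma X_mem (i : Fin (n + 1)) : (MvPolynomial.X i : MvPolynomial (Fin (n + 1)) K) ∈ gr K n 1 :=
  MvPolynomial.isHomogeneous_X K i

/-- standard chart -/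
noncomputable abbrev UU (K : Type u) [Field K] (n : ℕ) (i : Fin (n + 1)) : (PP K n).Opens :=
  DD K n (MvPolynomial.X i)

lemma X_ne_zero (i : Fin (n + 1)) : (MvPolynomial.X i : MvPolynomial (Fin (n + 1)) K) ≠ 0 :=
  MvPolynomial.X_ne_zero i

/-- the coordinate function `x_j / x_i` on the chart `i` -/
noncomputable def co (i j : Fin (n + 1)) : Γ(PP K n, UU K n i) :=
  fr (X_mem i) 1 (MvPolynomial.X j) (by simpa using X_mem j)

lemma isAffineOpen_UU (i : Fin (n + 1)) : IsAffineOpen (UU K n i) :=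
  Proj.isAffineOpen_basicOpen _ _ (X_mem i) one_pos

lemma UU_inf (i j : Fin (n + 1)) :
    DD K n (MvPolynomial.X i * MvPolynomial.X j) = UU K n i ⊓ UU K n j :=
  Proj.basicOpen_mul _ _ _

lemma XX_mem (i j : Fin (n + 1)) :
    (MvPolynomial.X i * MvPolynomial.X j : MvPolynomial (Fin (n + 1)) K) ∈ gr K n (1 + 1) :=
  mul_mem_gr (X_mem i) (X_mem j) rfl

lemma isAffineOpen_UU_inf (i j : Fin (n + 1)) : IsAffineOpen (UU K n i ⊓ UU K n j) := by
  rw [← UU_inf]
  exact Proj.isAffineOpen_basicOpen _ _ (XX_mem i j) two_pos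

lemma iSup_UU : ⨆ i, UU K n i = ⊤ := by
  apply Proj.iSup_basicOpen_eq_top'
  · exact fun i => ⟨1, X_mem i⟩
  · rw [eq_top_iff]
    intro p _
    induction p using MvPolynomial.induction_on with
    | C a =>
      have : (MvPolynomial.C a : MvPolynomial (Fin (n + 1)) K) =
        algebraMap (gr K n 0) _ ⟨MvPolynomial.C a, MvPolynomial.isHomogeneous_C _ a⟩ := rfl
      rw [this]
      exact Subalgebra.algebraMap_mem _ _
    | add p q hp hq => exact add_mem (hp trivial) (hq trivial)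
    | mul_X p i hp => exact mul_mem (hp trivial) (Algebra.subset_adjoin ⟨i, rfl⟩)

lemma co_self (i : Fin (n + 1)) : co (K := K) i i = 1 := by
  have h1 : (1 : MvPolynomial (Fin (n + 1)) K) ∈ gr K n (0 * 1) :=
    MvPolynomial.isHomogeneous_one _ _
  rw [← fr_one (X_mem i) h1, co,
    fr_eq_iff (X_mem i) one_pos (X_ne_zero i)]
  ring

lemma ro_co_left (i j k : Fin (n + 1))
    (h : DD K n (MvPolynomial.X i * MvPolynomial.X j) ≤ UU K n i) :
    ro h (co i k) = fr (XX_mem i j) 1 (MvPolynomial.X k * MvPolynomial.X j)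
      (by simpa using XX_mem k j) := by
  rw [co, ro_fr (X_mem i) (X_mem j) (XX_mem i j), fr_eq_iff (XX_mem i j) two_pos
    (mul_ne_zero (X_ne_zero i) (X_ne_zero j))]
  ring

lemma fr_congr {f g : MvPolynomial (Fin (n + 1)) K} (hfg : f = g) {d : ℕ} (hf : f ∈ gr K n d)
    (hg : g ∈ gr K n d) (k : ℕ)
    (a : MvPolynomial (Fin (n + 1)) K) (ha : a ∈ gr K n (k * d)) (h : DD K n g ≤ DD K n f) :
    ro h (fr hf k a ha) = fr hg k a ha := by
  subst hfg
  exact ro_refl h _

lemma ro_fr_right {f g : MvPolynomial (Fin (n + 1)) K} {d e : ℕ} (hf : f ∈ gr K n d)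
    (hg : g ∈ gr K n e)
    (hfg : g * f ∈ gr K n (d + e))
    (h : DD K n (g * f) ≤ DD K n f) (k : ℕ) (a : MvPolynomial (Fin (n + 1)) K)
    (ha : a ∈ gr K n (k * d)) :
    ro h (fr hf k a ha) = fr hfg k (a * g ^ k)
      (mul_mem_gr ha (SetLike.pow_mem_graded k hg) (by simp [mul_add])) := by
  have e1 : f * g = g * f := mul_comm _ _
  have hfg' : f * g ∈ gr K n (d + e) := by rw [e1]; exact hfg
  have h1 : DD K n (g * f) ≤ DD K n (f * g) := by rw [e1]
  have h2 : DD K n (f * g) ≤ DD K n f := by rw [e1]; exact h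
  have h3 := ro_fr hf hg hfg' h2 k a ha
  have h4 := congrArg (ro h1) h3
  rw [ro_ro, fr_congr e1 hfg' hfg] at h4
  exact h4

lemma ro_co_right (i j k : Fin (n + 1))
    (h : DD K n (MvPolynomial.X i * MvPolynomial.X j) ≤ UU K n j) :
    ro h (co j k) = fr (XX_mem i j) 1 (MvPolynomial.X k * MvPolynomial.X i)
      (by simpa using XX_mem k i) := by
  rw [co, ro_fr_right (X_mem j) (X_mem i) (XX_mem i j), fr_eq_iff (XX_mem i j) two_pos
    (mul_ne_zero (X_ne_zero i) (X_ne_zero j))]
  ring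

lemma ro_le_injective {P : Scheme.{u}} {U V W : P.Opens} (h : U = V) (h1 : W ≤ V)
    (h2 : U ≤ W) (h3 : V ≤ W) {a b : Γ(P, W)} (hab : ro h2 a = ro h2 b) : ro h3 a = ro h3 b := by
  subst h
  exact hab

/-- the cocycle relation -/
lemma co_mul (i j k : Fin (n + 1)) :
    ro (inf_le_right : UU K n i ⊓ UU K n j ≤ UU K n j) (co j k) *
      ro (inf_le_left : UU K n i ⊓ UU K n j ≤ UU K n i) (co i j) =
      ro (inf_le_left : UU K n i ⊓ UU K n j ≤ UU K n i) (co i k) := by
  have hle : UU K n i ⊓ UU K n j ≤ DD K n (MvPolynomial.X i * MvPolynomial.X j) :=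
    (UU_inf i j).ge
  have hle' : DD K n (MvPolynomial.X i * MvPolynomial.X j) ≤ UU K n i ⊓ UU K n j :=
    (UU_inf i j).le
  have key : ro (hle'.trans inf_le_right) (co j k) * ro (hle'.trans inf_le_left) (co i j) =
      ro (hle'.trans inf_le_left) (co (K := K) i k) := by
    rw [ro_co_left, ro_co_left, ro_co_right, fr_mul, fr_eq_iff (XX_mem i j) two_pos
      (mul_ne_zero (X_ne_zero i) (X_ne_zero j))]
    ring
  have h4 := congrArg (ro hle) key
  rw [map_mul, ro_ro, ro_ro, ro_ro] at h4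
  exact h4

lemma isUnit_co (i j : Fin (n + 1)) :
    IsUnit (ro (inf_le_left : UU K n i ⊓ UU K n j ≤ UU K n i) (co i j)) := by
  have h := co_mul (K := K) i j i
  rw [co_self, map_one] at h
  exact IsUnit.of_mul_eq_one _ (by rw [mul_comm]; exact h)

end Pool.Agent.W506
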