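import Pool.Agent.W506.P1

/-!
The projective line.
-/

universe u

open CategoryTheory Limits TopologicalSpace AlgebraicGeometry HomogeneousLocalization

namespace Pool.Agent.W506

set_option backward.isDefEq.respectTransparency false

attribute [local instance] MvPolynomial.gradedAlgebra

variable {K : Type u} [Field K]

lemma finTwo_eq {i j : Fin 2} (hij : i ≠ j) (k : Fin 2) : k = i ∨ k = j := by
  revert i j k; decide

/-- splitting of a form of degree `2 l + 2` -/
lemma exists_split {i j : Fin 2} (hij : i ≠ j) (l : ℕ) (F : MvPolynomial (Fin 2) K)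
    (hF : F ∈ gr K 1 (l + 1 + (l + 1))) :
    ∃ P ∈ gr K 1 l, ∃ Q ∈ gr K 1 (l + 1),
      F = MvPolynomial.X j ^ (l + 2) * P + MvPolynomial.X i ^ (l + 1) * Q := by
  have huniv : ∀ d : Fin 2 →₀ ℕ, d.degree = d i + d j := by
    intro d
    rw [Finsupp.degree_eq_sum, Fin.sum_univ_two]
    rcases finTwo_eq hij 0 with h | h
    · have h1 : j = 1 := by
        rcases finTwo_eq hij 1 with h1 | h1
        · exact absurd (h.trans h1.symm) (by decide)
        · exact h1.symm
      rw [← h, h1]
    · have h1 : i = 1 := by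
        rcases finTwo_eq hij 1 with h1 | h1
        · exact h1.symm
        · exact absurd (h.trans h1.symm) (by decide)
      rw [← h, h1, add_comm]
  rw [← MvPolynomial.support_sum_monomial_coeff F]
  refine Finset.sum_induction _ (fun F => ∃ P ∈ gr K 1 l, ∃ Q ∈ gr K 1 (l + 1),
      F = MvPolynomial.X j ^ (l + 2) * P + MvPolynomial.X i ^ (l + 1) * Q) ?_ ?_ ?_
  · rintro a b ⟨P, hP, Q, hQ, rfl⟩ ⟨P', hP', Q', hQ', rfl⟩
    exact ⟨P + P', add_mem hP hP', Q + Q', add_mem hQ hQ', by ring⟩
  · exact ⟨0, zero_mem _, 0, zero_mem _, by ring⟩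
  · intro d hd
    have hdeg : d i + d j = l + 1 + (l + 1) := by
      have h1 := hF (MvPolynomial.mem_support_iff.1 hd)
      rw [← huniv, ← h1, Finsupp.degree_eq_weight_one]
      rfl
    by_cases h : l + 1 ≤ d i
    · refine ⟨0, zero_mem _, MvPolynomial.monomial (d - Finsupp.single i (l + 1))
        (MvPolynomial.coeff d F), ?_, ?_⟩
      · apply MvPolynomial.isHomogeneous_monomial
        rw [huniv, Finsupp.tsub_apply, Finsupp.tsub_apply, Finsupp.single_eq_same,
          Finsupp.single_eq_of_ne hij.symm]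
        omega
      · rw [mul_zero, zero_add, MvPolynomial.X_pow_eq_monomial, MvPolynomial.monomial_mul, one_mul]
        congr 1
        rw [add_tsub_cancel_of_le]
        exact Finsupp.single_le_iff.2 h
    · refine ⟨MvPolynomial.monomial (d - Finsupp.single j (l + 2))
        (MvPolynomial.coeff d F), ?_, 0, zero_mem _, ?_⟩
      · apply MvPolynomial.isHomogeneous_monomial
        rw [huniv, Finsupp.tsub_apply, Finsupp.tsub_apply, Finsupp.single_eq_same,
          Finsupp.single_eq_of_ne hij]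
        omega
      · rw [mul_zero, add_zero, MvPolynomial.X_pow_eq_monomial, MvPolynomial.monomial_mul, one_mul]
        congr 1
        rw [add_tsub_cancel_of_le]
        exact Finsupp.single_le_iff.2 (by omega)

lemma not_X_dvd {n : ℕ} {i j : Fin (n + 1)} (hij : i ≠ j) (l : ℕ) :
    ¬ (MvPolynomial.X i : MvPolynomial (Fin (n + 1)) K) ∣ MvPolynomial.X j ^ l := by
  intro h
  have h1 := MvPolynomial.X_prime.dvd_of_dvd_pow h
  rw [MvPolynomial.X_dvd_X] at h1
  exact hij h1

lemma eq_zero_of_pow_dvd {n : ℕ} {i : Fin (n + 1)} {l m : ℕ} (hlm : m < l)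
    {P : MvPolynomial (Fin (n + 1)) K} (hP : P ∈ gr K n m)
    (h : MvPolynomial.X i ^ l ∣ P) : P = 0 := by
  by_contra h0
  obtain ⟨Q, rfl⟩ := h
  have hQ : Q ≠ 0 := by rintro rfl; exact h0 (mul_zero _)
  have h1 := MvPolynomial.IsHomogeneous.totalDegree hP h0
  rw [MvPolynomial.totalDegree_mul_of_isDomain (pow_ne_zero _ (X_ne_zero i)) hQ,
    MvPolynomial.totalDegree_X_pow] at h1
  omega

lemma halfLine_aux {i j : Fin 2} (hij : i ≠ j)
    (hl : DD K 1 (MvPolynomial.X i * MvPolynomial.X j) ≤ UU K 1 i)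
    (hr : DD K 1 (MvPolynomial.X i * MvPolynomial.X j) ≤ UU K 1 j) :
    Function.Bijective (fun p : Γ(PP K 1, UU K 1 i) × Γ(PP K 1, UU K 1 j) =>
      (ro hl (co i j) * ro hl p.1 + ro hr p.2)) := by
  have hne : (MvPolynomial.X i * MvPolynomial.X j : MvPolynomial (Fin (1 + 1)) K) ≠ 0 :=
    mul_ne_zero (X_ne_zero i) (X_ne_zero j)
  constructor
  · intro p q hpq
    have key : ∀ (a : Γ(PP K 1, UU K 1 i)) (b : Γ(PP K 1, UU K 1 j)),
        ro hl (co i j) * ro hl a + ro hr b = 0 → a = 0 ∧ b = 0 := by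
      intro a b hab
      obtain ⟨k, P, hP, rfl⟩ := exists_fr (X_mem i) one_pos a
      obtain ⟨l, Q, hQ, rfl⟩ := exists_fr (X_mem j) one_pos b
      rw [fr_eq_zero_iff (X_mem i) one_pos (X_ne_zero i),
        fr_eq_zero_iff (X_mem j) one_pos (X_ne_zero j)]
      rw [ro_co_left, ro_fr (X_mem i) (X_mem j) (XX_mem i j),
        ro_fr_right (X_mem j) (X_mem i) (XX_mem i j), fr_mul] at hab
      have hmem : MvPolynomial.X j * MvPolynomial.X j * (P * MvPolynomial.X j ^ k) *
          (MvPolynomial.X i * MvPolynomial.X j) ^ l + Q * MvPolynomial.X i ^ l *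
          (MvPolynomial.X i * MvPolynomial.X j) ^ (1 + k) ∈ gr K 1 ((1 + k + l) * (1 + 1)) := by
        apply add_mem
        · refine mul_mem_gr (i := 1 + 1 + (k + k)) (j := l * (1 + 1))
            (mul_mem_gr (XX_mem j j) (mul_mem_gr (i := k) (j := k) (by simpa using hP)
            (by simpa using SetLike.pow_mem_graded k (X_mem (K := K) j)) rfl) rfl)
            (SetLike.pow_mem_graded l (XX_mem i j)) (by ring)
        · refine mul_mem_gr (i := l + l) (j := (1 + k) * (1 + 1))
            (mul_mem_gr (i := l) (j := l) (by simpa using hQ)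
              (by simpa using SetLike.pow_mem_graded l (X_mem (K := K) i)) rfl)
            (SetLike.pow_mem_graded (1 + k) (XX_mem i j)) (by ring)
      rw [fr_add_eq (XX_mem i j) two_pos hne (1 + k) _ _ l _ _ (1 + k + l) _ hmem (by ring),
        fr_eq_zero_iff (XX_mem i j) two_pos hne] at hab
      have e : ∀ x y P Q : MvPolynomial (Fin (1 + 1)) K,
          y * y * (P * y ^ k) * (x * y) ^ l + Q * x ^ l * (x * y) ^ (1 + k) =
            (x ^ l * y ^ (k + 1)) * (y ^ (l + 1) * P + x ^ (k + 1) * Q) := by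
        intro x y P Q
        ring
      rw [e, mul_eq_zero_iff_left (mul_ne_zero (pow_ne_zero _ (X_ne_zero i))
        (pow_ne_zero _ (X_ne_zero j)))] at hab
      have hP0 : P = 0 := by
        apply eq_zero_of_pow_dvd (i := i) (Nat.lt_succ_self (k * 1)) hP
        rw [mul_one]
        apply (MvPolynomial.X_prime (i := i)).pow_dvd_of_dvd_mul_left (k + 1)
          (not_X_dvd hij (l + 1))
        rw [add_eq_zero_iff_eq_neg] at hab
        rw [hab]
        exact (dvd_mul_right _ _).neg_right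
      subst hP0
      refine ⟨rfl, ?_⟩
      rw [mul_zero, zero_add] at hab
      exact (mul_eq_zero.1 hab).resolve_left (pow_ne_zero _ (X_ne_zero i))
    have h1 := key (p.1 - q.1) (p.2 - q.2) (by
      rw [map_sub, map_sub, mul_sub, sub_add_sub_comm, sub_eq_zero]
      exact hpq)
    exact Prod.ext (sub_eq_zero.1 h1.1) (sub_eq_zero.1 h1.2)
  · intro c
    obtain ⟨k, F, hF, rfl⟩ := exists_fr (XX_mem i j) two_pos c
    have hF' : F * (MvPolynomial.X i * MvPolynomial.X j) ∈ gr K 1 (k + 1 + (k + 1)) :=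
      mul_mem_gr hF (XX_mem i j) (by ring)
    obtain ⟨P, hP, Q, hQ, hPQ⟩ := exists_split hij k _ hF'
    refine ⟨(fr (X_mem i) k P (by simpa using hP), fr (X_mem j) (k + 1) Q (by simpa using hQ)), ?_⟩
    change ro hl (co i j) * ro hl (fr (X_mem i) k P _) + ro hr (fr (X_mem j) (k + 1) Q _) = _
    rw [ro_co_left, ro_fr (X_mem i) (X_mem j) (XX_mem i j),
      ro_fr_right (X_mem j) (X_mem i) (XX_mem i j), fr_mul]
    apply fr_add_eq (XX_mem i j) two_pos hne
    have e : ∀ x y P Q F : MvPolynomial (Fin (1 + 1)) K,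
      F * (x * y) = y ^ (k + 2) * P + x ^ (k + 1) * Q →
      (x * y) ^ k * (y * y * (P * y ^ k) * (x * y) ^ (k + 1) + Q * x ^ (k + 1) *
        (x * y) ^ (1 + k)) = (x * y) ^ (1 + k + (k + 1)) * F := by
      intro x y P Q F h
      calc _ = (x * y) ^ (2 * k + 1) * (y ^ (k + 2) * P + x ^ (k + 1) * Q) := by ring
        _ = _ := by rw [← h]; ring
    exact e _ _ _ _ _ hPQ

end Pool.Agent.W506
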