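import Pool.Agent.W506.P2

/-!
The structure morphism of projective space.
-/

universe u

open CategoryTheory Limits TopologicalSpace AlgebraicGeometry HomogeneousLocalization

namespace Pool.Agent.W506

set_option backward.isDefEq.respectTransparency false

attribute [local instance] MvPolynomial.gradedAlgebra

variable {K : Type u} [Field K]

lemma bij_transport {P : Scheme.{u}} {U₀ U₁ D : P.Opens} (h : D = U₀ ⊓ U₁) (hl : D ≤ U₀)
    (hr : D ≤ U₁) (t : Γ(P, U₀))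
    (hb : Function.Bijective (fun p : Γ(P, U₀) × Γ(P, U₁) =>
      (ro hl t * ro hl p.1 + ro hr p.2))) :
    Function.Bijective (fun p : Γ(P, U₀) × Γ(P, U₁) =>
      (ro (inf_le_left : U₀ ⊓ U₁ ≤ U₀) t * ro (inf_le_left : U₀ ⊓ U₁ ≤ U₀) p.1 +
        ro (inf_le_right : U₀ ⊓ U₁ ≤ U₁) p.2)) := by
  subst h
  exact hb

lemma halfLine {i j : Fin 2} (hij : i ≠ j) : HalfLine (PP K 1) (UU K 1 i) (UU K 1 j) (co i j) where
  cover := by
    rw [eq_top_iff, ← iSup_UU (K := K) (n := 1)]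
    apply iSup_le
    intro k
    rcases finTwo_eq hij k with rfl | rfl
    · exact le_sup_left
    · exact le_sup_right
  aff₀ := isAffineOpen_UU i
  aff₁ := isAffineOpen_UU j
  aff₀₁ := isAffineOpen_UU_inf i j
  unit := isUnit_co i j
  bij := bij_transport (UU_inf i j) ((UU_inf i j).le.trans inf_le_left)
    ((UU_inf i j).le.trans inf_le_right) _ (halfLine_aux hij _ _)

lemma ι_toK {n : ℕ} {f : MvPolynomial (Fin (n + 1)) K} {d : ℕ} (hf : f ∈ gr K n d) (hd : 0 < d) :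
    (DD K n f).ι ≫ toK K n = (DD K n f).toSpecΓ ≫ Spec.map
      (CommRingCat.ofHom (algebraMap K (gr K n 0)) ≫
        CommRingCat.ofHom (fromZeroRingHom (gr K n) (Submonoid.powers f)) ≫
          Proj.awayToSection (gr K n) f) := by
  have h1 := Proj.awayι_toSpecZero (gr K n) f hf hd
  rw [Proj.awayι, Category.assoc, Iso.inv_comp_eq, Proj.basicOpenIsoSpec_hom,
    Proj.basicOpenToSpec, Category.assoc] at h1
  rw [toK_eq, ← Category.assoc, h1, Spec.map_comp, Spec.map_comp]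
  simp only [Category.assoc]

lemma toK_appTop_res {n : ℕ} {f : MvPolynomial (Fin (n + 1)) K} {d : ℕ} (hf : f ∈ gr K n d)
    (hd : 0 < d) :
    (Scheme.ΓSpecIso (.of K)).inv ≫ (toK K n).appTop ≫
      (PP K n).presheaf.map (homOfLE (le_top : DD K n f ≤ ⊤)).op =
      (CommRingCat.ofHom (algebraMap K (gr K n 0)) ≫
        CommRingCat.ofHom (fromZeroRingHom (gr K n) (Submonoid.powers f)) ≫
          Proj.awayToSection (gr K n) f) := by
  have h1 := congrArg Scheme.Hom.appTop (ι_toK hf hd)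
  rw [Scheme.Hom.comp_appTop, Scheme.Hom.comp_appTop, Scheme.Opens.toSpecΓ_appTop] at h1
  have h2 := congrArg (fun z => (Scheme.ΓSpecIso (.of K)).inv ≫ z ≫ (DD K n f).topIso.hom) h1
  simp only [Category.assoc] at h2
  have h3 : (DD K n f).ι.appTop ≫ (DD K n f).topIso.hom =
      (PP K n).presheaf.map (homOfLE (le_top : DD K n f ≤ ⊤)).op := by
    rw [Scheme.Opens.ι_appTop, Scheme.Opens.topIso_hom]
    rw [← Functor.map_comp]
    rfl
  rw [h3] at h2
  rw [h2, ← Category.assoc, ← Category.assoc, ← Scheme.ΓSpecIso_inv_naturality]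
  simp only [Category.assoc, Iso.inv_hom_id, Category.comp_id]

/-- constants -/
noncomputable def cst {n : ℕ} (c : K) : Γ(PP K n, ⊤) :=
  (toK K n).appTop ((Scheme.ΓSpecIso (.of K)).inv c)

lemma ro_cst {n : ℕ} {f : MvPolynomial (Fin (n + 1)) K} {d : ℕ} (hf : f ∈ gr K n d)
    (hd : 0 < d) (c : K) (hc : MvPolynomial.C c ∈ gr K n (0 * d)) :
    ro (le_top : DD K n f ≤ ⊤) (cst c) = fr hf 0 (MvPolynomial.C c) hc := by
  have h := congr($(toK_appTop_res hf hd) c)
  have h1 : ro (le_top : DD K n f ≤ ⊤) (cst c) = Proj.awayToSection (gr K n) f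
    (fromZeroRingHom (gr K n) (Submonoid.powers f) (algebraMap K (gr K n 0) c)) := h
  rw [h1, fr]
  congr 1
  rw [HomogeneousLocalization.ext_iff_val, Away.val_mk]
  rw [show fromZeroRingHom (gr K n) (Submonoid.powers f) (algebraMap K (gr K n 0) c) =
    HomogeneousLocalization.mk ⟨0, algebraMap K (gr K n 0) c, 1, one_mem _⟩ from rfl, val_mk]
  congr 1

instance {n : ℕ} : Nontrivial Γ(PP K n, ⊤) := by
  have h1 : (0 : Γ(PP K n, UU K n 0)) ≠ 1 := by
    rw [← co_self, co, ne_eq, eq_comm, fr_eq_zero_iff (X_mem 0) one_pos (X_ne_zero 0)]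
    exact X_ne_zero 0
  refine ⟨0, 1, fun h => h1 ?_⟩
  have h2 := congrArg (ro (le_top : UU K n 0 ≤ ⊤)) h
  rwa [map_zero, map_one] at h2

lemma toK_appTop_injective (n : ℕ) : Function.Injective (toK K n).appTop := by
  have h1 : Function.Injective ((toK K n).appTop.hom.comp (Scheme.ΓSpecIso (.of K)).inv.hom) :=
    RingHom.injective (R := K) _
  intro a b hab
  have h2 : ∀ a, (Scheme.ΓSpecIso (.of K)).inv ((Scheme.ΓSpecIso (.of K)).hom a) = a := fun a =>
    congr($((Scheme.ΓSpecIso (.of K)).hom_inv_id) a)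
  have h3 := @h1 ((Scheme.ΓSpecIso (.of K)).hom a) ((Scheme.ΓSpecIso (.of K)).hom b) (by
    change (toK K n).appTop ((Scheme.ΓSpecIso (.of K)).inv ((Scheme.ΓSpecIso (.of K)).hom a)) =
      (toK K n).appTop ((Scheme.ΓSpecIso (.of K)).inv ((Scheme.ΓSpecIso (.of K)).hom b))
    rw [h2, h2, hab])
  rw [← h2 a, ← h2 b, h3]

lemma toK_appTop_bijective_one : Function.Bijective (toK K 1).appTop := by
  refine ⟨toK_appTop_injective 1, ?_⟩
  intro s
  have hij : (0 : Fin 2) ≠ 1 := by decide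
  have hne : (MvPolynomial.X 0 * MvPolynomial.X 1 : MvPolynomial (Fin (1 + 1)) K) ≠ 0 :=
    mul_ne_zero (X_ne_zero 0) (X_ne_zero 1)
  obtain ⟨k, P, hP, hs⟩ := exists_fr (X_mem (0 : Fin 2)) one_pos (ro (le_top : UU K 1 0 ≤ ⊤) s)
  obtain ⟨l, Q, hQ, hs'⟩ := exists_fr (X_mem (1 : Fin 2)) one_pos (ro (le_top : UU K 1 1 ≤ ⊤) s)
  have hl : DD K 1 (MvPolynomial.X 0 * MvPolynomial.X 1) ≤ UU K 1 0 :=
    (UU_inf 0 1).le.trans inf_le_left
  have hr : DD K 1 (MvPolynomial.X 0 * MvPolynomial.X 1) ≤ UU K 1 1 :=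
    (UU_inf 0 1).le.trans inf_le_right
  have h1 : ro hl (fr (X_mem (0 : Fin 2)) k P hP) = ro hr (fr (X_mem (1 : Fin 2)) l Q hQ) := by
    rw [hs, hs', ro_ro, ro_ro]
  rw [ro_fr (X_mem 0) (X_mem 1) (XX_mem 0 1), ro_fr_right (X_mem 1) (X_mem 0) (XX_mem 0 1),
    fr_eq_iff (XX_mem 0 1) two_pos hne] at h1
  have h2 : MvPolynomial.X 1 ^ l * P = MvPolynomial.X 0 ^ k * Q := by
    have h3 : ∀ x y P Q : MvPolynomial (Fin (1 + 1)) K, x ≠ 0 → y ≠ 0 →
        (x * y) ^ l * (P * y ^ k) = (x * y) ^ k * (Q * x ^ l) → y ^ l * P = x ^ k * Q := by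
      intro x y P Q hx hy h
      apply mul_left_cancel₀ (mul_ne_zero (pow_ne_zero l hx) (pow_ne_zero k hy))
      calc _ = (x * y) ^ l * (P * y ^ k) := by ring
        _ = _ := by rw [h]; ring
    exact h3 _ _ _ _ (X_ne_zero _) (X_ne_zero _) h1
  have h3 : MvPolynomial.X 0 ^ k ∣ P := by
    apply (MvPolynomial.X_prime (i := (0 : Fin (1 + 1)))).pow_dvd_of_dvd_mul_left k
      (not_X_dvd hij l)
    rw [h2]
    exact dvd_mul_right _ _
  have h4 : ∃ c : K, P = MvPolynomial.X 0 ^ k * MvPolynomial.C c := by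
    obtain ⟨R, rfl⟩ := h3
    by_cases hR : R = 0
    · exact ⟨0, by rw [hR, map_zero]⟩
    · have h5 := MvPolynomial.IsHomogeneous.totalDegree hP
        (mul_ne_zero (pow_ne_zero _ (X_ne_zero 0)) hR)
      rw [MvPolynomial.totalDegree_mul_of_isDomain (pow_ne_zero _ (X_ne_zero 0)) hR,
        MvPolynomial.totalDegree_X_pow] at h5
      exact ⟨_, congrArg _ (MvPolynomial.totalDegree_eq_zero_iff_eq_C.1 (by omega))⟩
  obtain ⟨c, rfl⟩ := h4
  have h5 : Q = MvPolynomial.X 1 ^ l * MvPolynomial.C c := by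
    apply mul_left_cancel₀ (pow_ne_zero k (X_ne_zero 0))
    rw [← h2]
    ring
  subst h5
  refine ⟨(Scheme.ΓSpecIso (.of K)).inv c, ?_⟩
  change cst c = s
  have hc : MvPolynomial.C c ∈ gr K 1 (0 * 1) := MvPolynomial.isHomogeneous_C _ c
  apply ext_ro_of_mem
  intro x _
  have hx : x ∈ (⨆ i, UU K 1 i) := by rw [iSup_UU]; trivial
  obtain ⟨i, hi⟩ := Opens.mem_iSup.1 hx
  refine ⟨UU K 1 i, le_top, hi, ?_⟩
  rw [ro_cst (X_mem i) one_pos c hc]
  rcases finTwo_eq hij i with rfl | rfl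
  · rw [← hs, fr_eq_iff (X_mem _) one_pos (X_ne_zero _)]
    ring
  · rw [← hs', fr_eq_iff (X_mem _) one_pos (X_ne_zero _)]
    ring

end Pool.Agent.W506
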