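import Pool.Agent.W506.P3

/-!
Products with the projective line.
-/

universe u

open CategoryTheory Limits TopologicalSpace AlgebraicGeometry HomogeneousLocalization

namespace Pool.Agent.W506

set_option backward.isDefEq.respectTransparency false

attribute [local instance] MvPolynomial.gradedAlgebra

variable {K : Type u} [Field K]

instance compactSpace_PP (n : ℕ) : CompactSpace (PP K n) := by
  rw [← isCompact_univ_iff]
  have h : (Set.univ : Set (PP K n)) = ⋃ i, (UU K n i : Set (PP K n)) := by
    have := congrArg (fun U : (PP K n).Opens => (U : Set (PP K n))) (iSup_UU (K := K) (n := n))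
    simpa using this.symm
  rw [h]
  exact isCompact_iUnion fun i => (isAffineOpen_UU i).isCompact

/-- the projection of a product with a projective line -/
noncomputable def p1Data {X Y : Scheme.{u}} {f : X ⟶ Spec (.of K)} {π : Y ⟶ X} {q : Y ⟶ PP K 1}
    (H : IsPullback π q f (toK K 1)) : P1Data π where
  U₀ := q ⁻¹ᵁ UU K 1 0
  U₁ := q ⁻¹ᵁ UU K 1 1
  t := q.app _ (co 0 1)
  s := q.app _ (co 1 0)
  tw₀ := twData_of_halfLine H (halfLine (by decide))
  tw₁ := twData_of_halfLine H (halfLine (by decide))
  glob := fun V hV => glob_of_global H toK_appTop_bijective_one V hV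

end Pool.Agent.W506
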