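import Pool.Agent.W506.A

/-!
Sections of sheaves of modules on a scheme: restriction, gluing, exactness.
-/

universe u v

open CategoryTheory Limits Opposite TopologicalSpace

namespace Pool.Agent.W506

set_option backward.isDefEq.respectTransparency false

section General

variable {C : Type u} [SmallCategory.{u} C] {J : GrothendieckTopology C}
  (R : Sheaf J RingCat.{u})

lemma epi_toSheaf_map {M N : SheafOfModules.{u} R} (φ : M ⟶ N) [Epi φ] :
    Epi ((SheafOfModules.toSheaf R).map φ) := by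
  let S := PresheafOfModules.sheafification.{u} (𝟙 R.obj)
  let adj := PresheafOfModules.sheafificationAdjunction.{u} (𝟙 R.obj)
  let ψ := (SheafOfModules.forget R ⋙ PresheafOfModules.restrictScalars (𝟙 R.obj)).map φ
  let T := PresheafOfModules.toPresheaf.{u} R.obj ⋙ presheafToSheaf J AddCommGrpCat.{u}
  have : S.IsLeftAdjoint := inferInstance
  have : S.PreservesZeroMorphisms := inferInstance
  have : T.PreservesZeroMorphisms := inferInstance
  have h1 : S.map ψ ≫ adj.counit.app N = adj.counit.app M ≫ φ := adj.counit.naturality φ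
  have h2 : Epi (S.map ψ) := by
    have : S.map ψ = (adj.counit.app M ≫ φ) ≫ inv (adj.counit.app N) := by
      rw [← h1]; simp
    rw [this]
    infer_instance
  have h3 : S.map (cokernel.π ψ) = 0 := by
    rw [← cancel_epi (S.map ψ), ← S.map_comp, cokernel.condition, comp_zero, S.map_zero]
  have h4 : IsZero (S.obj (cokernel ψ)) := by
    rw [IsZero.iff_id_eq_zero, ← cancel_epi (S.map (cokernel.π ψ)), h3]
    simp
  have h5 : IsZero (T.obj (cokernel ψ)) := by
    have : IsZero ((SheafOfModules.toSheaf R).obj (S.obj (cokernel ψ))) :=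
      (SheafOfModules.toSheaf R).map_isZero h4
    exact this
  have h6 : Epi (T.map ψ) := by
    exact Preadditive.epi_of_isZero_cokernel' _
      (isColimitOfHasCokernelOfPreservesColimit T ψ) h5
  have h7 : Epi ((SheafOfModules.toSheaf R).map (S.map ψ)) := h6
  have h8 : (SheafOfModules.toSheaf R).map φ =
      (SheafOfModules.toSheaf R).map (inv (adj.counit.app M)) ≫
      (SheafOfModules.toSheaf R).map (S.map ψ) ≫
      (SheafOfModules.toSheaf R).map (adj.counit.app N) := by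
    rw [← Functor.map_comp, h1, ← Functor.map_comp, IsIso.inv_hom_id_assoc]
  rw [h8]
  infer_instance

end General

open AlgebraicGeometry

section Sections

variable {X : Scheme.{u}}

/-- restriction of functions -/
noncomputable def ro {U V : X.Opens} (h : U ≤ V) : Γ(X, V) →+* Γ(X, U) :=
  (X.presheaf.map (homOfLE h).op).hom

lemma ro_ro {U V W : X.Opens} (h : U ≤ V) (h' : V ≤ W) (r : Γ(X, W)) :
    ro h (ro h' r) = ro (h.trans h') r := by
  have h2 : X.presheaf.map (homOfLE h').op ≫ X.presheaf.map (homOfLE h).op =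
      X.presheaf.map (homOfLE (h.trans h')).op := by
    rw [← X.presheaf.map_comp]; rfl
  exact congr($h2 r)

lemma ro_refl {U : X.Opens} (h : U ≤ U) (r : Γ(X, U)) : ro h r = r := by
  have h2 : X.presheaf.map (homOfLE h).op = 𝟙 _ := X.presheaf.map_id _
  exact congr($h2 r)

variable (M : X.Modules)

/-- restriction of sections -/
noncomputable def rs {U V : X.Opens} (h : U ≤ V) : Γ(M, V) →+ Γ(M, U) :=
  (M.presheaf.map (homOfLE h).op).hom

variable {M}

lemma rs_rs {U V W : X.Opens} (h : U ≤ V) (h' : V ≤ W) (m : Γ(M, W)) :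
    rs M h (rs M h' m) = rs M (h.trans h') m := by
  have h2 : M.presheaf.map (homOfLE h').op ≫ M.presheaf.map (homOfLE h).op =
      M.presheaf.map (homOfLE (h.trans h')).op := by
    rw [← M.presheaf.map_comp]; rfl
  exact congr($h2 m)

lemma rs_refl {U : X.Opens} (h : U ≤ U) (m : Γ(M, U)) : rs M h m = m := by
  have h2 : M.presheaf.map (homOfLE h).op = 𝟙 _ := M.presheaf.map_id _
  exact congr($h2 m)

lemma rs_smul {U V : X.Opens} (h : U ≤ V) (r : Γ(X, V)) (m : Γ(M, V)) :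
    rs M h (r • m) = ro h r • rs M h m :=
  Scheme.Modules.map_smul M (homOfLE h) r m

/-- a morphism on sections -/
noncomputable def ap {M N : X.Modules} (φ : M ⟶ N) (U : X.Opens) : Γ(M, U) →ₗ[Γ(X, U)] Γ(N, U) where
  toFun := φ.app U
  map_add' := (φ.app U).hom.map_add
  map_smul' := fun r m => Scheme.Modules.Hom.app_smul φ r m

lemma ap_rs {M N : X.Modules} (φ : M ⟶ N) {U V : X.Opens} (h : U ≤ V) (m : Γ(M, V)) :
    ap φ U (rs M h m) = rs N h (ap φ V m) := by
  have h2 := φ.mapPresheaf.naturality (homOfLE h).op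
  exact congr($h2 m)

lemma ap_comp {M N K : X.Modules} (φ : M ⟶ N) (ψ : N ⟶ K) (U : X.Opens) (m : Γ(M, U)) :
    ap (φ ≫ ψ) U m = ap ψ U (ap φ U m) := rfl

lemma ap_id (U : X.Opens) (m : Γ(M, U)) : ap (𝟙 M) U m = m := rfl

lemma ap_zero {M N : X.Modules} (U : X.Opens) (m : Γ(M, U)) : ap (0 : M ⟶ N) U m = 0 := rfl

lemma ap_add {M N : X.Modules} (φ ψ : M ⟶ N) (U : X.Opens) (m : Γ(M, U)) :
    ap (φ + ψ) U m = ap φ U m + ap ψ U m := rfl

lemma ap_sub {M N : X.Modules} (φ ψ : M ⟶ N) (U : X.Opens) (m : Γ(M, U)) :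
    ap (φ - ψ) U m = ap φ U m - ap ψ U m := rfl

lemma ap_ext {M N : X.Modules} {φ ψ : M ⟶ N} (h : ∀ U m, ap φ U m = ap ψ U m) : φ = ψ := by
  apply Scheme.Modules.hom_ext
  intro U
  ext m
  exact h U m

lemma ext_rs {ι : Type*} {V : X.Opens} (U : ι → X.Opens) (hU : ∀ i, U i ≤ V)
    (hc : V ≤ iSup U) {s t : Γ(M, V)} (h : ∀ i, rs M (hU i) s = rs M (hU i) t) : s = t :=
  TopCat.Sheaf.eq_of_locally_eq' ⟨M.presheaf, M.isSheaf⟩ U V (fun i => homOfLE (hU i)) hc s t h

lemma ext_rs_of_mem {V : X.Opens} {s t : Γ(M, V)}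
    (h : ∀ x ∈ V, ∃ U : X.Opens, ∃ hU : U ≤ V, x ∈ U ∧ rs M hU s = rs M hU t) : s = t :=
  TopCat.Presheaf.IsSheaf.section_ext M.isSheaf (fun x hx => h x hx)

lemma ext_rs₂ {U V W : X.Opens} (hU : U ≤ W) (hV : V ≤ W) (hc : W ≤ U ⊔ V) {s t : Γ(M, W)}
    (h₁ : rs M hU s = rs M hU t) (h₂ : rs M hV s = rs M hV t) : s = t :=
  TopCat.Sheaf.eq_of_locally_eq₂ ⟨M.presheaf, M.isSheaf⟩ (homOfLE hU) (homOfLE hV) hc s t h₁ h₂

lemma exists_glue {ι : Type*} {V : X.Opens} (U : ι → X.Opens) (hU : ∀ i, U i ≤ V)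
    (hc : V ≤ iSup U) (s : ∀ i, Γ(M, U i))
    (h : ∀ i j, rs M (inf_le_left : U i ⊓ U j ≤ U i) (s i) =
      rs M (inf_le_right : U i ⊓ U j ≤ U j) (s j)) :
    ∃ t : Γ(M, V), ∀ i, rs M (hU i) t = s i := by
  obtain ⟨t, ht, -⟩ := TopCat.Sheaf.existsUnique_gluing' ⟨M.presheaf, M.isSheaf⟩ U V
    (fun i => homOfLE (hU i)) hc s (fun i j => h i j)
  exact ⟨t, ht⟩

lemma exists_glue₂ {U V W : X.Opens} (hU : U ≤ W) (hV : V ≤ W) (hc : W ≤ U ⊔ V)
    (s : Γ(M, U)) (t : Γ(M, V))
    (h : rs M (inf_le_left : U ⊓ V ≤ U) s = rs M (inf_le_right : U ⊓ V ≤ V) t) :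
    ∃ r : Γ(M, W), rs M hU r = s ∧ rs M hV r = t := by
  let F : Bool → X.Opens := fun b => bif b then U else V
  let sf : ∀ b, Γ(M, F b) := fun b => match b with
    | true => s
    | false => t
  have hF : ∀ b, F b ≤ W := by rintro (_ | _); exacts [hV, hU]
  obtain ⟨r, hr⟩ := exists_glue (M := M) F hF (by
    refine hc.trans (sup_le ?_ ?_)
    · exact le_iSup F true
    · exact le_iSup F false) sf (by
    rintro (_ | _) (_ | _)
    · rfl
    · have h2 := congrArg (rs M (show V ⊓ U ≤ U ⊓ V from le_of_eq (inf_comm _ _))) h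
      rw [rs_rs, rs_rs] at h2
      exact h2.symm
    · exact h
    · rfl)
  exact ⟨r, hr true, hr false⟩

/-- a morphism of sheaves of modules is an epimorphism iff it is locally surjective -/
lemma locally_surj_of_epi {M N : X.Modules} (φ : M ⟶ N) [Epi φ] (U : X.Opens) (s : Γ(N, U))
    (x : X) (hx : x ∈ U) : ∃ (V : X.Opens) (hV : V ≤ U) (_ : x ∈ V) (t : Γ(M, V)),
      ap φ V t = rs N hV s := by
  have h1 : Epi ((SheafOfModules.toSheaf X.ringCatSheaf).map φ) :=
    @epi_toSheaf_map _ _ _ X.ringCatSheaf _ _ φ ‹_›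
  have h2 := (TopCat.Presheaf.isLocallySurjective_iff _).1
    ((TopCat.Sheaf.isLocallySurjective_iff_epi _).2 h1)
  obtain ⟨V, hV, ⟨t, ht⟩, hxV⟩ := h2 U s x hx
  exact ⟨V, hV, hxV, t, ht⟩

lemma epi_of_locally_surj {M N : X.Modules} (φ : M ⟶ N)
    (h : ∀ (U : X.Opens) (s : Γ(N, U)) (x : X), x ∈ U → ∃ (V : X.Opens) (hV : V ≤ U) (_ : x ∈ V)
      (t : Γ(M, V)), ap φ V t = rs N hV s) : Epi φ := by
  constructor
  intro K f g hfg
  apply ap_ext
  intro U s
  apply ext_rs_of_mem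
  intro x hx
  obtain ⟨V, hV, hxV, t, ht⟩ := h U s x hx
  refine ⟨V, hV, hxV, ?_⟩
  rw [← ap_rs, ← ap_rs, ← ht, ← ap_comp, ← ap_comp, hfg]

end Sections

end Pool.Agent.W506
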