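import Pool.Agent.W506.S9

/-!
Twists by one of the two coordinate divisors.
-/

universe u v

open CategoryTheory Limits Opposite TopologicalSpace AlgebraicGeometry

namespace Pool.Agent.W506

set_option backward.isDefEq.respectTransparency false

variable {X : Scheme.{u}}

/-- a morphism which is bijective on sections over opens contained in `U` -/
def IsoOn {M N : X.Modules} (φ : M ⟶ N) (U : X.Opens) : Prop :=
  ∀ V ≤ U, Function.Bijective (ap φ V)

lemma IsoOn.mono {M N : X.Modules} {φ : M ⟶ N} {U V : X.Opens} (h : IsoOn φ U) (hV : V ≤ U) :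
    IsoOn φ V := fun V' hV' => h V' (hV'.trans hV)

lemma isoOn_jjU (U : X.Opens) (N : X.Modules) : IsoOn (jjU U N) U := by
  intro V hV
  have h1 : (fun n => jjE U N V (ap (jjU U N) V n)) = fun n => rs N inf_le_left n := by
    funext n
    exact jjE_jjU U N V n
  have h2 : Function.Bijective (fun n => rs N (inf_le_left : V ⊓ U ≤ V) n) :=
    rs_bijective _ (le_inf le_rfl hV)
  rw [← h1] at h2
  exact (Function.Bijective.of_comp_iff' (jjE U N _).bijective _).1 h2

lemma IsBasisOn.comap {M N : X.Modules} {φ : M ⟶ N} {U : X.Opens} (h : IsoOn φ U) {n : ℕ}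
    {e : Fin n → Γ(N, U)} (he : IsBasisOn e) :
    ∃ e' : Fin n → Γ(M, U), (∀ i, ap φ U (e' i) = e i) ∧ IsBasisOn e' := by
  choose e' he' using fun i => (h U le_rfl).2 (e i)
  refine ⟨e', he', ?_⟩
  intro V hV
  have h1 : (fun a => ap φ V (comb e' hV a)) = comb e hV := by
    funext a
    rw [ap_comb]
    congr 1
    funext i
    exact he' i
  have h2 := he V hV
  rw [← h1] at h2
  exact (Function.Bijective.of_comp_iff' (h V hV) _).1 h2

lemma QCOn.comap {M N : X.Modules} {φ : M ⟶ N} {U : X.Opens} (h : IsoOn φ U) (hN : QCOn N U) :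
    QCOn M U := by
  constructor
  · intro W' hW' hle f s
    obtain ⟨k, t, ht⟩ := hN.ext W' hW' hle f (ap φ _ s)
    obtain ⟨t', ht'⟩ := (h W' hle).2 t
    refine ⟨k, t', ?_⟩
    apply (h _ ((X.basicOpen_le f).trans hle)).1
    rw [ap_rs, ht', ht, map_smul]
  · intro W' hW' hle f t ht
    obtain ⟨k, hk⟩ := hN.uniq W' hW' hle f (ap φ _ t) (by rw [← ap_rs, ht, map_zero])
    refine ⟨k, ?_⟩
    apply (h W' hle).1
    rw [map_smul, hk, map_zero]

lemma QCOn.map {M N : X.Modules} {φ : M ⟶ N} {U : X.Opens} (h : IsoOn φ U) (hM : QCOn M U) :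
    QCOn N U := by
  constructor
  · intro W' hW' hle f s
    obtain ⟨s', rfl⟩ := (h _ ((X.basicOpen_le f).trans hle)).2 s
    obtain ⟨k, t, ht⟩ := hM.ext W' hW' hle f s'
    exact ⟨k, ap φ _ t, by rw [← ap_rs, ht, map_smul]⟩
  · intro W' hW' hle f t ht
    obtain ⟨t', rfl⟩ := (h W' hle).2 t
    rw [← ap_rs] at ht
    have h1 := (h _ ((X.basicOpen_le f).trans hle)).1 (ht.trans (map_zero _).symm)
    obtain ⟨k, hk⟩ := hM.uniq W' hW' hle f _ h1
    exact ⟨k, by rw [← map_smul, hk, map_zero]⟩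

/-- multiplication by a function on `U` -/
noncomputable def mulj (U : X.Opens) (t : Γ(X, U)) (N : X.Modules) : jj U N ⟶ jj U N :=
  mkHom _ _ (fun V =>
    { toFun := fun s => (jjE U N V).symm (ro (inf_le_right : V ⊓ U ≤ U) t • jjE U N V s)
      map_add' := fun s s' => by
        rw [map_add, smul_add, map_add]
      map_smul' := fun r s => by
        apply (jjE U N V).injective
        rw [AddEquiv.apply_symm_apply, jjE_smul, RingHom.id_apply, jjE_smul,
          AddEquiv.apply_symm_apply, smul_smul, smul_smul, mul_comm] })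
    (fun V' V h s => by
      apply (jjE U N V').injective
      change jjE U N V' ((jjE U N V').symm (_ • jjE U N V' (rs (jj U N) h s))) =
        jjE U N V' (rs (jj U N) h ((jjE U N V).symm (_ • jjE U N V s)))
      rw [AddEquiv.apply_symm_apply, jjE_rs, jjE_rs, AddEquiv.apply_symm_apply, rs_smul, ro_ro])

lemma jjE_mulj (U : X.Opens) (t : Γ(X, U)) (N : X.Modules) (V : X.Opens) (s : Γ(jj U N, V)) :
    jjE U N V (ap (mulj U t N) V s) = ro (inf_le_right : V ⊓ U ≤ U) t • jjE U N V s :=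
  AddEquiv.apply_symm_apply _ _

/-- the twist -/
noncomputable def Tw (U : X.Opens) (t : Γ(X, U)) (N : X.Modules) : X.Modules :=
  Limits.pullback (jjU U N) (mulj U t N)

/-- first projection of the twist -/
noncomputable def twFst (U : X.Opens) (t : Γ(X, U)) (N : X.Modules) : Tw U t N ⟶ N :=
  pullback.fst _ _

/-- second projection of the twist -/
noncomputable def twSnd (U : X.Opens) (t : Γ(X, U)) (N : X.Modules) : Tw U t N ⟶ jj U N :=
  pullback.snd _ _

section pb

variable {A B C : X.Modules} (f : A ⟶ C) (g : B ⟶ C)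

lemma pb_ext {V : X.Opens} {p q : Γ(Limits.pullback f g, V)}
    (h₁ : ap (pullback.fst f g) V p = ap (pullback.fst f g) V q)
    (h₂ : ap (pullback.snd f g) V p = ap (pullback.snd f g) V q) : p = q := by
  have h3 : (secHom p : LU V ⟶ Limits.pullback f g) = secHom q := by
    apply pullback.hom_ext
    · rw [secHom_comp, secHom_comp, h₁]
    · rw [secHom_comp, secHom_comp, h₂]
  rw [← ap_secHom_gen p, ← ap_secHom_gen q, h3]

lemma pb_exists {V : X.Opens} (a : Γ(A, V)) (b : Γ(B, V)) (h : ap f V a = ap g V b) :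
    ∃ p : Γ(Limits.pullback f g, V), ap (pullback.fst f g) V p = a ∧
      ap (pullback.snd f g) V p = b := by
  have h1 : (secHom a : LU V ⟶ A) ≫ f = (secHom b : LU V ⟶ B) ≫ g := by
    rw [secHom_comp, secHom_comp, h]
  refine ⟨ap (pullback.lift _ _ h1) V (gen V), ?_, ?_⟩
  · rw [← ap_comp, pullback.lift_fst, ap_secHom_gen]
  · rw [← ap_comp, pullback.lift_snd, ap_secHom_gen]

lemma pb_cond {V : X.Opens} (p : Γ(Limits.pullback f g, V)) :
    ap f V (ap (pullback.fst f g) V p) = ap g V (ap (pullback.snd f g) V p) := by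
  rw [← ap_comp, ← ap_comp, pullback.condition]

end pb

lemma tw_cond (U : X.Opens) (t : Γ(X, U)) (N : X.Modules) {V : X.Opens} (p : Γ(Tw U t N, V)) :
    rs N inf_le_left (ap (twFst U t N) V p) =
      ro (inf_le_right : V ⊓ U ≤ U) t • jjE U N V (ap (twSnd U t N) V p) := by
  have h := congrArg (jjE U N V) (pb_cond (jjU U N) (mulj U t N) p)
  rw [jjE_jjU, jjE_mulj] at h
  exact h

lemma tw_exists (U : X.Opens) (t : Γ(X, U)) (N : X.Modules) {V : X.Opens} (a : Γ(N, V))
    (b : Γ(N, V ⊓ U)) (h : rs N inf_le_left a = ro (inf_le_right : V ⊓ U ≤ U) t • b) :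
    ∃ p : Γ(Tw U t N, V), ap (twFst U t N) V p = a ∧ jjE U N V (ap (twSnd U t N) V p) = b := by
  obtain ⟨p, h1, h2⟩ := pb_exists (jjU U N) (mulj U t N) a ((jjE U N V).symm b) (by
    apply (jjE U N V).injective
    rw [jjE_jjU, jjE_mulj, AddEquiv.apply_symm_apply, h])
  exact ⟨p, h1, by
    change jjE U N V (ap (pullback.snd _ _) V p) = b
    rw [h2, AddEquiv.apply_symm_apply]⟩

lemma tw_ext (U : X.Opens) (t : Γ(X, U)) (N : X.Modules) {V : X.Opens} {p q : Γ(Tw U t N, V)}
    (h₁ : ap (twFst U t N) V p = ap (twFst U t N) V q)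
    (h₂ : jjE U N V (ap (twSnd U t N) V p) = jjE U N V (ap (twSnd U t N) V q)) : p = q :=
  pb_ext _ _ h₁ ((jjE U N V).injective h₂)

lemma isoOn_twSnd (U : X.Opens) (t : Γ(X, U)) (N : X.Modules) : IsoOn (twSnd U t N) U := by
  intro V hV
  constructor
  · intro p q hpq
    refine tw_ext U t N ?_ (congrArg _ hpq)
    apply (rs_bijective (N := N) (inf_le_left : V ⊓ U ≤ V) (le_inf le_rfl hV)).1
    rw [tw_cond, tw_cond, hpq]
  · intro s
    obtain ⟨a, ha⟩ := (rs_bijective (N := N) (inf_le_left : V ⊓ U ≤ V) (le_inf le_rfl hV)).2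
      (ro (inf_le_right : V ⊓ U ≤ U) t • jjE U N V s)
    obtain ⟨p, -, h2⟩ := tw_exists U t N a (jjE U N V s) ha
    exact ⟨p, (jjE U N V).injective h2⟩

lemma isoOn_twFst (U U' : X.Opens) (t : Γ(X, U)) (N : X.Modules)
    (ht : IsUnit (ro (inf_le_left : U ⊓ U' ≤ U) t)) : IsoOn (twFst U t N) U' := by
  intro V hV
  have hu : IsUnit (ro (inf_le_right : V ⊓ U ≤ U) t) := by
    have h1 := ht.map (ro (le_inf inf_le_right (inf_le_left.trans hV) : V ⊓ U ≤ U ⊓ U'))
    rwa [ro_ro] at h1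
  constructor
  · intro p q hpq
    refine tw_ext U t N hpq ?_
    have h1 : ro (inf_le_right : V ⊓ U ≤ U) t • jjE U N V (ap (twSnd U t N) V p) =
        ro (inf_le_right : V ⊓ U ≤ U) t • jjE U N V (ap (twSnd U t N) V q) := by
      rw [← tw_cond, ← tw_cond, hpq]
    exact hu.smul_left_cancel.1 h1
  · intro a
    obtain ⟨v, hv⟩ := hu.exists_right_inv
    obtain ⟨p, h1, -⟩ := tw_exists U t N a (v • rs N inf_le_left a) (by
      rw [smul_smul, hv, one_smul])
    exact ⟨p, h1⟩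

lemma isVB_tw (U U' : X.Opens) (hc : U ⊔ U' = ⊤) (t : Γ(X, U)) (N : X.Modules)
    (ht : IsUnit (ro (inf_le_left : U ⊓ U' ≤ U) t)) (hN : IsVB N) : IsVB (Tw U t N) := by
  intro x
  obtain ⟨W, hx, n, e, he⟩ := hN x
  have hxc : x ∈ U ⊔ U' := by rw [hc]; trivial
  rcases hxc with hxU | hxU
  · have h1 : IsBasisOn (fun i => ap (jjU U N) (W ⊓ U) (rs N inf_le_left (e i))) :=
      (he.mono inf_le_left).map (jjU U N) (fun V hV => isoOn_jjU U N V (hV.trans inf_le_right))
    obtain ⟨e', -, he'⟩ := h1.comap ((isoOn_twSnd U t N).mono inf_le_right)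
    exact ⟨W ⊓ U, ⟨hx, hxU⟩, n, e', he'⟩
  · obtain ⟨e', -, he'⟩ := (he.mono (inf_le_left : W ⊓ U' ≤ W)).comap
      ((isoOn_twFst U U' t N ht).mono inf_le_right)
    exact ⟨W ⊓ U', ⟨hx, hxU⟩, n, e', he'⟩

lemma isZero_of_local {N : X.Modules} (H : ∀ (V : X.Opens) (x : X), x ∈ V → ∃ (B : X.Opens)
    (_ : B ≤ V), x ∈ B ∧ Subsingleton Γ(N, B)) : IsZero N := by
  rw [IsZero.iff_id_eq_zero]
  apply ap_ext
  intro V m
  rw [ap_id, ap_zero]
  apply ext_rs_of_mem
  intro x hx
  obtain ⟨B, hB, hxB, hs⟩ := H V x hx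
  exact ⟨B, hB, hxB, Subsingleton.elim _ _⟩

lemma bijective_of_local {M N : X.Modules} (φ : M ⟶ N)
    (H : ∀ (V : X.Opens) (x : X), x ∈ V → ∃ (B : X.Opens) (_ : B ≤ V), x ∈ B ∧
      Function.Bijective (ap φ B)) (V : X.Opens) : Function.Bijective (ap φ V) := by
  have inj : ∀ V, Function.Injective (ap φ V) := by
    intro V a b hab
    apply ext_rs_of_mem
    intro x hx
    obtain ⟨B, hB, hxB, hbij⟩ := H V x hx
    refine ⟨B, hB, hxB, hbij.1 ?_⟩
    rw [ap_rs, ap_rs, hab]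
  refine ⟨inj V, ?_⟩
  intro s
  choose B hB hxB hbij using fun x : V => H V x.1 x.2
  choose a ha using fun x : V => (hbij x).2 (rs N (hB x) s)
  obtain ⟨t, ht⟩ := exists_glue (M := M) B hB (by
    intro x hx
    rw [Opens.mem_iSup]
    exact ⟨⟨x, hx⟩, hxB ⟨x, hx⟩⟩) a (by
    intro x y
    apply inj
    rw [ap_rs, ap_rs, ha, ha, rs_rs, rs_rs])
  refine ⟨t, ?_⟩
  apply ext_rs_of_mem
  intro x hx
  refine ⟨B ⟨x, hx⟩, hB _, hxB _, ?_⟩
  rw [← ap_rs, ht, ha]

end Pool.Agent.W506
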