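import Pool.Agent.W506.S1

/-!
Exactness of sections; the modules representing sections; injectives are flasque.
-/

universe u v

open CategoryTheory Limits Opposite TopologicalSpace AlgebraicGeometry

namespace Pool.Agent.W506

set_option backward.isDefEq.respectTransparency false

variable {X : Scheme.{u}}

/-- sections over `U` as a functor to abelian groups -/
noncomputable def secF (U : X.Opens) : X.Modules ⥤ Ab.{u} :=
  Scheme.Modules.toPresheaf X ⋙ (evaluation _ _).obj (op U)

instance (U : X.Opens) : PreservesLimits (secF U) :=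
  have : PreservesLimits ((evaluation (Opens X)ᵒᵖ Ab.{u}).obj (op U)) := inferInstance
  @comp_preservesLimits _ _ _ _ _ _ (Scheme.Modules.toPresheaf X) _ _ this

instance (U : X.Opens) : PreservesFiniteLimits (secF U) := inferInstance

instance (U : X.Opens) : (secF U).PreservesZeroMorphisms where
  map_zero _ _ := rfl

lemma ap_injective {M N : X.Modules} (φ : M ⟶ N) [Mono φ] (U : X.Opens) :
    Function.Injective (ap φ U) := by
  have : Mono ((secF U).map φ) := inferInstance
  exact (AddCommGrpCat.mono_iff_injective _).1 this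

lemma ap_exact (S : ShortComplex X.Modules) (hS : S.Exact) [Mono S.f] (U : X.Opens)
    (s : Γ(S.X₂, U)) (hs : ap S.g U s = 0) : ∃ t, ap S.f U t = s := by
  have h1 := hS.map_of_mono_of_preservesKernel (secF U) inferInstance inferInstance
  rw [ShortComplex.ab_exact_iff] at h1
  exact h1 s hs

lemma isIso_of_ap_bijective {M N : X.Modules} (φ : M ⟶ N)
    (h : ∀ U, Function.Bijective (ap φ U)) : IsIso φ := by
  rw [Scheme.Modules.Hom.isIso_iff_isIso_app]
  intro U
  rw [ConcreteCategory.isIso_iff_bijective]
  exact h U

lemma ap_bijective_of_isIso {M N : X.Modules} (φ : M ⟶ N) [IsIso φ] (U : X.Opens) :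
    Function.Bijective (ap φ U) := by
  have : IsIso (φ.app U) := inferInstance
  rw [ConcreteCategory.isIso_iff_bijective] at this
  exact this

lemma mono_of_ap_injective {M N : X.Modules} (φ : M ⟶ N)
    (h : ∀ U, Function.Injective (ap φ U)) : Mono φ := by
  constructor
  intro K f g hfg
  apply ap_ext
  intro U m
  apply h U
  rw [← ap_comp, ← ap_comp, hfg]

/-- the sheaf of modules representing sections over `U` -/
noncomputable def LU (U : X.Opens) : X.Modules := freeOn X.ringCatSheaf U

/-- morphisms from `LU U` -/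
noncomputable def luEquiv (U : X.Opens) (M : X.Modules) : (LU U ⟶ M) ≃ Γ(M, U) :=
  freeOnEquiv X.ringCatSheaf U M

lemma luEquiv_comp (U : X.Opens) {M N : X.Modules} (f : LU U ⟶ M) (g : M ⟶ N) :
    luEquiv U N (f ≫ g) = ap g U (luEquiv U M f) :=
  freeOnEquiv_comp X.ringCatSheaf U f g

/-- the canonical section -/
noncomputable def gen (U : X.Opens) : Γ(LU U, U) := luEquiv U _ (𝟙 _)

/-- the morphism given by a section -/
noncomputable def secHom {U : X.Opens} {M : X.Modules} (m : Γ(M, U)) : LU U ⟶ M :=
  (luEquiv U M).symm m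

lemma luEquiv_apply (U : X.Opens) {M : X.Modules} (f : LU U ⟶ M) :
    luEquiv U M f = ap f U (gen U) := by
  rw [gen, ← luEquiv_comp, Category.id_comp]

@[simp]
lemma ap_secHom_gen {U : X.Opens} {M : X.Modules} (m : Γ(M, U)) : ap (secHom m) U (gen U) = m := by
  rw [← luEquiv_apply, secHom, Equiv.apply_symm_apply]

lemma lu_hom_ext {U : X.Opens} {M : X.Modules} {f g : LU U ⟶ M}
    (h : ap f U (gen U) = ap g U (gen U)) : f = g := by
  apply (luEquiv U M).injective
  rw [luEquiv_apply, luEquiv_apply, h]

lemma secHom_comp {U : X.Opens} {M N : X.Modules} (m : Γ(M, U)) (g : M ⟶ N) :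
    secHom m ≫ g = secHom (ap g U m) := by
  apply lu_hom_ext
  rw [ap_comp, ap_secHom_gen, ap_secHom_gen]

section general

variable {C : Type u} [SmallCategory.{u} C] {J : GrothendieckTopology C}
  (R : Sheaf J RingCat.{u})

set_option backward.isDefEq.respectTransparency.types false in
lemma mono_freeOnFunctor_map {U V : C} (i : V ⟶ U) [Mono i] : Mono ((freeOnFunctor R).map i) := by
  have h1 : Mono ((PresheafOfModules.free R.obj).map (yoneda.map i)) := by
    rw [PresheafOfModules.mono_iff_surjective]
    intro W
    have h2 : Function.Injective (fun (x : W.unop ⟶ V) => x ≫ i) := fun a b hab =>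
      (cancel_mono i).1 hab
    exact Finsupp.mapDomain_injective h2
  exact inferInstanceAs (Mono ((PresheafOfModules.sheafification (𝟙 R.obj)).map
    ((PresheafOfModules.free R.obj).map (yoneda.map i))))

set_option backward.isDefEq.respectTransparency.types false in
lemma freeOnEquiv_map {U V : C} (i : V ⟶ U) {M : SheafOfModules.{u} R} (f : freeOn R U ⟶ M) :
    freeOnEquiv R V M ((freeOnFunctor R).map i ≫ f) = M.val.map i.op (freeOnEquiv R U M f) := by
  have h := (PresheafOfModules.sheafificationAdjunction (𝟙 R.obj)).homEquiv_naturality_left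
    ((PresheafOfModules.free R.obj).map (yoneda.map i)) f
  have h2 := congrArg PresheafOfModules.freeYonedaEquiv h
  refine h2.trans ?_
  let ψ : (PresheafOfModules.free R.obj).obj (yoneda.obj U) ⟶ M.val :=
    ((PresheafOfModules.sheafificationAdjunction (𝟙 R.obj)).homEquiv
      ((PresheafOfModules.free R.obj).obj (yoneda.obj U)) M) f
  have h3 := (PresheafOfModules.freeAdjunction R.obj).homEquiv_naturality_left
    (yoneda.map i) ψ
  rw [PresheafOfModules.freeAdjunction_homEquiv, PresheafOfModules.freeAdjunction_homEquiv] at h3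
  have h4 := congrArg yonedaEquiv h3
  refine h4.trans ?_
  exact (yonedaEquiv_naturality (F := M.val.presheaf ⋙ forget _)
    (PresheafOfModules.freeHomEquiv ψ) i).symm

end general

/-- the map `LU V ⟶ LU U` for `V ≤ U` -/
noncomputable def luMap {U V : X.Opens} (h : V ≤ U) : LU V ⟶ LU U :=
  (freeOnFunctor X.ringCatSheaf).map (homOfLE h)

instance {U V : X.Opens} (h : V ≤ U) : Mono (luMap h) :=
  mono_freeOnFunctor_map X.ringCatSheaf (homOfLE h)

lemma ap_luMap_comp {U V : X.Opens} (h : V ≤ U) {M : X.Modules} (f : LU U ⟶ M) :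
    ap (luMap h ≫ f) V (gen V) = rs M h (ap f U (gen U)) := by
  rw [← luEquiv_apply, ← luEquiv_apply]
  exact freeOnEquiv_map X.ringCatSheaf (homOfLE h) f

/-- flasque modules -/
def Flasque (M : X.Modules) : Prop := ∀ (U V : X.Opens) (h : V ≤ U), Function.Surjective (rs M h)

lemma flasque_of_injective (I : X.Modules) [Injective I] : Flasque I := by
  intro U V h s
  let f : LU V ⟶ I := secHom s
  let g : LU U ⟶ I := Injective.factorThru f (luMap h)
  refine ⟨ap g U (gen U), ?_⟩
  rw [← ap_luMap_comp, Injective.comp_factorThru, ap_secHom_gen]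

lemma flasque_pushforward {Y : Scheme.{u}} (f : X ⟶ Y) {M : X.Modules} (hM : Flasque M) :
    Flasque ((Scheme.Modules.pushforward f).obj M) :=
  fun U V h => hM (f ⁻¹ᵁ U) (f ⁻¹ᵁ V) (by exact fun x hx => h hx)

end Pool.Agent.W506
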