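import Pool.Agent.W506.S2

/-!
The sum property and the vanishing of first cohomology on affine opens.
-/

universe u v

open CategoryTheory Limits Opposite TopologicalSpace AlgebraicGeometry

namespace Pool.Agent.W506

set_option backward.isDefEq.respectTransparency false

variable {X : Scheme.{u}}

/-- every section on an intersection is a sum of sections on the two opens -/
def SumOf (N : X.Modules) (U V : X.Opens) : Prop :=
  ∀ n : Γ(N, U ⊓ V), ∃ (a : Γ(N, U)) (b : Γ(N, V)), n = rs N inf_le_left a + rs N inf_le_right b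

/-- the sum property for pairs of basic opens in affine opens contained in `W` -/
def SumOn (N : X.Modules) (W : X.Opens) : Prop :=
  ∀ (W' : X.Opens), IsAffineOpen W' → W' ≤ W → ∀ f g : Γ(X, W'), (∃ a b, a * f + b * g = 1) →
    SumOf N (X.basicOpen f) (X.basicOpen g)

lemma SumOn.mono {N : X.Modules} {W W₁ : X.Opens} (h : SumOn N W) (hW : W₁ ≤ W) : SumOn N W₁ :=
  fun W' hW' hle => h W' hW' (hle.trans hW)

lemma sumOf_of_flasque {N : X.Modules} (hN : Flasque N) (U V : X.Opens) : SumOf N U V := by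
  intro n
  obtain ⟨a, ha⟩ := hN U (U ⊓ V) inf_le_left n
  exact ⟨a, 0, by rw [ha, map_zero, add_zero]⟩

lemma sumOn_of_flasque {N : X.Modules} (hN : Flasque N) (W : X.Opens) : SumOn N W :=
  fun _ _ _ _ _ _ => sumOf_of_flasque hN _ _

/-- a section lifts -/
def Lifts {M N : X.Modules} (φ : M ⟶ N) {U : X.Opens} (s : Γ(N, U)) : Prop := ∃ t, ap φ U t = s

lemma Lifts.rs {M N : X.Modules} {φ : M ⟶ N} {U V : X.Opens} (h : V ≤ U) {s : Γ(N, U)}
    (hs : Lifts φ s) : Lifts φ (rs N h s) := by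
  obtain ⟨t, rfl⟩ := hs
  exact ⟨Pool.Agent.W506.rs M h t, ap_rs φ h t⟩

lemma lifts₂ (S : ShortComplex X.Modules) (hS : S.ShortExact) {U V W : X.Opens} (hU : U ≤ W)
    (hV : V ≤ W) (hc : W ≤ U ⊔ V) (hsum : SumOf S.X₁ U V) (s : Γ(S.X₃, W))
    (h₁ : Lifts S.g (rs S.X₃ hU s)) (h₂ : Lifts S.g (rs S.X₃ hV s)) : Lifts S.g s := by
  obtain ⟨t₁, ht₁⟩ := h₁
  obtain ⟨t₂, ht₂⟩ := h₂
  have := hS.mono_f
  have h3 : ap S.g (U ⊓ V) (rs S.X₂ inf_le_left t₁ - rs S.X₂ inf_le_right t₂) = 0 := by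
    rw [map_sub, ap_rs, ap_rs, ht₁, ht₂, rs_rs, rs_rs, sub_self]
  obtain ⟨n, hn⟩ := ap_exact S hS.exact (U ⊓ V) _ h3
  obtain ⟨a, b, hab⟩ := hsum n
  have h4 : rs S.X₂ inf_le_left (t₁ - ap S.f U a) = rs S.X₂ inf_le_right (t₂ + ap S.f V b) := by
    have h5 := congrArg (ap S.f (U ⊓ V)) hab
    rw [map_add, ap_rs, ap_rs, hn] at h5
    rw [map_sub, map_add, sub_eq_iff_eq_add, add_assoc, add_comm (rs S.X₂ _ (ap S.f V b)), ← h5]
    abel
  obtain ⟨r, hr₁, hr₂⟩ := exists_glue₂ hU hV hc _ _ h4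
  have hz : ∀ (U : X.Opens) (a : Γ(S.X₁, U)), ap S.g U (ap S.f U a) = 0 := by
    intro U a
    rw [← ap_comp, S.zero]
    rfl
  refine ⟨r, ?_⟩
  apply ext_rs₂ hU hV hc
  · rw [← ap_rs, hr₁, map_sub, ht₁, hz, sub_zero]
  · rw [← ap_rs, hr₂, map_add, ht₂, hz, add_zero]

lemma basicOpen_cover {W : X.Opens} {f g : Γ(X, W)} (h : ∃ a b, a * f + b * g = 1) :
    W ≤ X.basicOpen f ⊔ X.basicOpen g := by
  obtain ⟨a, b, h⟩ := h
  have h1 : X.basicOpen (a * f + b * g) = W := by rw [h]; exact X.basicOpen_one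
  have h2 := X.basicOpen_add_le (a * f) (b * g)
  rw [h1, X.basicOpen_mul, X.basicOpen_mul] at h2
  exact h2.trans (sup_le_sup inf_le_right inf_le_right)

lemma isUnit_ro_basicOpen {W : X.Opens} (f : Γ(X, W)) :
    IsUnit (ro (X.basicOpen_le f) f) :=
  RingedSpace.isUnit_res_basicOpen X.toRingedSpace f

lemma basicOpen_ro {W W' : X.Opens} (h : W' ≤ W) (f : Γ(X, W)) :
    X.basicOpen (ro h f) = W' ⊓ X.basicOpen f :=
  X.basicOpen_res f (homOfLE h).op

lemma lifts_of_cover (S : ShortComplex X.Modules) (hS : S.ShortExact) {W : X.Opens}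
    (hsum : SumOn S.X₁ W) (n : ℕ) : ∀ (W' : X.Opens), IsAffineOpen W' → W' ≤ W →
    ∀ (q : Γ(S.X₃, W')) (a f : Fin n → Γ(X, W')), (∑ i, a i * f i = 1) →
      (∀ i, Lifts S.g (rs S.X₃ (X.basicOpen_le (f i)) q)) → Lifts S.g q := by
  induction n with
  | zero =>
    intro W' _ _ q a f h _
    have h1 : (1 : Γ(X, W')) = 0 := by rw [← h]; simp
    have : q = 0 := by rw [← one_smul Γ(X, W') q, h1, zero_smul]
    exact ⟨0, by rw [this, map_zero]⟩
  | succ n ih =>
    intro W' hW' hle q a f h hl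
    let g : Γ(X, W') := ∑ i : Fin n, a i.succ * f i.succ
    have hg : a 0 * f 0 + 1 * g = 1 := by
      rw [one_mul, ← h, Fin.sum_univ_succ]
    have hu : IsUnit (ro (X.basicOpen_le g) g) := isUnit_ro_basicOpen g
    obtain ⟨v, hv⟩ := hu.exists_right_inv
    refine lifts₂ S hS (X.basicOpen_le (f 0)) (X.basicOpen_le g) (basicOpen_cover ⟨_, _, hg⟩)
      (hsum W' hW' hle _ _ ⟨_, _, hg⟩) q (hl 0) ?_
    refine ih (X.basicOpen g) (hW'.basicOpen g) ((X.basicOpen_le g).trans hle) _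
      (fun i => v * ro (X.basicOpen_le g) (a i.succ))
      (fun i => ro (X.basicOpen_le g) (f i.succ)) ?_ ?_
    · have h2 : ∑ i : Fin n, v * ro (X.basicOpen_le g) (a i.succ) *
          ro (X.basicOpen_le g) (f i.succ) = v * ro (X.basicOpen_le g) g := by
        rw [show ro (X.basicOpen_le g) g = ∑ i : Fin n, ro (X.basicOpen_le g) (a i.succ) *
          ro (X.basicOpen_le g) (f i.succ) by simp only [g, map_sum, map_mul], Finset.mul_sum]
        exact Finset.sum_congr rfl fun i _ => by ring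
      rw [h2, mul_comm, hv]
    · intro i
      rw [rs_rs]
      have h3 : X.basicOpen (ro (X.basicOpen_le g) (f i.succ)) ≤ X.basicOpen (f i.succ) := by
        rw [basicOpen_ro]
        exact inf_le_right
      have h4 := (hl i.succ).rs h3
      rw [rs_rs] at h4
      exact h4

/-- vanishing of the first cohomology -/
theorem ap_surjective_of_sumOn (S : ShortComplex X.Modules) (hS : S.ShortExact) {W W' : X.Opens}
    (hsum : SumOn S.X₁ W) (hW' : IsAffineOpen W') (hle : W' ≤ W) :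
    Function.Surjective (ap S.g W') := by
  intro q
  have := hS.epi_g
  let s : Set Γ(X, W') := {f | Lifts S.g (rs S.X₃ (X.basicOpen_le f) q)}
  have hs : Ideal.span s = ⊤ := by
    rw [← hW'.self_le_iSup_basicOpen_iff]
    intro x hx
    obtain ⟨V, hV, hxV, t, ht⟩ := locally_surj_of_epi S.g W' q x hx
    obtain ⟨f, hf, hxf⟩ := hW'.exists_basicOpen_le (V := V) ⟨x, hxV⟩ hx
    have hfs : f ∈ s := by
      have h1 : Lifts S.g (rs S.X₃ hV q) := ⟨t, ht⟩
      have h2 := h1.rs hf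
      rw [rs_rs] at h2
      exact h2
    rw [Opens.mem_iSup]
    exact ⟨⟨f, hfs⟩, hxf⟩
  have h1 : (1 : Γ(X, W')) ∈ Ideal.span s := by rw [hs]; trivial
  obtain ⟨n, a, f, h⟩ := Submodule.mem_span_set'.1 h1
  exact lifts_of_cover S hS hsum n W' hW' hle q a (fun i => (f i : Γ(X, W'))) h
    (fun i => (f i).2)

lemma sumOn_coker (S : ShortComplex X.Modules) (hS : S.ShortExact) {W : X.Opens}
    (h₁ : SumOn S.X₁ W) (h₂ : SumOn S.X₂ W) : SumOn S.X₃ W := by
  intro W' hW' hle f g hfg n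
  have hW'' : IsAffineOpen (X.basicOpen f ⊓ X.basicOpen g) := by
    rw [← X.basicOpen_mul]
    exact hW'.basicOpen _
  obtain ⟨m, hm⟩ := ap_surjective_of_sumOn S hS h₁ hW''
    ((inf_le_left.trans (X.basicOpen_le f)).trans hle) n
  obtain ⟨a, b, hab⟩ := h₂ W' hW' hle f g hfg m
  refine ⟨ap S.g _ a, ap S.g _ b, ?_⟩
  rw [← hm, hab, map_add, ap_rs, ap_rs]

lemma biprod_section {M N : X.Modules} {U : X.Opens} (s : Γ(M ⊞ N, U)) :
    s = ap biprod.inl U (ap biprod.fst U s) + ap biprod.inr U (ap biprod.snd U s) := by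
  have h := @biprod.total _ _ _ M N _
  have h2 : ap (biprod.fst ≫ biprod.inl + biprod.snd ≫ biprod.inr : M ⊞ N ⟶ M ⊞ N) U s =
    ap (𝟙 _) U s := by rw [h]
  exact h2.symm

lemma sumOf_biprod {M N : X.Modules} {U V : X.Opens} (hM : SumOf M U V) (hN : SumOf N U V) :
    SumOf (M ⊞ N) U V := by
  intro s
  obtain ⟨a, b, hab⟩ := hM (ap biprod.fst _ s)
  obtain ⟨c, d, hcd⟩ := hN (ap biprod.snd _ s)
  refine ⟨ap biprod.inl _ a + ap biprod.inr _ c, ap biprod.inl _ b + ap biprod.inr _ d, ?_⟩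
  rw [biprod_section s, hab, hcd]
  simp only [map_add, ap_rs]
  abel

lemma sumOn_biprod {M N : X.Modules} {W : X.Opens} (hM : SumOn M W) (hN : SumOn N W) :
    SumOn (M ⊞ N) W :=
  fun W' hW' hle f g hfg => sumOf_biprod (hM W' hW' hle f g hfg) (hN W' hW' hle f g hfg)

end Pool.Agent.W506
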