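import Pool.Agent.W506.S3
import Pool.Agent.W506.D4

/-!
The class of modules adapted to the pushforward along a morphism with two charts.
-/

universe u v

open CategoryTheory Limits Opposite TopologicalSpace AlgebraicGeometry

namespace Pool.Agent.W506

set_option backward.isDefEq.respectTransparency false

variable {X Y : Scheme.{u}}

/-- two charts, affine over the base -/
structure Cover2 (π : Y ⟶ X) (U₀ U₁ : Y.Opens) : Prop where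
  cover : U₀ ⊔ U₁ = ⊤
  aff₀ : ∀ V : X.Opens, IsAffineOpen V → IsAffineOpen (π ⁻¹ᵁ V ⊓ U₀)
  aff₁ : ∀ V : X.Opens, IsAffineOpen V → IsAffineOpen (π ⁻¹ᵁ V ⊓ U₁)
  aff₀₁ : ∀ V : X.Opens, IsAffineOpen V → IsAffineOpen ((π ⁻¹ᵁ V ⊓ U₀) ⊓ (π ⁻¹ᵁ V ⊓ U₁))

lemma Cover2.le {π : Y ⟶ X} {U₀ U₁ : Y.Opens} (h : Cover2 π U₀ U₁) (V : X.Opens) :
    π ⁻¹ᵁ V ≤ (π ⁻¹ᵁ V ⊓ U₀) ⊔ (π ⁻¹ᵁ V ⊓ U₁) := by
  rw [← inf_sup_left, h.cover, inf_top_eq]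

/-- the modules adapted to the pushforward -/
def PiAcyc (π : Y ⟶ X) (U₀ U₁ : Y.Opens) (N : Y.Modules) : Prop :=
  ∀ x : X, ∃ V₀ : X.Opens, x ∈ V₀ ∧ SumOn N (π ⁻¹ᵁ V₀ ⊓ U₀) ∧ SumOn N (π ⁻¹ᵁ V₀ ⊓ U₁) ∧
    ∀ V : X.Opens, IsAffineOpen V → V ≤ V₀ → SumOf N (π ⁻¹ᵁ V ⊓ U₀) (π ⁻¹ᵁ V ⊓ U₁)

lemma piAcyc_of_flasque {π : Y ⟶ X} {U₀ U₁ : Y.Opens} {N : Y.Modules} (hN : Flasque N) :
    PiAcyc π U₀ U₁ N :=
  fun _ => ⟨⊤, trivial, sumOn_of_flasque hN _, sumOn_of_flasque hN _,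
    fun _ _ _ => sumOf_of_flasque hN _ _⟩

lemma preimage_mono (π : Y ⟶ X) {V V' : X.Opens} (h : V ≤ V') : π ⁻¹ᵁ V ≤ π ⁻¹ᵁ V' :=
  fun _ hx => h hx

lemma exists_affine_le {V : X.Opens} {x : X} (hx : x ∈ V) :
    ∃ V' : X.Opens, IsAffineOpen V' ∧ x ∈ V' ∧ V' ≤ V := by
  obtain ⟨_, ⟨V', hV', rfl⟩, hx', hle⟩ :=
    X.isBasis_affineOpens.exists_subset_of_mem_open hx V.isOpen
  exact ⟨V', hV', hx', hle⟩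

theorem adapted_piAcyc {π : Y ⟶ X} {U₀ U₁ : Y.Opens} (h : Cover2 π U₀ U₁) :
    Adapted (Scheme.Modules.pushforward π) (PiAcyc π U₀ U₁) where
  inj I _ := piAcyc_of_flasque (flasque_of_injective I)
  coker S hS h₁ h₂ x := by
    obtain ⟨V₁, hx₁, h₁₀, h₁₁, h₁s⟩ := h₁ x
    obtain ⟨V₂, hx₂, h₂₀, h₂₁, h₂s⟩ := h₂ x
    have hle₁ : ∀ U : Y.Opens, π ⁻¹ᵁ (V₁ ⊓ V₂) ⊓ U ≤ π ⁻¹ᵁ V₁ ⊓ U := fun U =>
      inf_le_inf_right _ (preimage_mono π inf_le_left)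
    have hle₂ : ∀ U : Y.Opens, π ⁻¹ᵁ (V₁ ⊓ V₂) ⊓ U ≤ π ⁻¹ᵁ V₂ ⊓ U := fun U =>
      inf_le_inf_right _ (preimage_mono π inf_le_right)
    refine ⟨V₁ ⊓ V₂, ⟨hx₁, hx₂⟩, sumOn_coker S hS (h₁₀.mono (hle₁ _)) (h₂₀.mono (hle₂ _)),
      sumOn_coker S hS (h₁₁.mono (hle₁ _)) (h₂₁.mono (hle₂ _)), ?_⟩
    intro V hV hle n
    obtain ⟨m, hm⟩ := ap_surjective_of_sumOn S hS h₁₀ (h.aff₀₁ V hV)
      (inf_le_left.trans (inf_le_inf_right _ (preimage_mono π (hle.trans inf_le_left)))) n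
    obtain ⟨a, b, hab⟩ := h₂s V hV (hle.trans inf_le_right) m
    refine ⟨ap S.g _ a, ap S.g _ b, ?_⟩
    rw [← hm, hab, map_add, ap_rs, ap_rs]
  epi S hS h₁ := by
    apply epi_of_locally_surj
    intro U s x hx
    obtain ⟨V₁, hx₁, h₁₀, h₁₁, h₁s⟩ := h₁ x
    obtain ⟨V, hV, hxV, hle⟩ := exists_affine_le (V := U ⊓ V₁) ⟨hx, hx₁⟩
    have hle₁ : V ≤ V₁ := hle.trans inf_le_right
    have hleU : V ≤ U := hle.trans inf_le_left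
    have h2 : Lifts S.g (rs S.X₃ (preimage_mono π hleU) s) := by
      refine lifts₂ S hS inf_le_left inf_le_left (h.le V) (h₁s V hV hle₁) _ ?_ ?_
      · exact ap_surjective_of_sumOn S hS h₁₀ (h.aff₀ V hV)
          (inf_le_inf_right _ (preimage_mono π hle₁)) _
      · exact ap_surjective_of_sumOn S hS h₁₁ (h.aff₁ V hV)
          (inf_le_inf_right _ (preimage_mono π hle₁)) _
    obtain ⟨t, ht⟩ := h2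
    exact ⟨V, hleU, hxV, t, ht⟩
  sum M N h₁ h₂ x := by
    obtain ⟨V₁, hx₁, h₁₀, h₁₁, h₁s⟩ := h₁ x
    obtain ⟨V₂, hx₂, h₂₀, h₂₁, h₂s⟩ := h₂ x
    have hle₁ : ∀ U : Y.Opens, π ⁻¹ᵁ (V₁ ⊓ V₂) ⊓ U ≤ π ⁻¹ᵁ V₁ ⊓ U := fun U =>
      inf_le_inf_right _ (preimage_mono π inf_le_left)
    have hle₂ : ∀ U : Y.Opens, π ⁻¹ᵁ (V₁ ⊓ V₂) ⊓ U ≤ π ⁻¹ᵁ V₂ ⊓ U := fun U =>
      inf_le_inf_right _ (preimage_mono π inf_le_right)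
    exact ⟨V₁ ⊓ V₂, ⟨hx₁, hx₂⟩, sumOn_biprod (h₁₀.mono (hle₁ _)) (h₂₀.mono (hle₂ _)),
      sumOn_biprod (h₁₁.mono (hle₁ _)) (h₂₁.mono (hle₂ _)),
      fun V hV hle => sumOf_biprod (h₁s V hV (hle.trans inf_le_left))
        (h₂s V hV (hle.trans inf_le_right))⟩

end Pool.Agent.W506
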