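import Mathlib

/-!
Local freeness of finite projective modules, in an elementary form.
-/

universe u v

namespace Pool.Agent.W506

open Module

lemma exists_local_basis {R : Type u} [CommRing R] {P : Type v} [AddCommGroup P] [Module R P]
    [Module.Finite R P] [Module.Projective R P] (p : Ideal R) [p.IsPrime] :
    ∃ (r : R) (_ : r ∉ p) (n : ℕ) (e : Fin n → P),
      (∀ a : Fin n → R, ∑ i, a i • e i = 0 → ∃ k : ℕ, ∀ i, r ^ k * a i = 0) ∧
      (∀ x : P, ∃ (k : ℕ) (a : Fin n → R), r ^ k • x = ∑ i, a i • e i) := by
  classical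
  have : Module.FinitePresentation R P := Module.finitePresentation_of_projective R P
  have h1 : Module.Free (Localization.AtPrime p) (LocalizedModule p.primeCompl P) := by
    have : Module.Projective (Localization.AtPrime p) (LocalizedModule p.primeCompl P) :=
      inferInstance
    exact Module.free_of_flat_of_isLocalRing
  obtain ⟨r, hr, b', -⟩ := Module.FinitePresentation.exists_basis_localizedModule_powers
    p.primeCompl (LocalizedModule.mkLinearMap p.primeCompl P) (Localization.AtPrime p)
    (Module.finBasis (Localization.AtPrime p) (LocalizedModule p.primeCompl P))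
  let n := Module.finrank (Localization.AtPrime p) (LocalizedModule p.primeCompl P)
  let f := LocalizedModule.mkLinearMap (Submonoid.powers r) P
  have h2 : ∀ i, ∃ (e : P) (k : ℕ), r ^ k • b' i = f e := by
    intro i
    obtain ⟨⟨e, s⟩, hs⟩ := IsLocalizedModule.surj (Submonoid.powers r) f (b' i)
    obtain ⟨_, k, rfl⟩ := s
    exact ⟨e, k, hs⟩
  choose e k he using h2
  have hunit : ∀ m : ℕ, IsUnit (algebraMap R (Localization (Submonoid.powers r)) (r ^ m)) :=
    fun m => IsLocalization.map_units (M := Submonoid.powers r) _ ⟨r ^ m, m, rfl⟩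
  refine ⟨r, hr, n, e, ?_, ?_⟩
  · intro a ha
    have h3 : ∑ i, (algebraMap R (Localization (Submonoid.powers r)) (a i * r ^ k i)) • b' i =
        0 := by
      have h4 := congrArg f ha
      rw [map_zero, map_sum] at h4
      rw [← h4]
      refine Finset.sum_congr rfl fun i _ => ?_
      rw [map_smul, ← he, algebraMap_smul, mul_smul]
    have h5 := Fintype.linearIndependent_iff.1 b'.linearIndependent _ h3
    have h6 : ∀ i, ∃ m : ℕ, r ^ m * a i = 0 := by
      intro i
      obtain ⟨⟨_, m, rfl⟩, hm⟩ := (IsLocalization.map_eq_zero_iff (Submonoid.powers r)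
        (Localization (Submonoid.powers r)) _).1 (h5 i)
      exact ⟨m + k i, by rw [pow_add, mul_assoc, mul_comm (r ^ k i)]; exact hm⟩
    choose m hm using h6
    refine ⟨∑ i, m i, fun i => ?_⟩
    rw [← Finset.add_sum_erase _ _ (Finset.mem_univ i), add_comm, pow_add, mul_assoc, hm, mul_zero]
  · intro x
    have h3 := b'.sum_repr (f x)
    obtain ⟨⟨_, m, rfl⟩, hm⟩ := IsLocalization.exist_integer_multiples_of_finset
      (Submonoid.powers r) (Finset.univ.image (fun i => b'.repr (f x) i))
    have h4 : ∀ i, ∃ c : R, algebraMap R (Localization (Submonoid.powers r)) c =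
        (r ^ m) • b'.repr (f x) i := fun i => hm _ (Finset.mem_image_of_mem _ (Finset.mem_univ i))
    choose c hc using h4
    let K := ∑ i, k i
    have hK : ∀ i, ∃ l, K = l + k i := fun i => ⟨∑ j ∈ Finset.univ.erase i, k j, by
      rw [add_comm]; exact (Finset.add_sum_erase _ _ (Finset.mem_univ i)).symm⟩
    choose l hl using hK
    have h5 : f (r ^ (K + m) • x) = f (∑ i, (c i * r ^ (l i)) • e i) := by
      rw [map_smul, map_sum, ← h3, Finset.smul_sum]
      refine Finset.sum_congr rfl fun i _ => ?_
      rw [map_smul, ← he, smul_smul]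
      have h6 : c i * r ^ l i * r ^ k i = c i * r ^ K := by rw [hl i, pow_add, mul_assoc]
      rw [h6, mul_comm, mul_smul, ← algebraMap_smul (Localization (Submonoid.powers r)) (c i),
        hc, pow_add, mul_smul, smul_assoc]
    rw [← sub_eq_zero, ← map_sub] at h5
    obtain ⟨⟨_, q, rfl⟩, hq⟩ := (IsLocalizedModule.eq_zero_iff (Submonoid.powers r) f).1 h5
    refine ⟨q + (K + m), fun i => r ^ q * (c i * r ^ l i), ?_⟩
    have h7 : r ^ q • (r ^ (K + m) • x - ∑ i, (c i * r ^ l i) • e i) = 0 := hq
    rw [smul_sub, sub_eq_zero, smul_smul, ← pow_add] at h7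
    rw [h7, Finset.smul_sum]
    exact Finset.sum_congr rfl fun i _ => by rw [smul_smul]

end Pool.Agent.W506
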