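import Pool.Agent.W506.S3
import Pool.Agent.W506.S5

/-!
Quasi-coherence in terms of sections; local bases.
-/

universe u v

open CategoryTheory Limits Opposite TopologicalSpace AlgebraicGeometry

namespace Pool.Agent.W506

set_option backward.isDefEq.respectTransparency false

variable {X : Scheme.{u}}

lemma ext_ro_of_mem {V : X.Opens} {s t : Γ(X, V)}
    (h : ∀ x ∈ V, ∃ U : X.Opens, ∃ hU : U ≤ V, x ∈ U ∧ ro hU s = ro hU t) : s = t :=
  TopCat.Presheaf.IsSheaf.section_ext X.sheaf.property (fun x hx => h x hx)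

lemma exists_glue_ro {ι : Type*} {V : X.Opens} (U : ι → X.Opens) (hU : ∀ i, U i ≤ V)
    (hc : V ≤ iSup U) (s : ∀ i, Γ(X, U i))
    (h : ∀ i j, ro (inf_le_left : U i ⊓ U j ≤ U i) (s i) =
      ro (inf_le_right : U i ⊓ U j ≤ U j) (s j)) :
    ∃ t : Γ(X, V), ∀ i, ro (hU i) t = s i := by
  obtain ⟨t, ht, -⟩ := TopCat.Sheaf.existsUnique_gluing' X.sheaf U V
    (fun i => homOfLE (hU i)) hc s (fun i j => h i j)
  exact ⟨t, ht⟩

/-- functions on a basic open of an affine open: extension -/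
lemma ro_ext {W : X.Opens} (hW : IsAffineOpen W) (f : Γ(X, W)) (a : Γ(X, X.basicOpen f)) :
    ∃ (k : ℕ) (b : Γ(X, W)), ro (X.basicOpen_le f) b = ro (X.basicOpen_le f) f ^ k * a := by
  have := hW.isLocalization_basicOpen f
  obtain ⟨⟨b, _, k, rfl⟩, h⟩ := IsLocalization.surj (Submonoid.powers f) a
  refine ⟨k, b, ?_⟩
  rw [← map_pow, mul_comm]
  exact h.symm

lemma ro_uniq {W : X.Opens} (hW : IsAffineOpen W) (f : Γ(X, W)) (b : Γ(X, W))
    (h : ro (X.basicOpen_le f) b = 0) : ∃ k : ℕ, f ^ k * b = 0 := by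
  have := hW.isLocalization_basicOpen f
  obtain ⟨⟨_, k, rfl⟩, hk⟩ := (IsLocalization.map_eq_zero_iff (Submonoid.powers f)
    Γ(X, X.basicOpen f) b).1 h
  exact ⟨k, hk⟩

/-- quasi-coherence over `W` in terms of sections -/
structure QCOn (N : X.Modules) (W : X.Opens) : Prop where
  ext : ∀ (W' : X.Opens), IsAffineOpen W' → W' ≤ W → ∀ (f : Γ(X, W')) (s : Γ(N, X.basicOpen f)),
    ∃ (k : ℕ) (t : Γ(N, W')), rs N (X.basicOpen_le f) t = ro (X.basicOpen_le f) f ^ k • s
  uniq : ∀ (W' : X.Opens), IsAffineOpen W' → W' ≤ W → ∀ (f : Γ(X, W')) (t : Γ(N, W')),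
    rs N (X.basicOpen_le f) t = 0 → ∃ k : ℕ, f ^ k • t = 0

lemma QCOn.mono {N : X.Modules} {W W₁ : X.Opens} (h : QCOn N W) (hW : W₁ ≤ W) : QCOn N W₁ :=
  ⟨fun W' hW' hle => h.ext W' hW' (hle.trans hW), fun W' hW' hle => h.uniq W' hW' (hle.trans hW)⟩

lemma QCOn.sumOn {N : X.Modules} {W : X.Opens} (h : QCOn N W) : SumOn N W := by
  intro W' hW' hle f g hfg
  obtain ⟨a, b, hab⟩ := hfg
  -- rewrite the intersection as a basic open
  have key : ∀ (D : X.Opens) (hD : D = X.basicOpen (f * g)) (hl : D ≤ X.basicOpen f)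
      (hr : D ≤ X.basicOpen g) (n : Γ(N, D)),
      ∃ (a : Γ(N, X.basicOpen f)) (b : Γ(N, X.basicOpen g)), n = rs N hl a + rs N hr b := by
    rintro D rfl hl hr n
    obtain ⟨k, t, ht⟩ := h.ext W' hW' hle (f * g) n
    obtain ⟨u, hu⟩ := (isUnit_ro_basicOpen f).exists_right_inv
    obtain ⟨v, hv⟩ := (isUnit_ro_basicOpen g).exists_right_inv
    have h1 : ∃ α β : Γ(X, W'), α * f ^ k + β * g ^ k = 1 := by
      have h2 : IsCoprime f g := ⟨a, b, hab⟩
      exact h2.pow
    obtain ⟨α, β, hαβ⟩ := h1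
    refine ⟨(ro (X.basicOpen_le f) β * u ^ k) • rs N (X.basicOpen_le f) t,
      (ro (X.basicOpen_le g) α * v ^ k) • rs N (X.basicOpen_le g) t, ?_⟩
    rw [rs_smul, rs_smul, rs_rs, rs_rs, ht, smul_smul, smul_smul, ← add_smul]
    have h3 : ro hl (ro (X.basicOpen_le f) f) * ro hl u = 1 := by
      rw [← map_mul, hu, map_one]
    have h4 : ro hr (ro (X.basicOpen_le g) g) * ro hr v = 1 := by
      rw [← map_mul, hv, map_one]
    rw [ro_ro] at h3 h4
    have h5 : ro (X.basicOpen_le (f * g)) α * ro (X.basicOpen_le (f * g)) f ^ k +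
      ro (X.basicOpen_le (f * g)) β * ro (X.basicOpen_le (f * g)) g ^ k = 1 := by
      rw [← map_pow, ← map_pow, ← map_mul, ← map_mul, ← map_add, hαβ, map_one]
    have h6 : ro hl (ro (X.basicOpen_le f) β * u ^ k) * ro (X.basicOpen_le (f * g)) (f * g) ^ k +
        ro hr (ro (X.basicOpen_le g) α * v ^ k) * ro (X.basicOpen_le (f * g)) (f * g) ^ k = 1 := by
      simp only [map_mul, map_pow, ro_ro]
      have e1 : ro (X.basicOpen_le (f * g)) β * ro hl u ^ k *
          (ro (X.basicOpen_le (f * g)) f * ro (X.basicOpen_le (f * g)) g) ^ k =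
          ro (X.basicOpen_le (f * g)) β * ro (X.basicOpen_le (f * g)) g ^ k *
            (ro (X.basicOpen_le (f * g)) f * ro hl u) ^ k := by ring
      have e2 : ro (X.basicOpen_le (f * g)) α * ro hr v ^ k *
          (ro (X.basicOpen_le (f * g)) f * ro (X.basicOpen_le (f * g)) g) ^ k =
          ro (X.basicOpen_le (f * g)) α * ro (X.basicOpen_le (f * g)) f ^ k *
            (ro (X.basicOpen_le (f * g)) g * ro hr v) ^ k := by ring
      rw [e1, e2, h3, h4, one_pow, mul_one, mul_one, add_comm]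
      exact h5
    rw [h6, one_smul]
  intro n
  exact key _ (X.basicOpen_mul f g).symm inf_le_left inf_le_right n

lemma qcOn_kernel (S : ShortComplex X.Modules) (hS : S.Exact) [Mono S.f] {W : X.Opens}
    (h₂ : QCOn S.X₂ W) (h₃ : QCOn S.X₃ W) : QCOn S.X₁ W := by
  have hz : ∀ (U : X.Opens) (a : Γ(S.X₁, U)), ap S.g U (ap S.f U a) = 0 := by
    intro U a
    rw [← ap_comp, S.zero]
    rfl
  constructor
  · intro W' hW' hle f s
    obtain ⟨k, t, ht⟩ := h₂.ext W' hW' hle f (ap S.f _ s)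
    have h1 : rs S.X₃ (X.basicOpen_le f) (ap S.g _ t) = 0 := by
      rw [← ap_rs, ht, map_smul, hz, smul_zero]
    obtain ⟨l, hl⟩ := h₃.uniq W' hW' hle f _ h1
    rw [← map_smul] at hl
    obtain ⟨t', ht'⟩ := ap_exact S hS _ _ hl
    refine ⟨l + k, t', ?_⟩
    apply ap_injective S.f
    rw [ap_rs, ht', rs_smul, map_pow, ht, map_smul, pow_add, mul_smul]
  · intro W' hW' hle f t ht
    have h1 : rs S.X₂ (X.basicOpen_le f) (ap S.f _ t) = 0 := by
      rw [← ap_rs, ht, map_zero]
    obtain ⟨l, hl⟩ := h₂.uniq W' hW' hle f _ h1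
    refine ⟨l, ?_⟩
    apply ap_injective S.f
    rw [map_smul, hl, map_zero]

lemma qcOn_biprod {M N : X.Modules} {W : X.Opens} (hM : QCOn M W) (hN : QCOn N W) :
    QCOn (M ⊞ N) W := by
  constructor
  · intro W' hW' hle f s
    obtain ⟨k, t, ht⟩ := hM.ext W' hW' hle f (ap biprod.fst _ s)
    obtain ⟨l, t', ht'⟩ := hN.ext W' hW' hle f (ap biprod.snd _ s)
    refine ⟨k + l, ap biprod.inl _ (f ^ l • t) + ap biprod.inr _ (f ^ k • t'), ?_⟩
    rw [map_add, ← ap_rs, ← ap_rs, rs_smul, rs_smul, ht, ht', map_pow, map_pow, smul_smul,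
      smul_smul, ← pow_add, ← pow_add, add_comm l k, map_smul, map_smul, ← smul_add,
      ← biprod_section]
  · intro W' hW' hle f t ht
    obtain ⟨k, hk⟩ := hM.uniq W' hW' hle f (ap biprod.fst _ t) (by rw [← ap_rs, ht, map_zero])
    obtain ⟨l, hl⟩ := hN.uniq W' hW' hle f (ap biprod.snd _ t) (by rw [← ap_rs, ht, map_zero])
    refine ⟨k + l, ?_⟩
    rw [biprod_section (f ^ (k + l) • t), (ap (biprod.fst : M ⊞ N ⟶ M) W').map_smul,
      (ap (biprod.snd : M ⊞ N ⟶ N) W').map_smul]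
    have h1 : f ^ (k + l) • ap biprod.fst W' t = 0 := by
      rw [add_comm, pow_add, mul_smul, hk, smul_zero]
    have h2 : f ^ (k + l) • ap biprod.snd W' t = 0 := by
      rw [pow_add, mul_smul, hl, smul_zero]
    rw [h1, h2, map_zero, map_zero, add_zero]

/-- combination of sections -/
noncomputable def comb {N : X.Modules} {U : X.Opens} {n : ℕ} (e : Fin n → Γ(N, U)) {V : X.Opens}
    (h : V ≤ U) (a : Fin n → Γ(X, V)) : Γ(N, V) := ∑ i, a i • rs N h (e i)

/-- a family of sections is a basis over `U` -/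
def IsBasisOn {N : X.Modules} {U : X.Opens} {n : ℕ} (e : Fin n → Γ(N, U)) : Prop :=
  ∀ (V : X.Opens) (h : V ≤ U), Function.Bijective (comb e h)

lemma rs_comb {N : X.Modules} {U : X.Opens} {n : ℕ} (e : Fin n → Γ(N, U)) {V V' : X.Opens}
    (h : V ≤ U) (h' : V' ≤ V) (a : Fin n → Γ(X, V)) :
    rs N h' (comb e h a) = comb e (h'.trans h) (fun i => ro h' (a i)) := by
  simp only [comb, map_sum, rs_smul, rs_rs]

lemma comb_sub {N : X.Modules} {U : X.Opens} {n : ℕ} (e : Fin n → Γ(N, U)) {V : X.Opens}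
    (h : V ≤ U) (a b : Fin n → Γ(X, V)) : comb e h (a - b) = comb e h a - comb e h b := by
  simp only [comb, Pi.sub_apply, sub_smul, Finset.sum_sub_distrib]

lemma comb_smul {N : X.Modules} {U : X.Opens} {n : ℕ} (e : Fin n → Γ(N, U)) {V : X.Opens}
    (h : V ≤ U) (r : Γ(X, V)) (a : Fin n → Γ(X, V)) :
    comb e h (fun i => r * a i) = r • comb e h a := by
  simp only [comb, Finset.smul_sum, mul_smul]

lemma comb_zero {N : X.Modules} {U : X.Opens} {n : ℕ} (e : Fin n → Γ(N, U)) {V : X.Opens}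
    (h : V ≤ U) : comb e h 0 = 0 := by
  simp [comb]

lemma comb_injective_iff {N : X.Modules} {U : X.Opens} {n : ℕ} (e : Fin n → Γ(N, U))
    {V : X.Opens} (h : V ≤ U) :
    Function.Injective (comb e h) ↔ ∀ a, comb e h a = 0 → a = 0 := by
  constructor
  · intro hi a ha
    exact hi (ha.trans (comb_zero e h).symm)
  · intro hi a b hab
    have h1 := hi (a - b) (by rw [comb_sub, hab, sub_self])
    exact sub_eq_zero.1 h1

/-- it suffices to check bases locally -/
lemma isBasisOn_of_local {N : X.Modules} {U : X.Opens} {n : ℕ} (e : Fin n → Γ(N, U))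
    (H : ∀ (V : X.Opens), V ≤ U → ∀ x ∈ V, ∃ (B : X.Opens) (_ : B ≤ V) (hBU : B ≤ U), x ∈ B ∧
      Function.Bijective (comb e hBU)) : IsBasisOn e := by
  have inj : ∀ (V : X.Opens) (h : V ≤ U), Function.Injective (comb e h) := by
    intro V h
    rw [comb_injective_iff]
    intro a ha
    funext i
    apply ext_ro_of_mem
    intro x hx
    obtain ⟨B, hB, hBU, hxB, hbij⟩ := H V h x hx
    refine ⟨B, hB, hxB, ?_⟩
    have h1 := (comb_injective_iff e hBU).1 hbij.1 (fun i => ro hB (a i)) (by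
      rw [← rs_comb e h hB, ha, map_zero])
    rw [Pi.zero_apply, map_zero]
    exact congrFun h1 i
  intro V h
  refine ⟨inj V h, ?_⟩
  intro s
  choose B hB hBU hxB hbij using fun x : V => H V h x.1 x.2
  have hex : ∀ x : V, ∃ a, comb e (hBU x) a = rs N (hB x) s := fun x => (hbij x).2 _
  choose a ha using hex
  have hcomp : ∀ (x y : V), (fun i => ro (inf_le_left : B x ⊓ B y ≤ B x) (a x i)) =
      fun i => ro (inf_le_right : B x ⊓ B y ≤ B y) (a y i) := by
    intro x y
    apply inj (B x ⊓ B y) (inf_le_left.trans (hBU x))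
    rw [← rs_comb e (hBU x) inf_le_left, ha]
    refine Eq.trans ?_ (rs_comb e (hBU y) inf_le_right (a y))
    rw [ha, rs_rs, rs_rs]
  have hglue : ∀ i, ∃ b : Γ(X, V), ∀ x, ro (hB x) b = a x i := by
    intro i
    refine exists_glue_ro B hB ?_ (fun x => a x i) (fun x y => congrFun (hcomp x y) i)
    intro x hx
    rw [Opens.mem_iSup]
    exact ⟨⟨x, hx⟩, hxB ⟨x, hx⟩⟩
  choose b hb using hglue
  refine ⟨b, ?_⟩
  apply ext_rs_of_mem
  intro x hx
  refine ⟨B ⟨x, hx⟩, hB _, hxB _, ?_⟩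
  rw [rs_comb, ← ha]
  congr 1
  funext i
  exact hb i _

/-- finite locally free modules -/
def IsVB (M : X.Modules) : Prop :=
  ∀ x : X, ∃ (U : X.Opens) (_ : x ∈ U) (n : ℕ) (e : Fin n → Γ(M, U)), IsBasisOn e

lemma IsBasisOn.mono {N : X.Modules} {U V : X.Opens} {n : ℕ} {e : Fin n → Γ(N, U)}
    (he : IsBasisOn e) (h : V ≤ U) : IsBasisOn (fun i => rs N h (e i)) := by
  intro V' h'
  have h1 := he V' (h'.trans h)
  have h2 : comb (fun i => rs N h (e i)) h' = comb e (h'.trans h) := by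
    funext a
    simp only [comb, rs_rs]
  rw [h2]
  exact h1

lemma IsBasisOn.qcOn {N : X.Modules} {U : X.Opens} {n : ℕ} {e : Fin n → Γ(N, U)}
    (he : IsBasisOn e) : QCOn N U := by
  constructor
  · intro W' hW' hle f s
    obtain ⟨a, rfl⟩ := (he _ ((X.basicOpen_le f).trans hle)).2 s
    have h1 := fun i => ro_ext hW' f (a i)
    choose k b hb using h1
    have hK : ∀ i, ∃ l, ∑ j, k j = l + k i := fun i => ⟨∑ j ∈ Finset.univ.erase i, k j, by
      rw [add_comm]; exact (Finset.add_sum_erase _ _ (Finset.mem_univ i)).symm⟩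
    choose l hl using hK
    refine ⟨∑ j, k j, comb e hle (fun i => f ^ l i * b i), ?_⟩
    rw [rs_comb, ← comb_smul]
    congr 1
    funext i
    rw [map_mul, hb, map_pow, ← mul_assoc, ← pow_add, ← hl]
  · intro W' hW' hle f t ht
    obtain ⟨a, rfl⟩ := (he _ hle).2 t
    rw [rs_comb] at ht
    have h1 := (comb_injective_iff e ((X.basicOpen_le f).trans hle)).1 (he _ _).1 _ ht
    have h2 := fun i => ro_uniq hW' f (a i) (congrFun h1 i)
    choose k hk using h2
    refine ⟨∑ j, k j, ?_⟩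
    rw [← comb_smul]
    convert comb_zero e hle
    rename_i i
    rw [← Finset.add_sum_erase _ _ (Finset.mem_univ i), add_comm, pow_add, mul_assoc, hk, mul_zero]
    rfl

/-- finite projective sections over an affine open give local bases -/
lemma exists_basis_of_projective {N : X.Modules} {W : X.Opens} (hW : IsAffineOpen W)
    (hN : QCOn N W) [Module.Finite Γ(X, W) Γ(N, W)] [Module.Projective Γ(X, W) Γ(N, W)]
    (x : X) (hx : x ∈ W) :
    ∃ (U : X.Opens) (_ : x ∈ U) (_ : U ≤ W) (n : ℕ) (e : Fin n → Γ(N, U)), IsBasisOn e := by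
  obtain ⟨r, hr, n, e, hinj, hsurj⟩ := exists_local_basis (R := Γ(X, W)) (P := Γ(N, W))
    (hW.primeIdealOf ⟨x, hx⟩).asIdeal
  refine ⟨X.basicOpen r, ?_, X.basicOpen_le r, n, fun i => rs N (X.basicOpen_le r) (e i), ?_⟩
  · have h1 := hW.fromSpec_primeIdealOf ⟨x, hx⟩
    have h2 : hW.primeIdealOf ⟨x, hx⟩ ∈ hW.fromSpec ⁻¹ᵁ X.basicOpen r := by
      rw [hW.fromSpec_preimage_basicOpen]
      exact hr
    have h3 : hW.fromSpec (hW.primeIdealOf ⟨x, hx⟩) ∈ X.basicOpen r := h2
    rw [h1] at h3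
    exact h3
  · apply isBasisOn_of_local
    intro V hV y hy
    obtain ⟨h, hle, hyh⟩ := hW.exists_basicOpen_le (V := V) ⟨y, hy⟩
      ((hV.trans (X.basicOpen_le r)) hy)
    refine ⟨X.basicOpen h, hle, hle.trans hV, hyh, ?_⟩
    have hur : IsUnit (ro (X.basicOpen_le h) r) := by
      have h1 := (isUnit_ro_basicOpen r).map (ro (hle.trans hV))
      rw [ro_ro] at h1
      exact h1
    have huh := isUnit_ro_basicOpen h
    obtain ⟨u, hu⟩ := hur.exists_left_inv
    obtain ⟨v, hv⟩ := huh.exists_left_inv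
    have hcomb : ∀ a : Fin n → Γ(X, W), rs N (X.basicOpen_le h) (∑ i, a i • e i) =
        comb (fun i => rs N (X.basicOpen_le r) (e i)) (hle.trans hV)
          (fun i => ro (X.basicOpen_le h) (a i)) := by
      intro a
      simp only [comb, map_sum, rs_smul, rs_rs]
    constructor
    · rw [comb_injective_iff]
      intro a ha
      have h1 := fun i => ro_ext hW h (a i)
      choose k b hb using h1
      have hK : ∀ i, ∃ l, ∑ j, k j = l + k i := fun i => ⟨∑ j ∈ Finset.univ.erase i, k j, by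
        rw [add_comm]; exact (Finset.add_sum_erase _ _ (Finset.mem_univ i)).symm⟩
      choose l hl using hK
      have h2 : rs N (X.basicOpen_le h) (∑ i, (h ^ l i * b i) • e i) = 0 := by
        rw [hcomb]
        have h3 : (fun i => ro (X.basicOpen_le h) (h ^ l i * b i)) =
            fun i => ro (X.basicOpen_le h) h ^ (∑ j, k j) * a i := by
          funext i
          rw [map_mul, hb, map_pow, ← mul_assoc, ← pow_add, ← hl]
        rw [h3, comb_smul, ha, smul_zero]
      obtain ⟨q, hq⟩ := hN.uniq W hW le_rfl h _ h2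
      rw [Finset.smul_sum] at hq
      obtain ⟨m, hm⟩ := hinj (fun i => h ^ q * (h ^ l i * b i)) (by
        rw [← hq]
        exact Finset.sum_congr rfl fun i _ => by rw [smul_smul])
      funext i
      have h4 := congrArg (ro (X.basicOpen_le h)) (hm i)
      rw [map_mul, map_mul, map_mul, hb, map_zero, map_pow, map_pow, map_pow,
        ← mul_assoc, ← mul_assoc, ← mul_assoc] at h4
      have h5 : IsUnit (ro (X.basicOpen_le h) r ^ m * ro (X.basicOpen_le h) h ^ q *
        ro (X.basicOpen_le h) h ^ l i * ro (X.basicOpen_le h) h ^ k i) :=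
        (((hur.pow _).mul (huh.pow _)).mul (huh.pow _)).mul (huh.pow _)
      exact h5.mul_right_eq_zero.1 h4
    · intro s
      obtain ⟨k, t, ht⟩ := hN.ext W hW le_rfl h s
      obtain ⟨m, a, ha⟩ := hsurj t
      refine ⟨fun i => (v ^ k * u ^ m) * ro (X.basicOpen_le h) (a i), ?_⟩
      rw [comb_smul, ← hcomb, ← ha, rs_smul, ht, smul_smul, smul_smul, map_pow]
      have h1 : v ^ k * u ^ m * (ro (X.basicOpen_le h) r ^ m * ro (X.basicOpen_le h) h ^ k) =
          (u * ro (X.basicOpen_le h) r) ^ m * (v * ro (X.basicOpen_le h) h) ^ k := by ring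
      rw [mul_assoc, h1, hu, hv, one_pow, one_pow, one_mul, one_smul]

end Pool.Agent.W506
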