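import Pool.Agent.W506.S6
import Pool.Agent.W506.S4

/-!
Closure properties of vector bundles.
-/

universe u v

open CategoryTheory Limits Opposite TopologicalSpace AlgebraicGeometry

namespace Pool.Agent.W506

set_option backward.isDefEq.respectTransparency false

variable {X : Scheme.{u}}

lemma ap_comb {M N : X.Modules} (φ : M ⟶ N) {U : X.Opens} {n : ℕ} (e : Fin n → Γ(M, U))
    {V : X.Opens} (h : V ≤ U) (a : Fin n → Γ(X, V)) :
    ap φ V (comb e h a) = comb (fun i => ap φ U (e i)) h a := by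
  simp only [comb, map_sum, map_smul, ap_rs]

lemma IsBasisOn.map {M N : X.Modules} (φ : M ⟶ N) {U : X.Opens} {n : ℕ} {e : Fin n → Γ(M, U)}
    (he : IsBasisOn e) (h : ∀ V ≤ U, Function.Bijective (ap φ V)) :
    IsBasisOn (fun i => ap φ U (e i)) := by
  intro V hV
  have h1 := (h V hV).comp (he V hV)
  convert h1 using 1
  funext a
  exact (ap_comb φ e hV a).symm

lemma IsVB.of_iso {M N : X.Modules} (φ : M ≅ N) (h : IsVB M) : IsVB N := by
  intro x
  obtain ⟨U, hx, n, e, he⟩ := h x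
  exact ⟨U, hx, n, _, he.map φ.hom (fun V _ => ap_bijective_of_isIso φ.hom V)⟩

lemma subsingleton_of_isZero {M : X.Modules} (h : IsZero M) (U : X.Opens) :
    Subsingleton Γ(M, U) := by
  refine ⟨fun a b => ?_⟩
  have h1 : 𝟙 M = 0 := h.eq_of_src _ _
  rw [← ap_id (M := M) U a, ← ap_id (M := M) U b, h1, ap_zero, ap_zero]

lemma isVB_of_isZero {M : X.Modules} (h : IsZero M) : IsVB M := by
  intro x
  refine ⟨⊤, trivial, 0, fun i => i.elim0, ?_⟩
  intro V hV
  constructor
  · intro a b _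
    funext i
    exact i.elim0
  · intro b
    exact ⟨fun i => i.elim0, @Subsingleton.elim _ (subsingleton_of_isZero h V) _ _⟩

lemma isBasisOn_biprod {M N : X.Modules} {U : X.Opens} {n m : ℕ} {e : Fin n → Γ(M, U)}
    {e' : Fin m → Γ(N, U)} (he : IsBasisOn e) (he' : IsBasisOn e') :
    IsBasisOn (N := M ⊞ N) (Fin.append (fun i => ap biprod.inl U (e i))
      (fun i => ap biprod.inr U (e' i))) := by
  intro V hV
  have h1 : ∀ a : Fin (n + m) → Γ(X, V), comb (N := M ⊞ N) (Fin.append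
      (fun i => ap biprod.inl U (e i)) (fun i => ap biprod.inr U (e' i))) hV a =
      ap biprod.inl V (comb e hV (fun i => a (Fin.castAdd m i))) +
      ap biprod.inr V (comb e' hV (fun i => a (Fin.natAdd n i))) := by
    intro a
    rw [ap_comb, ap_comb]
    simp only [comb, Fin.sum_univ_add, Fin.append_left, Fin.append_right]
  have hfst : ∀ (s : Γ(M, V)) (t : Γ(N, V)),
      ap (biprod.fst : M ⊞ N ⟶ M) V (ap biprod.inl V s + ap biprod.inr V t) = s := by
    intro s t
    rw [map_add, ← ap_comp, ← ap_comp, biprod.inl_fst, biprod.inr_fst, ap_id, ap_zero, add_zero]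
  have hsnd : ∀ (s : Γ(M, V)) (t : Γ(N, V)),
      ap (biprod.snd : M ⊞ N ⟶ N) V (ap biprod.inl V s + ap biprod.inr V t) = t := by
    intro s t
    rw [map_add, ← ap_comp, ← ap_comp, biprod.inl_snd, biprod.inr_snd, ap_id, ap_zero, zero_add]
  constructor
  · intro a b hab
    rw [h1, h1] at hab
    have h2 := congrArg (ap (biprod.fst : M ⊞ N ⟶ M) V) hab
    have h3 := congrArg (ap (biprod.snd : M ⊞ N ⟶ N) V) hab
    rw [hfst, hfst] at h2
    rw [hsnd, hsnd] at h3
    funext i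
    refine Fin.addCases (fun j => ?_) (fun j => ?_) i
    · exact congrFun ((he V hV).1 h2) j
    · exact congrFun ((he' V hV).1 h3) j
  · intro s
    obtain ⟨a, ha⟩ := (he V hV).2 (ap biprod.fst V s)
    obtain ⟨b, hb⟩ := (he' V hV).2 (ap biprod.snd V s)
    refine ⟨Fin.append a b, ?_⟩
    rw [h1]
    simp only [Fin.append_left, Fin.append_right]
    rw [ha, hb, ← biprod_section]

lemma IsVB.biprod {M N : X.Modules} (hM : IsVB M) (hN : IsVB N) : IsVB (M ⊞ N) := by
  intro x
  obtain ⟨U, hx, n, e, he⟩ := hM x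
  obtain ⟨U', hx', n', e', he'⟩ := hN x
  exact ⟨U ⊓ U', ⟨hx, hx'⟩, n + n', _,
    isBasisOn_biprod (he.mono inf_le_left) (he'.mono inf_le_right)⟩

/-- the linear equivalence given by a basis -/
noncomputable def IsBasisOn.equiv {N : X.Modules} {U : X.Opens} {n : ℕ} {e : Fin n → Γ(N, U)}
    (he : IsBasisOn e) {V : X.Opens} (h : V ≤ U) : (Fin n → Γ(X, V)) ≃ₗ[Γ(X, V)] Γ(N, V) :=
  LinearEquiv.ofBijective
    { toFun := comb e h
      map_add' := fun a b => by
        simp only [comb, Pi.add_apply, add_smul, Finset.sum_add_distrib]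
      map_smul' := fun r a => comb_smul e h r a } (he V h)

lemma isVB_kernel (S : ShortComplex X.Modules) (hS : S.ShortExact) (h₂ : IsVB S.X₂)
    (h₃ : IsVB S.X₃) : IsVB S.X₁ := by
  have := hS.mono_f
  have := hS.epi_g
  intro x
  obtain ⟨U₂, hx₂, n, e, he⟩ := h₂ x
  obtain ⟨U₃, hx₃, m, e', he'⟩ := h₃ x
  obtain ⟨W, hW, hxW, hle⟩ := exists_affine_le (V := U₂ ⊓ U₃) ⟨hx₂, hx₃⟩
  have hle₂ : W ≤ U₂ := hle.trans inf_le_left
  have hle₃ : W ≤ U₃ := hle.trans inf_le_right
  have hq : QCOn S.X₁ W := qcOn_kernel S hS.exact (he.qcOn.mono hle₂) (he'.qcOn.mono hle₃)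
  have hsurj := ap_surjective_of_sumOn S hS hq.sumOn hW le_rfl
  have : Module.Free Γ(X, W) Γ(S.X₃, W) := Module.Free.of_equiv (he'.equiv hle₃)
  have : Module.Free Γ(X, W) Γ(S.X₂, W) := Module.Free.of_equiv (he.equiv hle₂)
  have : Module.Finite Γ(X, W) Γ(S.X₂, W) := Module.Finite.equiv (he.equiv hle₂)
  obtain ⟨σ, hσ⟩ := Module.projective_lifting_property (ap S.g W)
    (LinearMap.id : Γ(S.X₃, W) →ₗ[Γ(X, W)] Γ(S.X₃, W)) hsurj
  have hσ' : ∀ y, ap S.g W (σ y) = y := fun y => congr($hσ y)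
  have hinj : Function.Injective (ap S.f W) := ap_injective S.f W
  have hz : ∀ a : Γ(S.X₁, W), ap S.g W (ap S.f W a) = 0 := by
    intro a
    rw [← ap_comp, S.zero]
    rfl
  have hex : ∀ y : Γ(S.X₂, W), ∃ z, ap S.f W z = y - σ (ap S.g W y) := by
    intro y
    apply ap_exact S hS.exact
    rw [map_sub, hσ', sub_self]
  choose ρ hρ using hex
  let ρ' : Γ(S.X₂, W) →ₗ[Γ(X, W)] Γ(S.X₁, W) :=
    { toFun := ρ
      map_add' := fun a b => by
        apply hinj
        rw [map_add, hρ, hρ, hρ, map_add, map_add]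
        abel
      map_smul' := fun r a => by
        apply hinj
        rw [RingHom.id_apply, map_smul, hρ, hρ, map_smul, map_smul, smul_sub] }
  have hρ' : ρ' ∘ₗ ap S.f W = LinearMap.id := by
    ext z
    apply hinj
    change ap S.f W (ρ (ap S.f W z)) = ap S.f W z
    rw [hρ, hz, map_zero, sub_zero]
  have : Module.Projective Γ(X, W) Γ(S.X₁, W) := Module.Projective.of_split _ ρ' hρ'
  have : Module.Finite Γ(X, W) Γ(S.X₁, W) := Module.Finite.of_surjective ρ' (fun z =>
    ⟨ap S.f W z, congr($hρ' z)⟩)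
  obtain ⟨U, hxU, -, n', e'', he''⟩ := exists_basis_of_projective hW hq x hxW
  exact ⟨U, hxU, n', e'', he''⟩

end Pool.Agent.W506
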