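import Pool.Agent.W506.S7

/-!
Local modules, representability and bases.
-/

universe u v

open CategoryTheory Limits Opposite TopologicalSpace AlgebraicGeometry

namespace Pool.Agent.W506

set_option backward.isDefEq.respectTransparency false

variable {X : Scheme.{u}}

/-- construct a morphism of sheaves of modules from its action on sections -/
noncomputable def mkHom (M N : X.Modules) (φ : ∀ U, Γ(M, U) →ₗ[Γ(X, U)] Γ(N, U))
    (nat : ∀ (U V : X.Opens) (h : U ≤ V) (m : Γ(M, V)), φ U (rs M h m) = rs N h (φ V m)) :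
    M ⟶ N :=
  SheafOfModules.Hom.mk (PresheafOfModules.homMk
    { app := fun U => AddCommGrpCat.ofHom (φ U.unop).toAddMonoidHom
      naturality := fun U V f => by
        ext m
        exact nat V.unop U.unop f.unop.le m }
    (fun U r m => (φ U.unop).map_smul r m))

lemma ap_mkHom (M N : X.Modules) (φ : ∀ U, Γ(M, U) →ₗ[Γ(X, U)] Γ(N, U))
    (nat : ∀ (U V : X.Opens) (h : U ≤ V) (m : Γ(M, V)), φ U (rs M h m) = rs N h (φ V m))
    (U : X.Opens) (m : Γ(M, U)) : ap (mkHom M N φ nat) U m = φ U m := rfl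

/-- the structure sheaf as a module -/
noncomputable def OO (X : Scheme.{u}) : X.Modules := SheafOfModules.unit X.ringCatSheaf

/-- sections of the structure sheaf -/
noncomputable def ooE (U : X.Opens) : Γ(X, U) ≃ₗ[Γ(X, U)] Γ(OO X, U) :=
  LinearEquiv.refl Γ(X, U) Γ(X, U)

lemma ooE_ro {U V : X.Opens} (h : U ≤ V) (r : Γ(X, V)) :
    ooE U (ro h r) = rs (OO X) h (ooE V r) := rfl

/-- the module `V ↦ N (V ∩ U)` -/
noncomputable def jj (U : X.Opens) (N : X.Modules) : X.Modules :=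
  (Scheme.Modules.pushforward U.ι).obj (N.restrict U.ι)

lemma iota_le (U V : X.Opens) : U.ι ''ᵁ (U.ι ⁻¹ᵁ V) ≤ V ⊓ U :=
  le_inf (U.ι.image_preimage_le V) (Scheme.Opens.ι_image_le U _)

lemma le_iota (U V : X.Opens) : V ⊓ U ≤ U.ι ''ᵁ (U.ι ⁻¹ᵁ V) := by
  rw [U.ι.image_preimage_eq_opensRange_inf, Scheme.Opens.opensRange_ι, inf_comm]

/-- sections of `jj U N` -/
noncomputable def jjE (U : X.Opens) (N : X.Modules) (V : X.Opens) : Γ(jj U N, V) ≃+ Γ(N, V ⊓ U) where
  toFun s := rs N (le_iota U V) s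
  invFun s := rs N (iota_le U V) s
  left_inv s := by
    exact (rs_rs (M := N) _ _ _).trans (rs_refl (M := N) _ _)
  right_inv s := by
    exact (rs_rs (M := N) _ _ _).trans (rs_refl (M := N) _ _)
  map_add' s t := (rs N (le_iota U V)).map_add s t

lemma jjE_rs (U : X.Opens) (N : X.Modules) {V V' : X.Opens} (h : V' ≤ V) (s : Γ(jj U N, V)) :
    jjE U N V' (rs (jj U N) h s) = rs N (inf_le_inf_right U h) (jjE U N V s) := by
  have h1 : rs (jj U N) h s = rs N (U.ι.image_mono (preimage_mono U.ι h)) s := rfl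
  change rs N _ _ = rs N _ (rs N _ _)
  rw [h1]
  exact (rs_rs (M := N) _ _ _).trans (rs_rs (M := N) _ _ _).symm

lemma jjE_smul (U : X.Opens) (N : X.Modules) {V : X.Opens} (r : Γ(X, V)) (s : Γ(jj U N, V)) :
    jjE U N V (r • s) = ro (inf_le_left : V ⊓ U ≤ V) r • jjE U N V s := by
  have h1 : r • s = (ro (U.ι.image_preimage_le V) r • (show Γ(N, U.ι ''ᵁ (U.ι ⁻¹ᵁ V)) from s) :
      Γ(N, U.ι ''ᵁ (U.ι ⁻¹ᵁ V))) := by
    have h2 := U.ι.app_appIso_inv V
    have h3 : (U.ι.appIso (U.ι ⁻¹ᵁ V)).inv (U.ι.app V r) = ro (U.ι.image_preimage_le V) r :=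
      congr($h2 r)
    rw [← h3]
    rfl
  change rs N _ _ = _
  rw [h1, rs_smul, ro_ro]
  rfl

/-- the unit -/
noncomputable def jjU (U : X.Opens) (N : X.Modules) : N ⟶ jj U N :=
  (Scheme.Modules.restrictAdjunction U.ι).unit.app N

lemma jjE_jjU (U : X.Opens) (N : X.Modules) (V : X.Opens) (n : Γ(N, V)) :
    jjE U N V (ap (jjU U N) V n) = rs N inf_le_left n := by
  have h1 : ap (jjU U N) V n = rs N (U.ι.image_preimage_le V) n := rfl
  change rs N _ _ = _
  rw [h1]
  exact rs_rs (M := N) _ _ _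

end Pool.Agent.W506
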