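import Pool.Agent.W506.S8

/-!
Representability and bases; pullback of a module with a basis.
-/

universe u v

open CategoryTheory Limits Opposite TopologicalSpace AlgebraicGeometry

namespace Pool.Agent.W506

set_option backward.isDefEq.respectTransparency false

variable {X : Scheme.{u}}

lemma rs_bijective {N : X.Modules} {U V : X.Opens} (h : U ≤ V) (h' : V ≤ U) :
    Function.Bijective (rs N h) :=
  ⟨fun a b hab => by
    have h1 := congrArg (rs N h') hab
    rwa [rs_rs, rs_rs, rs_refl, rs_refl] at h1, fun b => ⟨rs N h' b, by rw [rs_rs, rs_refl]⟩⟩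

/-- modules whose sections only depend on the part over `U` -/
def LocalOn (U : X.Opens) (N : X.Modules) : Prop :=
  ∀ V : X.Opens, Function.Bijective (rs N (inf_le_left : V ⊓ U ≤ V))

lemma localOn_jj (U : X.Opens) (N : X.Modules) : LocalOn U (jj U N) := by
  intro V
  have h1 : (fun s => jjE U N _ (rs (jj U N) (inf_le_left : V ⊓ U ≤ V) s)) =
      fun s => rs N (inf_le_inf_right U inf_le_left) (jjE U N V s) := by
    funext s
    exact jjE_rs U N _ s
  have h2 : Function.Bijective (fun s => rs N (inf_le_inf_right U (inf_le_left : V ⊓ U ≤ V))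
      (jjE U N V s)) :=
    (rs_bijective (N := N) _ (by simp)).comp (jjE U N V).bijective
  rw [← h1] at h2
  exact (Function.Bijective.of_comp_iff' (jjE U N _).bijective _).1 h2

lemma comb_add {N : X.Modules} {U : X.Opens} {n : ℕ} (e : Fin n → Γ(N, U)) {V : X.Opens}
    (h : V ≤ U) (a b : Fin n → Γ(X, V)) : comb e h (a + b) = comb e h a + comb e h b := by
  simp only [comb, Pi.add_apply, add_smul, Finset.sum_add_distrib]

lemma exists_hom_of_basis {F N : X.Modules} {V : X.Opens} {n : ℕ} {e : Fin n → Γ(F, V)}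
    (he : IsBasisOn e) (hN : LocalOn V N) (s : Fin n → Γ(N, V)) :
    ∃ f : F ⟶ N, ∀ i, ap f V (e i) = s i := by
  -- coordinates
  have hc : ∀ (V' : X.Opens) (m : Γ(F, V')), ∃ a, comb e (inf_le_right : V' ⊓ V ≤ V) a =
      rs F inf_le_left m := fun V' m => (he _ _).2 _
  choose c hc using hc
  have hv : ∀ (V' : X.Opens) (m : Γ(F, V')), ∃ y : Γ(N, V'), rs N (inf_le_left : V' ⊓ V ≤ V') y =
      comb s inf_le_right (c V' m) := fun V' m => (hN V').2 _
  choose v hv using hv
  have hcadd : ∀ V' m m', c V' (m + m') = c V' m + c V' m' := by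
    intro V' m m'
    apply (he _ _).1
    rw [hc, map_add, comb_add, hc, hc]
  have hcsmul : ∀ V' (r : Γ(X, V')) m, c V' (r • m) = fun i => ro inf_le_left r * c V' m i := by
    intro V' r m
    apply (he _ _).1
    rw [hc, rs_smul, comb_smul, hc]
  have hcrs : ∀ (V' V'' : X.Opens) (h : V'' ≤ V') (m : Γ(F, V')), c V'' (rs F h m) =
      fun i => ro (inf_le_inf_right V h) (c V' m i) := by
    intro V' V'' h m
    apply (he _ _).1
    rw [hc, rs_rs]
    have h1 := congrArg (rs F (inf_le_inf_right V h)) (hc V' m)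
    rw [rs_comb, rs_rs] at h1
    exact h1.symm
  let f : F ⟶ N := mkHom F N
    (fun V' =>
      { toFun := v V'
        map_add' := fun m m' => by
          apply (hN V').1
          rw [hv, map_add, hv, hv, hcadd, comb_add]
        map_smul' := fun r m => by
          apply (hN V').1
          rw [hv, RingHom.id_apply, rs_smul, hv, hcsmul, comb_smul] })
    (fun V'' V' h m => by
      apply (hN V'').1
      change rs N _ (v V'' (rs F h m)) = rs N _ (rs N h (v V' m))
      rw [hv, hcrs, rs_rs]
      have h1 := congrArg (rs N (inf_le_inf_right V h)) (hv V' m)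
      rw [rs_comb, rs_rs] at h1
      exact h1.symm)
  refine ⟨f, fun i => ?_⟩
  apply (hN V).1
  change rs N _ (v V (e i)) = _
  rw [hv]
  have h1 : c V (e i) = Pi.single i 1 := by
    apply (he _ _).1
    rw [hc]
    simp [comb, Pi.single_apply]
  rw [h1]
  simp [comb, Pi.single_apply]

lemma hom_ext_of_basis {F N : X.Modules} {V : X.Opens} {n : ℕ} {e : Fin n → Γ(F, V)}
    (he : IsBasisOn e) (hN : LocalOn V N) {f g : F ⟶ N}
    (h : ∀ i, ap f V (e i) = ap g V (e i)) : f = g := by
  apply ap_ext
  intro V' m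
  apply (hN V').1
  obtain ⟨a, ha⟩ := (he (V' ⊓ V) inf_le_right).2 (rs F inf_le_left m)
  rw [← ap_rs, ← ap_rs, ← ha, ap_comb, ap_comb]
  congr 1
  funext i
  exact h i

lemma ap_sum {M N : X.Modules} {ι : Type*} (s : Finset ι) (φ : ι → (M ⟶ N)) (U : X.Opens)
    (m : Γ(M, U)) : ap (∑ i ∈ s, φ i) U m = ∑ i ∈ s, ap (φ i) U m := by
  classical
  induction s using Finset.induction_on with
  | empty => simp only [Finset.sum_empty, ap_zero]
  | insert i s his ih => rw [Finset.sum_insert his, Finset.sum_insert his, ap_add, ih]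

/-- multiplication of a section -/
lemma exists_mul_section {L : X.Modules} {U : X.Opens} (u : Γ(L, U)) :
    ∃ f : jj U (OO X) ⟶ jj U L, ∀ (V : X.Opens) (s : Γ(jj U (OO X), V)),
      jjE U L V (ap f V s) = (ooE (V ⊓ U)).symm (jjE U (OO X) V s) • rs L inf_le_right u := by
  let g : ∀ V, Γ(jj U (OO X), V) → Γ(jj U L, V) := fun V s =>
    (jjE U L V).symm ((ooE (V ⊓ U)).symm (jjE U (OO X) V s) • rs L inf_le_right u)
  have hg : ∀ V s, jjE U L V (g V s) = (ooE (V ⊓ U)).symm (jjE U (OO X) V s) •
      rs L inf_le_right u := fun V s => AddEquiv.apply_symm_apply _ _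
  refine ⟨mkHom _ _ (fun V =>
    { toFun := g V
      map_add' := fun s t => by
        apply (jjE U L V).injective
        rw [hg, map_add, map_add, map_add, hg, hg, add_smul]
      map_smul' := fun r s => by
        apply (jjE U L V).injective
        rw [hg, jjE_smul, map_smul, RingHom.id_apply, jjE_smul, hg, smul_smul]
        rfl }) ?_, ?_⟩
  · intro V' V h s
    apply (jjE U L V').injective
    change jjE U L V' (g V' _) = jjE U L V' (rs _ h (g V s))
    rw [hg, jjE_rs, jjE_rs, hg, rs_smul, rs_rs]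
    rfl
  · intro V s
    exact hg V s

lemma isBasisOn_of_represents {L : X.Modules} {U : X.Opens} {n : ℕ} (u : Fin n → Γ(L, U))
    (hex : ∀ N, LocalOn U N → ∀ s : Fin n → Γ(N, U), ∃ f : L ⟶ N, ∀ i, ap f U (u i) = s i)
    (huniq : ∀ N, LocalOn U N → ∀ f g : L ⟶ N, (∀ i, ap f U (u i) = ap g U (u i)) → f = g) :
    IsBasisOn u := by
  classical
  let one : Γ(jj U (OO X), U) := (jjE U _ U).symm (ooE _ 1)
  have hone : jjE U _ U one = ooE _ 1 := AddEquiv.apply_symm_apply _ _
  choose r hr using fun i => hex (jj U (OO X)) (localOn_jj U _) (fun j => if j = i then one else 0)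
  choose m hm using fun i => exists_mul_section (u i)
  have hkey : jjU U L = ∑ i, r i ≫ m i := by
    apply huniq _ (localOn_jj U _)
    intro j
    apply (jjE U L U).injective
    rw [jjE_jjU, ap_sum, map_sum]
    have h1 : ∀ i, jjE U L U (ap (r i ≫ m i) U (u j)) =
        if j = i then rs L inf_le_left (u j) else 0 := by
      intro i
      rw [ap_comp, hm, hr]
      split_ifs with h
      · subst h
        rw [hone, LinearEquiv.symm_apply_apply, one_smul]
      · rw [map_zero, map_zero, zero_smul]
    rw [Finset.sum_congr rfl (fun i _ => h1 i)]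
    simp
  intro W hW
  constructor
  · rw [comb_injective_iff]
    intro a ha
    funext i
    have h1 : ap (r i) W (comb u hW a) = 0 := by rw [ha, map_zero]
    rw [ap_comb] at h1
    have h2 : comb (fun j => ap (r i) U (u j)) hW a = a i • rs _ hW one := by
      simp only [comb, hr]
      rw [Finset.sum_eq_single i]
      · rw [if_pos rfl]
      · intro j _ hj
        rw [if_neg hj, map_zero, smul_zero]
      · intro h
        exact absurd (Finset.mem_univ i) h
    rw [h2] at h1
    have h3 := congrArg (jjE U _ W) h1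
    rw [jjE_smul, jjE_rs, hone, map_zero] at h3
    have h4 : ro (inf_le_left : W ⊓ U ≤ W) (a i) = 0 := by
      have h5 : ro (inf_le_left : W ⊓ U ≤ W) (a i) * ro (inf_le_inf_right U hW) 1 = 0 := h3
      rwa [map_one, mul_one] at h5
    have h6 := congrArg (ro (le_inf le_rfl hW : W ≤ W ⊓ U)) h4
    rw [ro_ro, ro_refl, map_zero] at h6
    exact h6
  · intro l
    have h1 : jjE U L W (ap (jjU U L) W l) = ∑ i, jjE U L W (ap (r i ≫ m i) W l) := by
      rw [hkey, ap_sum, map_sum]
    rw [jjE_jjU] at h1
    have h2 := congrArg (rs L (le_inf le_rfl hW : W ≤ W ⊓ U)) h1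
    rw [rs_rs, rs_refl, map_sum] at h2
    refine ⟨fun i => ro (le_inf le_rfl hW : W ≤ W ⊓ U)
      ((ooE (W ⊓ U)).symm (jjE U (OO X) W (ap (r i) W l))), ?_⟩
    refine Eq.trans ?_ h2.symm
    simp only [comb]
    refine Finset.sum_congr rfl fun i _ => ?_
    rw [ap_comp, hm, rs_smul, rs_rs]

lemma isBasisOn_gen (U : X.Opens) : IsBasisOn (fun _ : Fin 1 => gen U) := by
  apply isBasisOn_of_represents
  · intro N _ s
    exact ⟨secHom (s 0), fun i => by
      rw [ap_secHom_gen, Subsingleton.elim i 0]⟩
  · intro N _ f g h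
    exact lu_hom_ext (h 0)

variable {Y : Scheme.{u}}

lemma localOn_pushforward (π : Y ⟶ X) {V : X.Opens} {N : Y.Modules}
    (hN : LocalOn (π ⁻¹ᵁ V) N) : LocalOn V ((Scheme.Modules.pushforward π).obj N) :=
  fun V' => hN (π ⁻¹ᵁ V')

/-- the section of the pullback -/
noncomputable def pbs (π : Y ⟶ X) {F : X.Modules} {V : X.Opens} (m : Γ(F, V)) :
    Γ((Scheme.Modules.pullback π).obj F, π ⁻¹ᵁ V) :=
  ap ((Scheme.Modules.pullbackPushforwardAdjunction π).unit.app F) V m

lemma isBasisOn_pullback (π : Y ⟶ X) {F : X.Modules} {V : X.Opens} {n : ℕ} {e : Fin n → Γ(F, V)}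
    (he : IsBasisOn e) : IsBasisOn (fun i => pbs π (e i)) := by
  let adj := Scheme.Modules.pullbackPushforwardAdjunction π
  have key : ∀ {N : Y.Modules} (f : (Scheme.Modules.pullback π).obj F ⟶ N) (m : Γ(F, V)),
      ap f (π ⁻¹ᵁ V) (pbs π m) = ap (adj.homEquiv F N f) V m := by
    intro N f m
    rw [adj.homEquiv_unit]
    rfl
  apply isBasisOn_of_represents
  · intro N hN s
    obtain ⟨f, hf⟩ := exists_hom_of_basis (N := (Scheme.Modules.pushforward π).obj N) he
      (localOn_pushforward π hN) s
    refine ⟨(adj.homEquiv F N).symm f, fun i => ?_⟩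
    rw [key, Equiv.apply_symm_apply]
    exact hf i
  · intro N hN f g h
    apply (adj.homEquiv F N).injective
    apply hom_ext_of_basis he (localOn_pushforward π hN)
    intro i
    have h1 := h i
    rw [key, key] at h1
    exact h1

lemma IsVB.pullback (π : Y ⟶ X) {F : X.Modules} (hF : IsVB F) :
    IsVB ((Scheme.Modules.pullback π).obj F) := by
  intro y
  obtain ⟨U, hx, n, e, he⟩ := hF (π y)
  exact ⟨π ⁻¹ᵁ U, hx, n, _, isBasisOn_pullback π he⟩

end Pool.Agent.W506
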